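import Pool.Agent.H33.TR.Loc
import Pool.Agent.H11.TH.Irr
import Pool.Agent.H72.PB.HNonneg

/-!
# TRANSFER THEOREM, Ird: irreducible sets, factors, boxes, projections
-/

set_option autoImplicit false
set_option linter.unusedSectionVars false

open MvPolynomial NumberField

namespace Pool.Agent.H33.TR

open Pool.Agent.H11.TH

/-- an element of a prime ideal has an irreducible factor in the ideal -/
theorem irr_factor {R : Type} [Field R] {k : ℕ} (J : Ideal (MvPolynomial (Fin k) R)) (hJ : J.IsPrime)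
    (F : MvPolynomial (Fin k) R) (hF0 : F ≠ 0) (hF : F ∈ J) :
    ∃ F' : MvPolynomial (Fin k) R, Irreducible F' ∧ F' ∣ F ∧ F' ∈ J := by
  classical
  by_contra hcon
  push Not at hcon
  have h1 := UniqueFactorizationMonoid.factors_prod hF0
  have h2 : (UniqueFactorizationMonoid.factors F).prod ∈ J.primeCompl := by
    refine Submonoid.multiset_prod_mem _ _ fun f hf => ?_
    exact hcon f (UniqueFactorizationMonoid.irreducible_of_factor f hf)
      (UniqueFactorizationMonoid.dvd_of_mem_factors hf)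
  apply h2
  obtain ⟨u, hu⟩ := h1.symm
  rw [← hu]
  exact J.mul_mem_right _ hF

/-- degrees of a divisor -/
theorem degreeOf_le_of_dvd {R : Type} [Field R] {k : ℕ} {f F : MvPolynomial (Fin k) R} (hF0 : F ≠ 0)
    (h : f ∣ F) (l : Fin k) : f.degreeOf l ≤ F.degreeOf l := by
  obtain ⟨q, rfl⟩ := h
  have hf : f ≠ 0 := fun h => hF0 (by rw [h, zero_mul])
  have hq : q ≠ 0 := fun h => hF0 (by rw [h, mul_zero])
  rw [degreeOf_mul_eq hf hq]
  exact Nat.le_add_right _ _

/-- the exponent -/
noncomputable def bxf {k M : ℕ} (m : Bx k M) : Fin k →₀ ℕ :=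
  Finsupp.equivFunOnFinite.symm fun l => (m l : ℕ)

theorem bxf_apply {k M : ℕ} (m : Bx k M) (l : Fin k) : bxf m l = (m l : ℕ) := rfl

theorem bxf_inj {k M : ℕ} {m m' : Bx k M} (h : bxf m = bxf m') : m = m' := by
  funext l
  apply Fin.ext
  have := congrArg (fun f : Fin k →₀ ℕ => f l) h
  exact this

theorem bxf_surj {k M : ℕ} (m : Fin k →₀ ℕ) (h : ∀ l, m l ≤ M) : ∃ m' : Bx k M, bxf m' = m := by
  refine ⟨fun l => ⟨m l, Nat.lt_succ_of_le (h l)⟩, ?_⟩
  ext l
  rfl

/-- evaluation as a sum over the box -/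
theorem aeval_box {R S : Type} [Field R] [Field S] [Algebra R S] {k D : ℕ} (F : MvPolynomial (Fin k) R)
    (hF : ∀ l, F.degreeOf l ≤ D) (y : Fin k → S) :
    aeval y F = ∑ m : Bx k D, algebraMap R S (F.coeff (bxf m)) * mn m y := by
  classical
  rw [aeval_def, eval₂_eq']
  symm
  have h1 : ∑ m ∈ F.support, (algebraMap R S) (coeff m F) * ∏ i, y i ^ m i =
      ∑ m ∈ (Finset.univ : Finset (Bx k D)).filter (fun m => bxf m ∈ F.support),
        algebraMap R S (F.coeff (bxf m)) * mn m y := by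
    symm
    refine Finset.sum_bij (fun m _ => bxf m) ?_ ?_ ?_ ?_
    · intro m hm
      exact (Finset.mem_filter.1 hm).2
    · intro m _ m' _ h
      exact bxf_inj h
    · intro m hm
      obtain ⟨m', hm'⟩ := bxf_surj m fun l => (monomial_le_degreeOf l hm).trans (hF l)
      exact ⟨m', Finset.mem_filter.2 ⟨Finset.mem_univ _, by rw [hm']; exact hm⟩, hm'⟩
    · intro m _
      rfl
  rw [h1]
  symm
  refine Finset.sum_subset (Finset.filter_subset _ _) fun m _ hm => ?_
  have h2 : F.coeff (bxf m) = 0 := by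
    by_contra h3
    exact hm (Finset.mem_filter.2 ⟨Finset.mem_univ _, mem_support_iff.2 h3⟩)
  rw [h2, map_zero, zero_mul]

/-- the polynomial with given coefficients in the box -/
noncomputable def bxp {R : Type} [Field R] {k M : ℕ} (g : Bx k M → R) : MvPolynomial (Fin k) R :=
  ∑ m, monomial (bxf m) (g m)

theorem coeff_bxp {R : Type} [Field R] {k M : ℕ} (g : Bx k M → R) (m : Bx k M) :
    (bxp g).coeff (bxf m) = g m := by
  classical
  unfold bxp
  rw [coeff_sum, Finset.sum_eq_single m]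
  · rw [coeff_monomial, if_pos rfl]
  · intro m' _ hne
    rw [coeff_monomial, if_neg]
    intro h
    exact hne (bxf_inj h)
  · intro h
    exact absurd (Finset.mem_univ m) h

theorem bxp_ne_zero {R : Type} [Field R] {k M : ℕ} (g : Bx k M → R) (hg : g ≠ 0) : bxp g ≠ 0 := by
  intro h
  apply hg
  funext m
  rw [← coeff_bxp g m, h, coeff_zero]
  rfl

theorem bxp_deg {R : Type} [Field R] {k M : ℕ} (g : Bx k M → R) (l : Fin k) : (bxp g).degreeOf l ≤ M := by
  classical
  unfold bxp
  refine (degreeOf_sum_le l _ _).trans (Finset.sup_le fun m _ => ?_)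
  by_cases h : g m = 0
  · rw [h, monomial_zero, degreeOf_zero]
    exact Nat.zero_le _
  · rw [degreeOf_monomial_eq _ _ h, bxf_apply]
    exact Nat.lt_succ_iff.1 (m l).2

theorem aeval_bxp {R S : Type} [Field R] [Field S] [Algebra R S] {k M : ℕ} (p : ℕ) (g : Bx k M → R)
    (y : Fin k → S) : aeval y (expand p (bxp g)) = ∑ m : Bx k M, algebraMap R S (g m) * mn m y ^ p := by
  rw [aeval_expand]
  unfold bxp
  rw [map_sum]
  refine Finset.sum_congr rfl fun m _ => ?_
  rw [aeval_monomial, Finsupp.prod_fintype _ _ (fun i => pow_zero _)]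
  congr 1
  unfold mn
  rw [← Finset.prod_pow]
  refine Finset.prod_congr rfl fun l _ => ?_
  rw [Pi.pow_apply, bxf_apply, ← pow_mul, ← pow_mul, mul_comm]

section

variable {Ω : Type} [Field Ω]

theorem mem_idl {k : ℕ} {X : Set (Tor Ω k)} {f : MvPolynomial (Fin k) Ω} :
    f ∈ idl X ↔ ∀ x ∈ X, aeval (crd x) f = 0 := by
  unfold idl
  rw [mem_vanishingIdeal_iff]
  constructor
  · intro h x hx
    exact h _ ⟨x, hx, rfl⟩
  · rintro h _ ⟨x, hx, rfl⟩
    exact h x hx

/-- the projection -/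
def prj {k : ℕ} (i : Fin (k + 1)) (x : Tor Ω (k + 1)) : Tor Ω k := fun j => x (i.succAbove j)

theorem prj_idl {k : ℕ} (i : Fin (k + 1)) (X : Set (Tor Ω (k + 1))) :
    idl (prj i '' X) = (idl X).comap (rename i.succAbove : MvPolynomial (Fin k) Ω →ₐ[Ω] _).toRingHom := by
  ext f
  rw [Ideal.mem_comap, mem_idl]
  change _ ↔ rename i.succAbove f ∈ idl X
  rw [mem_idl]
  have h1 : ∀ x : Tor Ω (k + 1), aeval (crd x) (rename i.succAbove f) = aeval (crd (prj i x)) f := by
    intro x
    rw [aeval_rename]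
    rfl
  constructor
  · intro h x hx
    rw [h1]
    exact h _ ⟨x, hx, rfl⟩
  · rintro h _ ⟨x, hx, rfl⟩
    rw [← h1]
    exact h x hx

theorem prj_prime {k : ℕ} (i : Fin (k + 1)) (X : Set (Tor Ω (k + 1))) (hX : (idl X).IsPrime) :
    (idl (prj i '' X)).IsPrime := by
  rw [prj_idl]
  exact Ideal.comap_isPrime _ _

theorem prj_ht [CharZero Ω] {k : ℕ} (i : Fin (k + 1)) (x : Tor Ω (k + 1)) : ht (prj i x) ≤ ht x := by
  unfold ht
  rw [Fin.sum_univ_succAbove _ i]
  have h1 := Pool.Agent.H72.PB.ht_nonneg (crd x i)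
  have h2 : ∀ l, crd (prj i x) l = crd x (i.succAbove l) := fun l => rfl
  simp only [h2]
  linarith

theorem prj_ch {k : ℕ} (i : Fin (k + 1)) (e : Fin k → ℤ) (x : Tor Ω (k + 1)) :
    ch (i.insertNth (α := fun _ => ℤ) 0 e) x = ch e (prj i x) := by
  unfold ch
  rw [Fin.prod_univ_succAbove _ i, Fin.insertNth_apply_same, zpow_zero, one_mul]
  refine Finset.prod_congr rfl fun l _ => ?_
  rw [Fin.insertNth_apply_succAbove]
  rfl

end

end Pool.Agent.H33.TR
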