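import Pool.Agent.H92.SR.LocPow

/-!
# TRANSFER THEOREM, Loc: the local inequality

`v` a nonarchimedean absolute value.
* `unimod`: a matrix `P` with entries of absolute value `≤ 1`, `1` on the diagonal and `< 1` above (with respect to an
  injective `Φ : B → ℕ`) has `v (det P) = 1`: every permutation other than `1` has a factor `< 1`.
* `det_le`: Hadamard's inequality in the ultrametric form.
* `loc_det`: `∑_m a_m y_i^m = 0` for all `i` (`m ∈ {0..D}^k`, `a ≠ 0`) implies
  `v (det (y_i^(p m))) ≤ v(p)^((M+1-D)^k) ∏_i H(y_i)^(p M)`, `m ∈ {0..M}^k`.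
  Let `a'` be `a` divided by an entry of maximal absolute value, `W = M + 1`, `Φ m = ∑ m_l W^l`, `m₀` the index of largest `Φ`
  with `v (a' m₀) = 1`. Column `m₀ + μ`, `μ ∈ {0..M-D}^k`, is replaced by `∑_m' a'_m'^p column(m' + μ)`, whose entries are
  `y_i^(p μ) ∑_m' (a'_m' y_i^m')^p`, of absolute value `≤ v(p) H(y_i)^(p M)` by `loc_pow`.
-/

set_option autoImplicit false

namespace Pool.Agent.H33.TR

/-- the box `{0, .., M}^k` -/
abbrev Bx (k M : ℕ) : Type := Fin k → Fin (M + 1)

private theorem perm_lt {B : Type} [Fintype B] (Φ : B → ℕ) (hΦ : Function.Injective Φ)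
    (π : Equiv.Perm B) (hπ : π ≠ 1) : ∃ j, Φ j < Φ (π j) := by
  by_contra hcon
  push Not at hcon
  apply hπ
  have key : ∀ (n : ℕ) (j : B), Φ j = n → π j = j := by
    intro n
    induction n using Nat.strong_induction_on with
    | _ n ih =>
      intro j hj
      rcases lt_or_eq_of_le (hcon j) with h | h
      · have h1 := ih (Φ (π j)) (hj ▸ h) (π j) rfl
        exact π.injective h1
      · exact hΦ h
  ext j
  rw [key _ j rfl, Equiv.Perm.one_apply]

private theorem prod_le_one {B : Type} (s : Finset B) (f : B → ℝ) (h0 : ∀ i ∈ s, 0 ≤ f i)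
    (h1 : ∀ i ∈ s, f i ≤ 1) : ∏ i ∈ s, f i ≤ 1 := Finset.prod_le_one h0 h1

private theorem sign_one {E : Type} [Field E] (v : AbsoluteValue E ℝ) {B : Type} [Fintype B] [DecidableEq B]
    (π : Equiv.Perm B) : v (((Equiv.Perm.sign π : ℤˣ) : ℤ) : E) = 1 := by
  rcases Int.units_eq_one_or (Equiv.Perm.sign π) with h | h
  · rw [h]; simp
  · rw [h]; simp

theorem unimod {B : Type} [Fintype B] [DecidableEq B] {E : Type} [Field E] (v : AbsoluteValue E ℝ)
    (hv : IsNonarchimedean v) (Φ : B → ℕ) (hΦ : Function.Injective Φ) (P : Matrix B B E)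
    (h1 : ∀ i j, v (P i j) ≤ 1) (h2 : ∀ j, v (P j j) = 1)
    (h3 : ∀ i j, Φ j < Φ i → v (P i j) < 1) : v P.det = 1 := by
  rw [Matrix.det_apply']
  rw [← Finset.add_sum_erase Finset.univ _ (Finset.mem_univ (1 : Equiv.Perm B))]
  set t := ∑ π ∈ Finset.univ.erase (1 : Equiv.Perm B),
    (((Equiv.Perm.sign π : ℤˣ) : ℤ) : E) * ∏ i, P (π i) i with ht
  have hd : v ((((Equiv.Perm.sign (1 : Equiv.Perm B) : ℤˣ) : ℤ) : E) * ∏ i, P ((1 : Equiv.Perm B) i) i) = 1 := by
    rw [map_mul, sign_one, one_mul, map_prod]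
    exact Finset.prod_eq_one fun i _ => h2 i
  have hterm : ∀ π ∈ Finset.univ.erase (1 : Equiv.Perm B),
      v ((((Equiv.Perm.sign π : ℤˣ) : ℤ) : E) * ∏ i, P (π i) i) < 1 := by
    intro π hπ
    obtain ⟨j, hj⟩ := perm_lt Φ hΦ π (Finset.ne_of_mem_erase hπ)
    rw [map_mul, sign_one, one_mul, map_prod, ← Finset.mul_prod_erase Finset.univ _ (Finset.mem_univ j)]
    calc v (P (π j) j) * ∏ x ∈ Finset.univ.erase j, v (P (π x) x) ≤ v (P (π j) j) * 1 := by
          refine mul_le_mul_of_nonneg_left ?_ (v.nonneg _)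
          exact Finset.prod_le_one (fun i _ => v.nonneg _) fun i _ => h1 _ _
      _ < 1 := by
          rw [mul_one]
          exact h3 _ _ hj
  have htl : v t < 1 := by
    rcases (Finset.univ.erase (1 : Equiv.Perm B)).eq_empty_or_nonempty with h | h
    · rw [ht, h, Finset.sum_empty, map_zero]
      exact one_pos
    · obtain ⟨π, hπ, hle⟩ := hv.finset_image_add_of_nonempty
        (fun π : Equiv.Perm B => (((Equiv.Perm.sign π : ℤˣ) : ℤ) : E) * ∏ i, P (π i) i) h
      exact lt_of_le_of_lt hle (hterm π hπ)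
  have h5 := hv.add_eq_max_of_ne (x := (((Equiv.Perm.sign (1 : Equiv.Perm B) : ℤˣ) : ℤ) : E) *
    ∏ i, P ((1 : Equiv.Perm B) i) i) (y := t) (by rw [hd]; exact htl.ne')
  rw [h5, hd, max_eq_left htl.le]

theorem det_le {B : Type} [Fintype B] [DecidableEq B] {E : Type} [Field E] (v : AbsoluteValue E ℝ)
    (hv : IsNonarchimedean v) (A : Matrix B B E) (h : B → ℝ) (q : ℝ) (T : Finset B)
    (hA : ∀ i j, v (A i j) ≤ h i) (hT : ∀ i, ∀ j ∈ T, v (A i j) ≤ q * h i) :
    v A.det ≤ q ^ T.card * ∏ i, h i := by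
  classical
  rw [Matrix.det_apply']
  obtain ⟨π, -, hle⟩ := hv.finset_image_add_of_nonempty
    (fun π : Equiv.Perm B => (((Equiv.Perm.sign π : ℤˣ) : ℤ) : E) * ∏ i, A (π i) i)
    (Finset.univ_nonempty (α := Equiv.Perm B))
  refine hle.trans ?_
  rw [map_mul, sign_one, one_mul, map_prod]
  have h1 : ∏ i, v (A (π i) i) ≤ ∏ i, ((if i ∈ T then q else 1) * h (π i)) := by
    refine Finset.prod_le_prod (fun i _ => v.nonneg _) fun i _ => ?_
    split_ifs with hi
    · exact hT _ _ hi
    · rw [one_mul]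
      exact hA _ _
  refine h1.trans (le_of_eq ?_)
  rw [Finset.prod_mul_distrib, Equiv.prod_comp π h]
  congr 1
  rw [Finset.prod_ite_mem, Finset.univ_inter, Finset.prod_const]

/-- the value of the monomial -/
def mn {E : Type} [Field E] {k M : ℕ} (m : Bx k M) (y : Fin k → E) : E := ∏ l, y l ^ (m l : ℕ)

private theorem phi_eq {k M : ℕ} (m : Bx k M) :
    ((finFunctionFinEquiv m : Fin ((M + 1) ^ k)) : ℕ) = ∑ l : Fin k, (m l : ℕ) * (M + 1) ^ (l : ℕ) :=
  finFunctionFinEquiv_apply m

/-- extension by zero -/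
noncomputable def ext0 {E : Type} [Field E] {k D : ℕ} (a : Bx k D → E) (z : Fin k → ℤ) : E :=
  open Classical in
  if h : ∀ l, 0 ≤ z l ∧ z l ≤ (D : ℤ) then a fun l => ⟨(z l).toNat, by
    have := h l
    omega⟩ else 0

private theorem ext0_val {E : Type} [Field E] {k D : ℕ} (a : Bx k D → E) (m : Bx k D) (z : Fin k → ℤ)
    (h : ∀ l, z l = ((m l : ℕ) : ℤ)) : ext0 a z = a m := by
  unfold ext0
  rw [dif_pos (fun l => by
    have h1 := (m l).2
    have h2 := h l
    omega)]
  congr 1
  funext l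
  apply Fin.ext
  simp only
  rw [h l]
  omega

private theorem ext0_cases {E : Type} [Field E] {k D : ℕ} (a : Bx k D → E) (z : Fin k → ℤ) :
    ext0 a z = 0 ∨ ∃ m : Bx k D, (∀ l, z l = ((m l : ℕ) : ℤ)) ∧ ext0 a z = a m := by
  by_cases h : ∀ l, 0 ≤ z l ∧ z l ≤ (D : ℤ)
  · right
    have h1 : ∀ l, (z l).toNat < D + 1 := fun l => by
      have := h l
      omega
    have h2 : ∀ l, z l = (((⟨(z l).toNat, h1 l⟩ : Fin (D + 1)) : ℕ) : ℤ) := fun l => by
      have := h l
      simp only
      omega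
    exact ⟨fun l => ⟨(z l).toNat, h1 l⟩, h2, ext0_val a _ z h2⟩
  · left
    unfold ext0
    rw [dif_neg h]

/-- the shift -/
def shf {k A B M : ℕ} (h : A + B ≤ M) (m : Bx k A) (μ : Bx k B) : Bx k M := fun l =>
  ⟨(m l : ℕ) + (μ l : ℕ), by
    have h1 := (m l).2
    have h2 := (μ l).2
    omega⟩

private theorem mn_shf {E : Type} [Field E] {k A B M : ℕ} (h : A + B ≤ M) (m : Bx k A) (μ : Bx k B)
    (y : Fin k → E) : mn (shf h m μ) y = mn m y * mn μ y := by
  unfold mn
  rw [← Finset.prod_mul_distrib]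
  refine Finset.prod_congr rfl fun l _ => ?_
  rw [← pow_add]
  rfl

theorem loc_det {E : Type} [Field E] (v : AbsoluteValue E ℝ) (hv : IsNonarchimedean v)
    (p : ℕ) (hp : p.Prime) (hp2 : p ≠ 2) {k D M : ℕ} (hDM : D ≤ M) (a : Bx k D → E) (ha : a ≠ 0)
    (y : Bx k M → Fin k → E) (hy : ∀ i, ∑ m, a m * mn m (y i) = 0) :
    v (Matrix.det (Matrix.of fun i m : Bx k M => mn m (y i) ^ p)) ≤
      v (p : E) ^ ((M - D + 1) ^ k) * ∏ i, ∏ l, (max 1 (v (y i l))) ^ (p * M) := by
  classical
  -- the entry of largest absolute value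
  obtain ⟨m₁, -, hm₁⟩ := Finset.exists_max_image (Finset.univ : Finset (Bx k D)) (fun m => v (a m))
    Finset.univ_nonempty
  have hm₁' : ∀ m, v (a m) ≤ v (a m₁) := fun m => hm₁ m (Finset.mem_univ m)
  have ha₁ : a m₁ ≠ 0 := by
    intro h0
    apply ha
    funext m
    have h1 := hm₁' m
    rw [h0, map_zero] at h1
    exact v.eq_zero.1 (le_antisymm h1 (v.nonneg _))
  have hva : 0 < v (a m₁) := v.pos ha₁
  obtain ⟨a', ha'⟩ : ∃ a' : Bx k D → E, a' = fun m => a m / a m₁ := ⟨_, rfl⟩
  have ha'1 : ∀ m, v (a' m) ≤ 1 := by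
    intro m
    rw [ha', map_div₀, div_le_one hva]
    exact hm₁' m
  have ha'm₁ : v (a' m₁) = 1 := by
    rw [ha']
    change v (a m₁ / a m₁) = 1
    rw [div_self ha₁, map_one]
  have hy' : ∀ i, ∑ m, a' m * mn m (y i) = 0 := by
    intro i
    have h1 : ∑ m, a' m * mn m (y i) = (∑ m, a m * mn m (y i)) / a m₁ := by
      rw [Finset.sum_div]
      refine Finset.sum_congr rfl fun m _ => ?_
      rw [ha']
      ring
    rw [h1, hy, zero_div]
  -- the index of the largest weight
  obtain ⟨Ψ, hΨ⟩ : ∃ Ψ : Bx k D → ℤ, Ψ = fun m => ∑ l : Fin k, ((m l : ℕ) : ℤ) * ((M : ℤ) + 1) ^ (l : ℕ) :=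
    ⟨_, rfl⟩
  obtain ⟨m₀, hm₀, hmax⟩ := Finset.exists_max_image
    ((Finset.univ : Finset (Bx k D)).filter (fun m => v (a' m) = 1)) Ψ
    ⟨m₁, Finset.mem_filter.2 ⟨Finset.mem_univ _, ha'm₁⟩⟩
  have hm₀1 : v (a' m₀) = 1 := (Finset.mem_filter.1 hm₀).2
  have hlt : ∀ m, Ψ m₀ < Ψ m → v (a' m) < 1 := by
    intro m hm
    refine lt_of_le_of_ne (ha'1 m) fun h => ?_
    exact absurd (hmax m (Finset.mem_filter.2 ⟨Finset.mem_univ _, h⟩)) (not_le.2 hm)
  -- the set of the columns
  have hDM' : D + (M - D) ≤ M := by omega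
  obtain ⟨sh, hsh⟩ : ∃ sh : Bx k (M - D) → Bx k M, sh = shf hDM' m₀ := ⟨_, rfl⟩
  have hshv : ∀ μ l, ((sh μ l : Fin (M + 1)) : ℕ) = (m₀ l : ℕ) + (μ l : ℕ) := by
    intro μ l
    rw [hsh]
    rfl
  have hshi : Function.Injective sh := by
    intro μ ν h
    funext l
    apply Fin.ext
    have h1 := congrArg (fun f : Bx k M => ((f l : Fin (M + 1)) : ℕ)) h
    simp only [hshv] at h1
    omega
  obtain ⟨T, hT⟩ : ∃ T : Finset (Bx k M), T = Finset.univ.image sh := ⟨_, rfl⟩
  have hTc : T.card = (M - D + 1) ^ k := by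
    rw [hT, Finset.card_image_of_injective _ hshi, Finset.card_univ, Fintype.card_fun, Fintype.card_fin,
      Fintype.card_fin]
  -- the matrix of the column operations
  obtain ⟨P, hP⟩ : ∃ P : Matrix (Bx k M) (Bx k M) E, P = Matrix.of fun m' m =>
      if m ∈ T then ext0 a' (fun l => ((m' l : ℕ) : ℤ) - (m l : ℕ) + (m₀ l : ℕ)) ^ p
      else if m' = m then 1 else 0 := ⟨_, rfl⟩
  have hQ1 : ∀ z, v (ext0 a' z ^ p) ≤ 1 := by
    intro z
    rw [map_pow]
    refine pow_le_one₀ (v.nonneg _) ?_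
    rcases ext0_cases a' z with h | ⟨m, -, h⟩
    · rw [h, map_zero]
      exact zero_le_one
    · rw [h]
      exact ha'1 m
  have hPdet : v P.det = 1 := by
    refine unimod v hv (fun m => ((finFunctionFinEquiv m : Fin ((M + 1) ^ k)) : ℕ))
      (fun m m' h => finFunctionFinEquiv.injective (Fin.ext h)) P ?_ ?_ ?_
    · intro i j
      rw [hP, Matrix.of_apply]
      split_ifs
      · exact hQ1 _
      · rw [map_one]
      · rw [map_zero]
        exact zero_le_one
    · intro j
      rw [hP, Matrix.of_apply, if_pos rfl]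
      split_ifs
      · rw [ext0_val a' m₀ _ (fun l => by ring), map_pow, hm₀1, one_pow]
      · exact map_one v
    · intro i j hij
      rw [hP, Matrix.of_apply]
      split_ifs with h1 h2
      · rcases ext0_cases a' (fun l => ((i l : ℕ) : ℤ) - (j l : ℕ) + (m₀ l : ℕ)) with h | ⟨m, h4, h⟩
        · rw [h, zero_pow hp.ne_zero, map_zero]
          exact one_pos
        · rw [h, map_pow]
          refine pow_lt_one₀ (v.nonneg _) (hlt _ ?_) hp.ne_zero
          rw [phi_eq, phi_eq] at hij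
          rw [hΨ]
          simp only
          simp only [← h4]
          have h5 : (∑ l : Fin k, ((j l : ℕ) : ℤ) * ((M : ℤ) + 1) ^ (l : ℕ)) <
              ∑ l : Fin k, ((i l : ℕ) : ℤ) * ((M : ℤ) + 1) ^ (l : ℕ) := by
            exact_mod_cast hij
          have h6 : ∑ l : Fin k, (((i l : ℕ) : ℤ) - (j l : ℕ) + (m₀ l : ℕ)) * ((M : ℤ) + 1) ^ (l : ℕ) =
              ∑ l : Fin k, ((i l : ℕ) : ℤ) * ((M : ℤ) + 1) ^ (l : ℕ) -
              ∑ l : Fin k, ((j l : ℕ) : ℤ) * ((M : ℤ) + 1) ^ (l : ℕ) +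
              ∑ l : Fin k, ((m₀ l : ℕ) : ℤ) * ((M : ℤ) + 1) ^ (l : ℕ) := by
            rw [← Finset.sum_sub_distrib, ← Finset.sum_add_distrib]
            refine Finset.sum_congr rfl fun l _ => ?_
            ring
          rw [h6]
          linarith
      · exfalso
        rw [h2] at hij
        exact lt_irrefl _ hij
      · rw [map_zero]
        exact one_pos
  -- the new matrix
  obtain ⟨Y, hY⟩ : ∃ Y : Matrix (Bx k M) (Bx k M) E, Y = Matrix.of fun i m : Bx k M => mn m (y i) ^ p :=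
    ⟨_, rfl⟩
  obtain ⟨H, hH⟩ : ∃ H : Bx k M → ℝ, H = fun i => ∏ l, (max 1 (v (y i l))) ^ (p * M) := ⟨_, rfl⟩
  have hone : ∀ i l, (1 : ℝ) ≤ max 1 (v (y i l)) := fun i l => le_max_left _ _
  have hYH : ∀ i m, v (Y i m) ≤ H i := by
    intro i m
    rw [hY, Matrix.of_apply, hH, map_pow]
    unfold mn
    rw [map_prod, ← Finset.prod_pow]
    refine Finset.prod_le_prod (fun l _ => pow_nonneg (v.nonneg _) _) fun l _ => ?_
    rw [map_pow, ← pow_mul]
    calc v (y i l) ^ ((m l : ℕ) * p) ≤ (max 1 (v (y i l))) ^ ((m l : ℕ) * p) :=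
          pow_le_pow_left₀ (v.nonneg _) (le_max_right _ _) _
      _ ≤ (max 1 (v (y i l))) ^ (p * M) := by
          refine pow_le_pow_right₀ (hone i l) ?_
          have := (m l).2
          rw [mul_comm]
          exact Nat.mul_le_mul_left _ (by omega)
  have hdet : v Y.det = v (Y * P).det := by
    rw [Matrix.det_mul, map_mul, hPdet, mul_one]
  rw [← hY, hdet, ← hTc]
  have hgoal := det_le v hv (Y * P) H (v (p : E)) T ?_ ?_
  · rw [hH] at hgoal
    exact hgoal
  · -- all entries
    intro i m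
    by_cases hm : m ∈ T
    · rw [Matrix.mul_apply]
      obtain ⟨m', -, hle⟩ := hv.finset_image_add_of_nonempty
        (fun m' : Bx k M => Y i m' * P m' m) (Finset.univ_nonempty (α := Bx k M))
      refine hle.trans ?_
      rw [map_mul]
      calc v (Y i m') * v (P m' m) ≤ H i * 1 := by
            refine mul_le_mul (hYH i m') ?_ (v.nonneg _) ((v.nonneg _).trans (hYH i m'))
            rw [hP, Matrix.of_apply, if_pos hm]
            exact hQ1 _
        _ = H i := mul_one _
    · have h1 : (Y * P) i m = Y i m := by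
        rw [Matrix.mul_apply, Finset.sum_eq_single m]
        · rw [hP, Matrix.of_apply, if_neg hm, if_pos rfl, mul_one]
        · intro m' _ hne
          rw [hP, Matrix.of_apply, if_neg hm, if_neg hne, mul_zero]
        · intro h
          exact absurd (Finset.mem_univ m) h
      rw [h1]
      exact hYH i m
  · -- the entries of the new columns
    intro i m hm
    rw [hT, Finset.mem_image] at hm
    obtain ⟨μ, -, rfl⟩ := hm
    have hmT : sh μ ∈ T := by
      rw [hT]
      exact Finset.mem_image_of_mem _ (Finset.mem_univ μ)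
    rw [Matrix.mul_apply]
    have hDM2 : D + (M - D) ≤ M := hDM'
    have h1 : ∑ z : Bx k D, a' z ^ p * (mn z (y i) * mn μ (y i)) ^ p = ∑ m', Y i m' * P m' (sh μ) := by
      refine Finset.sum_of_injOn (fun z => shf hDM' z μ) ?_ ?_ ?_ ?_
      · intro z _ z' _ h
        funext l
        apply Fin.ext
        have h2 := congrArg (fun f : Bx k M => ((f l : Fin (M + 1)) : ℕ)) h
        change (z l : ℕ) + (μ l : ℕ) = (z' l : ℕ) + (μ l : ℕ) at h2
        omega
      · intro z _
        exact Finset.mem_coe.2 (Finset.mem_univ _)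
      · intro m' _ hm'
        rw [hP, Matrix.of_apply, if_pos hmT]
        rcases ext0_cases a' (fun l => ((m' l : ℕ) : ℤ) - (sh μ l : ℕ) + (m₀ l : ℕ)) with h | ⟨z, h4, h⟩
        · rw [h, zero_pow hp.ne_zero, mul_zero]
        · exfalso
          apply hm'
          refine ⟨z, Finset.mem_coe.2 (Finset.mem_univ _), ?_⟩
          funext l
          apply Fin.ext
          change (z l : ℕ) + (μ l : ℕ) = (m' l : ℕ)
          have h5 := h4 l
          have h6 := hshv μ l
          omega
      · intro z _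
        rw [hP, Matrix.of_apply, if_pos hmT, hY, Matrix.of_apply]
        rw [ext0_val a' z _ (fun l => by
          rw [hshv]
          change (((z l : ℕ) + (μ l : ℕ) : ℕ) : ℤ) - _ + _ = _
          push_cast
          ring), mn_shf, mul_comm]
    rw [← h1]
    have h2 : ∑ z : Bx k D, a' z ^ p * (mn z (y i) * mn μ (y i)) ^ p =
        (∑ z ∈ (Finset.univ : Finset (Bx k D)), ((1 : ℤ) : E) * (a' z * mn z (y i)) ^ p) * mn μ (y i) ^ p := by
      rw [Finset.sum_mul]
      refine Finset.sum_congr rfl fun z _ => ?_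
      rw [Int.cast_one, one_mul, mul_pow, mul_pow]
      ring
    rw [h2, map_mul]
    have h3 := Pool.Agent.H92.SR.loc_pow v hv p hp hp2 (Finset.univ : Finset (Bx k D)) (fun _ => (1 : ℤ))
      (fun _ => Or.inr (Or.inl rfl)) (fun z => a' z * mn z (y i))
      (∏ l, (max 1 (v (y i l))) ^ D) (Finset.prod_nonneg fun l _ =>
        pow_nonneg (zero_le_one.trans (hone i l)) _) (fun z _ => by
        rw [map_mul]
        calc v (a' z) * v (mn z (y i)) ≤ 1 * ∏ l, (max 1 (v (y i l))) ^ D := by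
              refine mul_le_mul (ha'1 z) ?_ (v.nonneg _) zero_le_one
              unfold mn
              rw [map_prod]
              refine Finset.prod_le_prod (fun l _ => v.nonneg _) fun l _ => ?_
              rw [map_pow]
              calc v (y i l) ^ (z l : ℕ) ≤ (max 1 (v (y i l))) ^ (z l : ℕ) :=
                    pow_le_pow_left₀ (v.nonneg _) (le_max_right _ _) _
                _ ≤ (max 1 (v (y i l))) ^ D :=
                    pow_le_pow_right₀ (hone i l) (by have := (z l).2; omega)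
          _ = _ := one_mul _) (by
        simp only [Int.cast_one, one_mul]
        exact hy' i)
    have h4 : v (mn μ (y i) ^ p) ≤ ∏ l, (max 1 (v (y i l))) ^ (p * (M - D)) := by
      rw [map_pow]
      unfold mn
      rw [map_prod, ← Finset.prod_pow]
      refine Finset.prod_le_prod (fun l _ => pow_nonneg (v.nonneg _) _) fun l _ => ?_
      rw [map_pow, ← pow_mul]
      calc v (y i l) ^ ((μ l : ℕ) * p) ≤ (max 1 (v (y i l))) ^ ((μ l : ℕ) * p) :=
            pow_le_pow_left₀ (v.nonneg _) (le_max_right _ _) _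
        _ ≤ (max 1 (v (y i l))) ^ (p * (M - D)) := by
            refine pow_le_pow_right₀ (hone i l) ?_
            have := (μ l).2
            rw [mul_comm]
            exact Nat.mul_le_mul_left _ (by omega)
    have h5 : v (p : E) * (∏ l, (max 1 (v (y i l))) ^ D) ^ p * (∏ l, (max 1 (v (y i l))) ^ (p * (M - D))) =
        v (p : E) * H i := by
      rw [hH, mul_assoc, ← Finset.prod_pow, ← Finset.prod_mul_distrib]
      congr 1
      refine Finset.prod_congr rfl fun l _ => ?_
      rw [← pow_mul, ← pow_add]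
      congr 1
      rw [mul_comm D p, ← mul_add]
      congr 1
      omega
    rw [← h5]
    exact mul_le_mul h3 h4 (v.nonneg _) (mul_nonneg (v.nonneg _) (pow_nonneg (Finset.prod_nonneg fun l _ =>
        pow_nonneg (zero_le_one.trans (hone i l)) _) _))

end Pool.Agent.H33.TR
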