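import Pool.Agent.H33.TR.Loc
import Pool.Agent.H72.RM.Defs

/-!
# TRANSFER THEOREM, Ker: relations with coefficients in `L`

* `rel_of_det`: if all square matrices with rows in `S` are singular, there is a nonzero relation satisfied by all
  elements of `S`.
* `rel_descent`: if `S` is stable under the automorphisms over `L`, there is such a relation with coefficients in `L`
  (minimal support, one coordinate `1`).
-/

set_option autoImplicit false
set_option linter.unusedSectionVars false

open NumberField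

namespace Pool.Agent.H33.TR

theorem rel_of_det {Ω : Type} [Field Ω] {B : Type} [Fintype B] [DecidableEq B] (S : Set (B → Ω))
    (h : ∀ y : B → B → Ω, (∀ i, y i ∈ S) → Matrix.det (Matrix.of y) = 0) :
    ∃ g : B → Ω, g ≠ 0 ∧ ∀ s ∈ S, ∑ m, g m * s m = 0 := by
  classical
  by_cases hS : Submodule.span Ω S = ⊤
  · exfalso
    obtain ⟨b, hbS, hbspan, hbli⟩ := exists_linearIndependent Ω S
    have hb : Submodule.span Ω b = ⊤ := by rw [hbspan, hS]
    let bas : Module.Basis b Ω (B → Ω) := Module.Basis.mk hbli (by rw [Subtype.range_coe_subtype, Set.ofPred_mem_eq, hb])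
    have hfin : Finite b := Module.Finite.finite_basis bas
    have := Fintype.ofFinite b
    have hcard : Fintype.card b = Fintype.card B := by
      have h1 := Module.finrank_eq_card_basis bas
      rw [Module.finrank_fintype_fun_eq_card] at h1
      exact h1.symm
    let e : B ≃ b := (Fintype.equivOfCardEq hcard).symm
    have h1 := h (fun i => (e i : B → Ω)) (fun i => hbS (e i).2)
    have h2 : LinearIndependent Ω (fun i => (e i : B → Ω)) := hbli.comp e e.injective
    have h3 : IsUnit (Matrix.of fun i => (e i : B → Ω)) := by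
      rw [← Matrix.linearIndependent_rows_iff_isUnit]
      exact h2
    rw [Matrix.isUnit_iff_isUnit_det, h1] at h3
    exact not_isUnit_zero h3
  · obtain ⟨f, hf0, hf⟩ := Submodule.exists_le_ker_of_lt_top _ (lt_top_iff_ne_top.2 hS)
    have hfs : ∀ s : B → Ω, f s = ∑ m, f (Pi.single m 1) * s m := by
      intro s
      conv_lhs => rw [← Finset.univ_sum_single s]
      rw [map_sum]
      refine Finset.sum_congr rfl fun m _ => ?_
      have h1 : (Pi.single m (s m) : B → Ω) = s m • Pi.single m 1 := by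
        rw [← Pi.single_smul, smul_eq_mul, mul_one]
      rw [h1, map_smul, smul_eq_mul, mul_comm]
    refine ⟨fun m => f (Pi.single m 1), ?_, ?_⟩
    · intro h0
      apply hf0
      ext s
      rw [LinearMap.comp_apply, hfs]
      have h1 : ∀ m, f (Pi.single m 1) = 0 := fun m => congrFun h0 m
      simp [h1]
    · intro s hs
      rw [← hfs]
      exact hf (Submodule.subset_span hs)

variable {K Ω : Type} [Field K] [Field Ω] [Algebra K Ω] [IsGalois K Ω]

theorem rel_descent (L : IntermediateField K Ω) {B : Type} [Fintype B] [DecidableEq B] (S : Set (B → Ω))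
    (hS : ∀ σ : Ω ≃ₐ[K] Ω, (∀ z ∈ L, σ z = z) → ∀ s ∈ S, (fun m => σ (s m)) ∈ S)
    (h : ∃ g : B → Ω, g ≠ 0 ∧ ∀ s ∈ S, ∑ m, g m * s m = 0) :
    ∃ g : B → L, g ≠ 0 ∧ ∀ s ∈ S, ∑ m, (g m : Ω) * s m = 0 := by
  classical
  -- minimal support
  have hex : ∃ n : ℕ, ∃ g : B → Ω, g ≠ 0 ∧ (∀ s ∈ S, ∑ m, g m * s m = 0) ∧
      (Finset.univ.filter fun m => g m ≠ 0).card = n := by
    obtain ⟨g, h1, h2⟩ := h
    exact ⟨_, g, h1, h2, rfl⟩
  obtain ⟨g, hg0, hgS, hgn⟩ := Nat.find_spec hex
  have hmin := fun n hn => Nat.find_min hex (m := n) hn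
  rw [← hgn] at hmin
  obtain ⟨m₀, hm₀⟩ : ∃ m₀, g m₀ ≠ 0 := by
    by_contra hcon
    push Not at hcon
    exact hg0 (funext hcon)
  obtain ⟨g', hg'⟩ : ∃ g' : B → Ω, g' = fun m => g m / g m₀ := ⟨_, rfl⟩
  have hg'1 : g' m₀ = 1 := by
    rw [hg']
    exact div_self hm₀
  have hg'S : ∀ s ∈ S, ∑ m, g' m * s m = 0 := by
    intro s hs
    have h1 : ∑ m, g' m * s m = (∑ m, g m * s m) / g m₀ := by
      rw [Finset.sum_div]
      refine Finset.sum_congr rfl fun m _ => ?_
      rw [hg']
      ring
    rw [h1, hgS s hs, zero_div]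
  have hfix : ∀ σ : Ω ≃ₐ[K] Ω, (∀ z ∈ L, σ z = z) → ∀ m, σ (g' m) = g' m := by
    intro σ hσ
    have hσsymm : ∀ z ∈ L, σ.symm z = z := by
      intro z hz
      rw [AlgEquiv.symm_apply_eq]
      exact (hσ z hz).symm
    by_contra hcon
    push Not at hcon
    obtain ⟨m₁, hm₁⟩ := hcon
    refine hmin (Finset.univ.filter fun m => σ (g' m) - g' m ≠ 0).card ?_
      ⟨fun m => σ (g' m) - g' m, ?_, ?_, rfl⟩
    · apply Finset.card_lt_card
      refine ⟨?_, ?_⟩
      · intro m hm
        rw [Finset.mem_filter] at hm ⊢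
        refine ⟨Finset.mem_univ _, fun h0 => hm.2 ?_⟩
        have h1 : g' m = 0 := by
          rw [hg']
          simp only
          rw [h0, zero_div]
        rw [h1, map_zero, sub_zero]
      · intro hsub
        have h1 := hsub (Finset.mem_filter.2 ⟨Finset.mem_univ m₀, hm₀⟩)
        rw [Finset.mem_filter, hg'1, map_one, sub_self] at h1
        exact h1.2 rfl
    · intro h0
      exact hm₁ (sub_eq_zero.1 (congrFun h0 m₁))
    · intro s hs
      have h1 : ∑ m, (σ (g' m) - g' m) * s m = σ (∑ m, g' m * σ.symm (s m)) - ∑ m, g' m * s m := by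
        rw [map_sum, ← Finset.sum_sub_distrib]
        refine Finset.sum_congr rfl fun m _ => ?_
        rw [map_mul, AlgEquiv.apply_symm_apply]
        ring
      rw [h1, hg'S s hs, sub_zero, hg'S _ (hS σ.symm hσsymm s hs), map_zero]
  have hL : ∀ m, g' m ∈ L := fun m => Pool.Agent.H72.RM.mem_of_fixed L _ fun σ hσ => hfix σ hσ m
  refine ⟨fun m => ⟨g' m, hL m⟩, ?_, fun s hs => hg'S s hs⟩
  intro h0
  have h1 := congrArg (fun z : L => (z : Ω)) (congrFun h0 m₀)
  simp only [Pi.zero_apply, ZeroMemClass.coe_zero] at h1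
  rw [hg'1] at h1
  exact one_ne_zero h1

end Pool.Agent.H33.TR
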