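import Pool.Agent.H33.TR.Ind
import Pool.Agent.H11.TH.FinB

/-!
# TRANSFER THEOREM: polynomial lower bounds for points give polynomial lower bounds for all subvarieties

`K` a number field, `Ω` an algebraic closure, `L` any field between them, `Λ` a subgroup of `Ωˣ`, `Γ ⊂ G_m^n(Ω)` a subgroup which
contains all points with coordinates in `Λ`. Suppose `h(γ) ≥ c₁ (deg_L γ)^(-C₁)` for all `γ` having no power in `Λ`. Then

* `tr_A`: `V` irreducible and `Γ`-transverse, `F ≠ 0` with coefficients in `L`, of degree at most `D` in each variable,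
  `F = 0` on `V`, the points of height at most `θ` dense in `V`: `κ min(1, c₁) ≤ D^C θ`, with `C`, `κ` depending only on `n`, `C₁`.
* `tr_B`: if `V` lies in a closed set `Z ≠ G_m^n` over `L`, of pure dimension `d'` and degree `δ`,
  `δ^(1/(n-d')) = ω`: `κ min(1, c₁) ≤ ω^C θ`. So `μ_ess(V) ≥ κ min(1, c₁) ω_L(V)^(-C)`, for instance for `L = K(Γ)`.
-/

set_option autoImplicit false
set_option linter.unusedSectionVars false

open MvPolynomial NumberField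

namespace Pool.Agent.H33.TR

open Pool.Agent.H72.PB Pool.Agent.H11.TH

variable {K Ω : Type} [Field K] [NumberField K] [Field Ω] [CharZero Ω] [IsAlgClosed Ω]
  [Algebra K Ω] [IsGalois K Ω]

variable (K) in
/-- the transfer with explicit constants -/
theorem tr_A (n C₁ : ℕ) (c₁ : ℝ) (Λ : Subgroup Ωˣ) (L : IntermediateField K Ω)
    (hL : ∀ γ : Ωˣ, (∀ m : ℕ, 1 ≤ m → γ ^ m ∉ Λ) →
      c₁ ≤ (dg L (γ : Ω) : ℝ) ^ C₁ * absLogHeight₁ (γ : Ω)) (Γ : Subgroup (Tor Ω n))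
    (hΓ : ∀ x : Tor Ω n, (∀ l, x l ∈ Λ) → x ∈ Γ)
    (V : Set (Tor Ω n)) (hV : (idl V).IsPrime) (htr : Transv K Γ V)
    (D : ℕ) (hD : 1 ≤ D) (F : MvPolynomial (Fin n) L) (hF0 : F ≠ 0) (hFD : ∀ i, F.degreeOf i ≤ D)
    (hF : map (algebraMap L Ω) F ∈ idl V)
    (θ : ℝ) (hθ : idl {x | x ∈ V ∧ ht x ≤ θ} ≤ idl V) :
    min 1 c₁ / ((cst n : ℝ) + 1) ^ (C₁ + 1) ≤ (D : ℝ) ^ (cst n * (C₁ + 1)) * θ := by
  classical
  have hC₀ := prop_T K Ω n
  obtain ⟨C₀, hCC⟩ : ∃ C₀ : ℕ, C₀ = cst n := ⟨_, rfl⟩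
  rw [← hCC] at hC₀ ⊢
  have hpos : (0 : ℝ) < ((C₀ : ℝ) + 1) ^ (C₁ + 1) := by positivity
  obtain ⟨X, hX⟩ : ∃ X : Set (Tor Ω n), X = {x | x ∈ V ∧ ht x ≤ θ} := ⟨_, rfl⟩
  rw [← hX] at hθ
  have hXV : X ⊆ V := by
    rw [hX]
    exact fun x hx => hx.1
  have hidl : idl X = idl V := by
    refine le_antisymm hθ fun f hf => ?_
    rw [mem_idl] at hf ⊢
    exact fun x hx => hf x (hXV hx)
  have hXp : (idl X).IsPrime := by
    rw [hidl]
    exact hV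
  obtain ⟨x₁, hx₁⟩ := prime_nonempty hXp
  have hxθ : ∀ x ∈ X, ht x ≤ θ := by
    rw [hX]
    exact fun x hx => hx.2
  have hθ0 : 0 ≤ θ := by
    refine le_trans ?_ (hxθ x₁ hx₁)
    unfold ht
    exact Finset.sum_nonneg fun l _ => ht_nonneg _
  have hD1 : (1 : ℝ) ≤ D := by exact_mod_cast hD
  obtain ⟨E, hE⟩ : ∃ E : ℝ, E = ((C₀ : ℝ) + 1) * (D : ℝ) ^ C₀ := ⟨_, rfl⟩
  have hE1 : 1 ≤ E := by
    rw [hE]
    have h1 : (1 : ℝ) ≤ (C₀ : ℝ) + 1 := by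
      have : (0 : ℝ) ≤ C₀ := Nat.cast_nonneg _
      linarith
    have h2 : (1 : ℝ) ≤ (D : ℝ) ^ C₀ := one_le_pow₀ hD1
    nlinarith
  have hCE : ((C₀ * D ^ C₀ : ℕ) : ℝ) ≤ E := by
    rw [hE]
    push_cast
    exact mul_le_mul_of_nonneg_right (by linarith) (by positivity)
  have key : min 1 c₁ ≤ E ^ (C₁ + 1) * θ := by
    by_cases hcase : ((C₀ * D ^ C₀ : ℕ) : ℝ) * θ ≤ 1
    · obtain ⟨e, γ, he0, heD, heX, heL⟩ := hC₀ L X hXp D hD F hF0 hFD (by rw [hidl]; exact hF) θ hxθ hcase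
      have heV : ∀ x ∈ V, ch e x = γ := by
        obtain ⟨i, -, h⟩ := irr_cover hV (le_of_eq hidl) ({()} : Finset Unit) (fun _ => e) (fun _ => γ)
          (fun x hx => ⟨(), Finset.mem_singleton_self _, heX x hx⟩)
        exact h
      have hsat := not_sat (K := K) Λ Γ hΓ V hV htr e he0 γ heV
      have h2 := hL γ hsat
      have h3 : absLogHeight₁ (γ : Ω) ≤ E * θ := by
        rw [← heX x₁ hx₁]
        refine (ht_ch (K := K) e x₁ E ?_).trans (mul_le_mul_of_nonneg_left (hxθ x₁ hx₁) (by linarith))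
        intro l
        have h4 : ((|e l| : ℤ) : ℝ) ≤ ((C₀ * D ^ C₀ : ℕ) : ℝ) := by exact_mod_cast heD l
        rw [Int.cast_abs] at h4
        exact h4.trans hCE
      have h4 : (dg L (γ : Ω) : ℝ) ^ C₁ ≤ E ^ C₁ := by
        refine pow_le_pow_left₀ (Nat.cast_nonneg _) ?_ _
        have : (dg L (γ : Ω) : ℝ) ≤ ((C₀ * D ^ C₀ : ℕ) : ℝ) := by exact_mod_cast heL
        exact this.trans hCE
      calc min 1 c₁ ≤ c₁ := min_le_right _ _
        _ ≤ (dg L (γ : Ω) : ℝ) ^ C₁ * absLogHeight₁ (γ : Ω) := h2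
        _ ≤ E ^ C₁ * (E * θ) := mul_le_mul h4 h3 (ht_nonneg _) (by positivity)
        _ = E ^ (C₁ + 1) * θ := by rw [pow_succ]; ring
    · push Not at hcase
      calc min 1 c₁ ≤ 1 := min_le_left _ _
        _ ≤ E * θ := hcase.le.trans (mul_le_mul_of_nonneg_right hCE hθ0)
        _ ≤ E ^ (C₁ + 1) * θ := by
            refine mul_le_mul_of_nonneg_right ?_ hθ0
            exact le_self_pow₀ hE1 (Nat.succ_ne_zero _)
  rw [div_le_iff₀ hpos]
  calc min 1 c₁ ≤ E ^ (C₁ + 1) * θ := key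
    _ = (D : ℝ) ^ (C₀ * (C₁ + 1)) * θ * ((C₀ : ℝ) + 1) ^ (C₁ + 1) := by
        rw [hE, mul_pow, ← pow_mul]
        ring

/-- a polynomial with coefficients in `L` vanishing on `Z` -/
theorem poly_of_Z {n : ℕ} (L : IntermediateField K Ω)
    (Z : Set (Tor Ω n)) (d' : ℕ) (δ ω : ℝ) (hZ : ClosedOver L Z) (hZne : Z ≠ Set.univ)
    (hZd : Equidim Z d') (hZδ : HasDeg Z d' δ) (hω : δ ^ (1 / ((n : ℝ) - d')) ≤ ω) :
    1 ≤ ω ∧ ∃ (D : ℕ) (F : MvPolynomial (Fin n) L), 1 ≤ D ∧ (D : ℝ) ≤ ω ^ n ∧ F ≠ 0 ∧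
      (∀ i, F.degreeOf i ≤ D) ∧ map (algebraMap L Ω) F ∈ idl Z := by
  classical
  have hn : d' + 1 ≤ n := dim_lt L Z hZ hZne d' hZd
  obtain ⟨G, D', hG0, hGZ, hD'1, hGD', c, hc⟩ := components Z d' hZd (idl_ne_bot _ Z hZ hZne)
  have hasy := asy (d' + 1) d' 1 D' c le_rfl (by rw [one_mul]; exact hD'1)
    (fun m => Module.finrank Ω (secs Z m)) (fun m hm => by
      rw [one_mul, Nat.add_sub_cancel]
      exact hc m hm) δ hZδ
  have hD'δ : (D' : ℝ) ≤ δ := by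
    have h1 := hasy.2
    rw [one_mul] at h1
    exact h1
  have hδ1 : 1 ≤ δ := le_trans (by exact_mod_cast hD'1) hD'δ
  have hexp : (0 : ℝ) < (n : ℝ) - d' := by
    have h1 : ((d' + 1 : ℕ) : ℝ) ≤ n := by exact_mod_cast hn
    push_cast at h1
    linarith
  have hω1 : 1 ≤ ω := (Real.one_le_rpow hδ1 (by positivity)).trans hω
  have hδω : δ ≤ ω ^ n := by
    have h1 : δ = (δ ^ (1 / ((n : ℝ) - d'))) ^ ((n : ℝ) - d') := by
      rw [← Real.rpow_mul (by linarith), one_div_mul_cancel hexp.ne', Real.rpow_one]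
    rw [h1]
    calc (δ ^ (1 / ((n : ℝ) - d'))) ^ ((n : ℝ) - d') ≤ ω ^ ((n : ℝ) - d') :=
          Real.rpow_le_rpow (Real.rpow_nonneg (by linarith) _) hω hexp.le
      _ ≤ ω ^ (n : ℝ) :=
          Real.rpow_le_rpow_of_exponent_le hω1 (by
            have : (0 : ℝ) ≤ d' := Nat.cast_nonneg d'
            linarith)
      _ = ω ^ n := Real.rpow_natCast _ _
  obtain ⟨p, hp0, hpZ, hpD, hpL⟩ := descend L Z hZ D' G hG0 hGZ hGD'
  obtain ⟨F, hF⟩ : ∃ F : MvPolynomial (Fin n) L, F = bxp (fun m : Bx n D' =>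
    (⟨p.coeff (bxf m), hpL _⟩ : L)) := ⟨_, rfl⟩
  have hmap : map (algebraMap L Ω) F = p := by
    refine MvPolynomial.ext _ _ fun m => ?_
    rw [coeff_map]
    by_cases hm : ∀ l, m l ≤ D'
    · obtain ⟨m', rfl⟩ := bxf_surj m hm
      rw [hF, coeff_bxp]
      rfl
    · push Not at hm
      obtain ⟨l, hl⟩ := hm
      have h1 : F.coeff m = 0 := by
        by_contra hne
        have h2 := monomial_le_degreeOf l (mem_support_iff.2 hne)
        have h3 : F.degreeOf l ≤ D' := by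
          rw [hF]
          exact bxp_deg _ l
        omega
      have h2 : p.coeff m = 0 := by
        by_contra hne
        have h3 := monomial_le_degreeOf l (mem_support_iff.2 hne)
        have h4 := hpD l
        omega
      rw [h1, h2, map_zero]
  refine ⟨hω1, D', F, hD'1, hD'δ.trans hδω, ?_, ?_, ?_⟩
  · intro h0
    apply hp0
    rw [← hmap, h0, map_zero]
  · intro i
    rw [hF]
    exact bxp_deg _ i
  · rw [hmap]
    exact hpZ

variable (K) in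
theorem tr_B (n C₁ : ℕ) (c₁ : ℝ) (Λ : Subgroup Ωˣ) (L : IntermediateField K Ω)
    (hL : ∀ γ : Ωˣ, (∀ m : ℕ, 1 ≤ m → γ ^ m ∉ Λ) →
      c₁ ≤ (dg L (γ : Ω) : ℝ) ^ C₁ * absLogHeight₁ (γ : Ω)) (Γ : Subgroup (Tor Ω n))
    (hΓ : ∀ x : Tor Ω n, (∀ l, x l ∈ Λ) → x ∈ Γ)
    (V : Set (Tor Ω n)) (hV : (idl V).IsPrime) (htr : Transv K Γ V)
    (Z : Set (Tor Ω n)) (d' : ℕ) (δ ω : ℝ) (hZ : ClosedOver L Z) (hZne : Z ≠ Set.univ)
    (hZd : Equidim Z d') (hZδ : HasDeg Z d' δ) (hVZ : V ⊆ Z) (hω : δ ^ (1 / ((n : ℝ) - d')) ≤ ω)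
    (θ : ℝ) (hθ : idl {x | x ∈ V ∧ ht x ≤ θ} ≤ idl V) :
    1 ≤ ω ∧ min 1 c₁ / ((cst n : ℝ) + 1) ^ (C₁ + 1) ≤ ω ^ (n * (cst n * (C₁ + 1))) * θ := by
  classical
  obtain ⟨hω1, D, F, hD1, hDω, hF0, hFD, hFZ⟩ := poly_of_Z L Z d' δ ω hZ hZne hZd hZδ hω
  have hFV : map (algebraMap L Ω) F ∈ idl V := by
    rw [mem_idl] at hFZ ⊢
    exact fun x hx => hFZ x (hVZ hx)
  have h1 := tr_A K n C₁ c₁ Λ L hL Γ hΓ V hV htr D hD1 F hF0 hFD hFV θ hθ
  have hθ0 : 0 ≤ θ := by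
    obtain ⟨x, hx⟩ : {x | x ∈ V ∧ ht x ≤ θ}.Nonempty := by
      by_contra hcon
      rw [Set.not_nonempty_iff_eq_empty] at hcon
      rw [hcon] at hθ
      apply hV.ne_top
      rw [eq_top_iff]
      refine le_trans ?_ hθ
      intro f _
      rw [mem_idl]
      intro x hx
      exact absurd hx (Set.notMem_empty x)
    refine le_trans ?_ hx.2
    unfold ht
    exact Finset.sum_nonneg fun l _ => ht_nonneg _
  refine ⟨hω1, h1.trans (mul_le_mul_of_nonneg_right ?_ hθ0)⟩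
  calc (D : ℝ) ^ (cst n * (C₁ + 1)) ≤ (ω ^ n) ^ (cst n * (C₁ + 1)) :=
        pow_le_pow_left₀ (Nat.cast_nonneg _) hDω _
    _ = ω ^ (n * (cst n * (C₁ + 1))) := by rw [← pow_mul]

end Pool.Agent.H33.TR
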