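import Mathlib

/-!
# TRANSFER THEOREM, Elm: elimination of a variable

`f` irreducible of positive degree in `x_i`, not a divisor of `g`, all degrees at most `A`: the resultant in `x_i` is a nonzero
polynomial in the other variables, of degree at most `2 A²` in each of them, in the ideal `(f, g)`.
-/

set_option autoImplicit false
set_option linter.unusedSectionVars false

open MvPolynomial

namespace Pool.Agent.H33.TR

private theorem det_deg {L : Type} [Field L] {k : ℕ} {B : Type} [Fintype B] [DecidableEq B]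
    (P : Matrix B B (MvPolynomial (Fin k) L)) (i : Fin k) (A : ℕ) (hA : ∀ a b, (P a b).degreeOf i ≤ A) :
    P.det.degreeOf i ≤ Fintype.card B * A := by
  rw [Matrix.det_apply']
  refine (degreeOf_sum_le i _ _).trans (Finset.sup_le fun π _ => ?_)
  refine (degreeOf_mul_le i _ _).trans ?_
  have h1 : ((((Equiv.Perm.sign π : ℤˣ) : ℤ) : MvPolynomial (Fin k) L)).degreeOf i = 0 := by
    have h2 : ((((Equiv.Perm.sign π : ℤˣ) : ℤ) : MvPolynomial (Fin k) L)) =
        C ((((Equiv.Perm.sign π : ℤˣ) : ℤ) : L)) := by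
      rw [map_intCast]
    rw [h2, degreeOf_C]
  rw [h1, zero_add]
  refine (degreeOf_prod_le i _ _).trans ?_
  refine (Finset.sum_le_card_nsmul _ _ A fun b _ => hA _ _).trans (le_of_eq ?_)
  rw [Finset.card_univ, smul_eq_mul]

/-- elimination of the variable `0` -/
theorem elm0 {L : Type} [Field L] {k : ℕ} (f g : MvPolynomial (Fin (k + 1)) L) (hf : Irreducible f)
    (hdeg : f.degreeOf 0 ≠ 0) (hfg : ¬ f ∣ g) (A : ℕ) (hfA : ∀ i, f.degreeOf i ≤ A)
    (hgA : ∀ i, g.degreeOf i ≤ A) :
    ∃ r : MvPolynomial (Fin k) L, r ≠ 0 ∧ (∀ i, r.degreeOf i ≤ 2 * A * A) ∧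
      ∃ u v : MvPolynomial (Fin (k + 1)) L, rename Fin.succ r = f * u + g * v := by
  classical
  obtain ⟨F, hF⟩ : ∃ F, F = finSuccEquiv L k f := ⟨_, rfl⟩
  obtain ⟨G, hG⟩ : ∃ G, G = finSuccEquiv L k g := ⟨_, rfl⟩
  have hFd : F.natDegree = f.degreeOf 0 := by rw [hF, natDegree_finSuccEquiv]
  have hGd : G.natDegree = g.degreeOf 0 := by rw [hG, natDegree_finSuccEquiv]
  have hFirr : Irreducible F := by
    rw [hF]
    exact (MulEquiv.irreducible_iff (finSuccEquiv L k)).2 hf
  have hFprim : F.IsPrimitive := hFirr.isPrimitive (by rw [hFd]; exact hdeg)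
  have hFG : ¬ F ∣ G := by
    intro h
    apply hfg
    rw [hF, hG] at h
    obtain ⟨q, hq⟩ := h
    refine ⟨(finSuccEquiv L k).symm q, ?_⟩
    apply (finSuccEquiv L k).injective
    rw [map_mul, AlgEquiv.apply_symm_apply]
    exact hq
  obtain ⟨r, hr⟩ : ∃ r, r = Polynomial.resultant F G := ⟨_, rfl⟩
  have hr0 : r ≠ 0 := by
    intro h0
    let Q := FractionRing (MvPolynomial (Fin k) L)
    let φ : MvPolynomial (Fin k) L →+* Q := algebraMap _ _
    have hφ : Function.Injective φ := IsFractionRing.injective _ _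
    have h1 : Polynomial.resultant (F.map φ) (G.map φ) = 0 := by
      have h2 := Polynomial.resultant_map_map F G F.natDegree G.natDegree φ
      rw [Polynomial.natDegree_map_eq_of_injective hφ, Polynomial.natDegree_map_eq_of_injective hφ, h2,
        ← hr, h0, map_zero]
    rw [Polynomial.resultant_eq_zero_iff] at h1
    have hFφ : Irreducible (F.map φ) :=
      (hFprim.irreducible_iff_irreducible_map_fraction_map (K := Q)).1 hFirr
    have h3 : F.map φ ∣ G.map φ := by
      by_contra h4
      exact h1.2 ((hFφ.coprime_iff_not_dvd).2 h4)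
    exact hFG (hFprim.dvd_of_fraction_map_dvd_fraction_map (K := Q) h3)
  have hFc : ∀ (i : Fin k) (n : ℕ), (F.coeff n).degreeOf i ≤ A := by
    intro i n
    rw [hF]
    exact (degreeOf_coeff_finSuccEquiv f i _).trans (hfA _)
  have hGc : ∀ (i : Fin k) (n : ℕ), (G.coeff n).degreeOf i ≤ A := by
    intro i n
    rw [hG]
    exact (degreeOf_coeff_finSuccEquiv g i _).trans (hgA _)
  refine ⟨r, hr0, ?_, ?_⟩
  · intro i
    have h1 : ∀ a b, ((Polynomial.sylvester F G F.natDegree G.natDegree) a b).degreeOf i ≤ A := by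
      intro a b
      unfold Polynomial.sylvester
      rw [Matrix.of_apply]
      induction b using Fin.addCases with
      | left j =>
        rw [Fin.addCases_left]
        split_ifs
        · exact hGc i _
        · rw [degreeOf_zero]
          exact Nat.zero_le _
      | right j =>
        rw [Fin.addCases_right]
        split_ifs
        · exact hFc i _
        · rw [degreeOf_zero]
          exact Nat.zero_le _
    have h2 := det_deg (Polynomial.sylvester F G F.natDegree G.natDegree) i A h1
    rw [Fintype.card_fin] at h2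
    rw [hr]
    unfold Polynomial.resultant
    refine h2.trans (Nat.mul_le_mul_right _ ?_)
    rw [hFd, hGd, two_mul]
    exact add_le_add (hfA 0) (hgA 0)
  · obtain ⟨u, v, -, -, h⟩ := Polynomial.exists_mul_add_mul_eq_C_resultant F G (m := F.natDegree)
      (n := G.natDegree) le_rfl le_rfl (Or.inl (by rw [hFd]; exact hdeg))
    refine ⟨(finSuccEquiv L k).symm u, (finSuccEquiv L k).symm v, ?_⟩
    apply (finSuccEquiv L k).injective
    rw [map_add, map_mul, map_mul, AlgEquiv.apply_symm_apply, AlgEquiv.apply_symm_apply, ← hF, ← hG, h,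
      ← hr]
    have h1 : (finSuccEquiv L k).toAlgHom.comp (rename Fin.succ) =
        (Algebra.ofId (MvPolynomial (Fin k) L) (Polynomial (MvPolynomial (Fin k) L))).restrictScalars L := by
      apply algHom_ext
      intro j
      change finSuccEquiv L k (rename Fin.succ (X j)) = Polynomial.C (X j)
      rw [rename_X, finSuccEquiv_X_succ]
    have h2 := congrArg (fun φ => φ r) h1
    exact h2

/-- elimination of the variable `i` -/
theorem elm {L : Type} [Field L] {k : ℕ} (f g : MvPolynomial (Fin (k + 1)) L) (hf : Irreducible f)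
    (i : Fin (k + 1)) (hdeg : f.degreeOf i ≠ 0) (hfg : ¬ f ∣ g) (A : ℕ) (hfA : ∀ i, f.degreeOf i ≤ A)
    (hgA : ∀ i, g.degreeOf i ≤ A) :
    ∃ r : MvPolynomial (Fin k) L, r ≠ 0 ∧ (∀ i, r.degreeOf i ≤ 2 * A * A) ∧
      ∃ u v : MvPolynomial (Fin (k + 1)) L, rename i.succAbove r = f * u + g * v := by
  classical
  let e : Fin (k + 1) ≃ Fin (k + 1) := (finSuccEquiv' i).trans (finSuccEquiv' 0).symm
  have he0 : e i = 0 := by
    change (finSuccEquiv' 0).symm (finSuccEquiv' i i) = 0
    rw [finSuccEquiv'_at, finSuccEquiv'_symm_none]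
  have hej : ∀ j, e.symm (Fin.succ j) = i.succAbove j := by
    intro j
    rw [Equiv.symm_apply_eq]
    change Fin.succ j = (finSuccEquiv' 0).symm (finSuccEquiv' i (i.succAbove j))
    rw [finSuccEquiv'_succAbove, finSuccEquiv'_symm_some, Fin.succAbove_zero]
  have hdegs : ∀ (q : MvPolynomial (Fin (k + 1)) L) (j : Fin (k + 1)),
      (rename e q).degreeOf j = q.degreeOf (e.symm j) := by
    intro q j
    conv_lhs => rw [← e.apply_symm_apply j]
    exact degreeOf_rename_of_injective e.injective _
  obtain ⟨r, hr0, hrd, u, v, h⟩ := elm0 (rename e f) (rename e g)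
    ((MulEquiv.irreducible_iff (renameEquiv L e)).2 hf)
    (by rw [hdegs, (Equiv.symm_apply_eq e).2 he0.symm]; exact hdeg)
    (by
      rintro ⟨q, hq⟩
      apply hfg
      refine ⟨rename e.symm q, ?_⟩
      have h1 := congrArg (rename e.symm) hq
      rw [map_mul, rename_rename, rename_rename, e.symm_comp_self, rename_id, AlgHom.id_apply,
        AlgHom.id_apply] at h1
      exact h1) A
    (fun j => by rw [hdegs]; exact hfA _) (fun j => by rw [hdegs]; exact hgA _)
  refine ⟨r, hr0, hrd, rename e.symm u, rename e.symm v, ?_⟩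
  have h1 := congrArg (rename e.symm) h
  rw [map_add, map_mul, map_mul, rename_rename, rename_rename, rename_rename, e.symm_comp_self, rename_id,
    AlgHom.id_apply, AlgHom.id_apply] at h1
  rw [← h1]
  have h2 : (i.succAbove : Fin k → Fin (k + 1)) = e.symm ∘ Fin.succ := by
    funext j
    exact (hej j).symm
  rw [h2]

end Pool.Agent.H33.TR
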