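import Pool.Agent.H33.TR.Loc
import Pool.Agent.H72.PL.PF
import Pool.Agent.H72.PB.HNonneg

/-!
# TRANSFER THEOREM, Glo: the determinant vanishes

`glo_E`: in a number field `E`; `glo`: in `Ω`. If `∑_m a_m y_i^m = 0` for all `i` (`m ∈ {0..D}^k`, `a ≠ 0`) and
`R log p > log (N !) + N p M θ` (`N = (M+1)^k`, `R = (M+1-D)^k`, `∑_l h(y_i,l) ≤ θ`) then `det (y_i^(p m)) = 0`.
Proof: the product formula (`pf_ineq`) with `loc_det` at the finite places and `N !` at the infinite ones.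
-/

set_option autoImplicit false

open NumberField Module

namespace Pool.Agent.H33.TR

private theorem mn_le {E : Type} [Field E] (v : AbsoluteValue E ℝ) {k M : ℕ} (p : ℕ) (m : Bx k M)
    (y : Fin k → E) : v (mn m y ^ p) ≤ ∏ l, (max 1 (v (y l))) ^ (p * M) := by
  rw [map_pow]
  unfold mn
  rw [map_prod, ← Finset.prod_pow]
  refine Finset.prod_le_prod (fun l _ => pow_nonneg (v.nonneg _) _) fun l _ => ?_
  rw [map_pow, ← pow_mul]
  calc v (y l) ^ ((m l : ℕ) * p) ≤ (max 1 (v (y l))) ^ ((m l : ℕ) * p) :=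
        pow_le_pow_left₀ (v.nonneg _) (le_max_right _ _) _
    _ ≤ (max 1 (v (y l))) ^ (p * M) := by
        refine pow_le_pow_right₀ (le_max_left _ _) ?_
        have := (m l).2
        rw [mul_comm]
        exact Nat.mul_le_mul_left _ (by omega)

private theorem det_arch {E : Type} [Field E] (v : AbsoluteValue E ℝ) {B : Type} [Fintype B] [DecidableEq B]
    (A : Matrix B B E) (h : B → ℝ) (hA : ∀ i j, v (A i j) ≤ h i) :
    v A.det ≤ ((Fintype.card B).factorial : ℝ) * ∏ i, h i := by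
  rw [Matrix.det_apply']
  refine (v.sum_le _ _).trans ?_
  have h1 : ∀ π ∈ (Finset.univ : Finset (Equiv.Perm B)),
      v ((((Equiv.Perm.sign π : ℤˣ) : ℤ) : E) * ∏ i, A (π i) i) ≤ ∏ i, h i := by
    intro π _
    have h2 : v (((Equiv.Perm.sign π : ℤˣ) : ℤ) : E) = 1 := by
      rcases Int.units_eq_one_or (Equiv.Perm.sign π) with h | h
      · rw [h]; simp
      · rw [h]; simp
    rw [map_mul, h2, one_mul, map_prod, ← Equiv.prod_comp π h]
    exact Finset.prod_le_prod (fun i _ => v.nonneg _) fun i _ => hA _ _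
  refine (Finset.sum_le_sum h1).trans (le_of_eq ?_)
  rw [Finset.sum_const, nsmul_eq_mul, Finset.card_univ, Fintype.card_perm]

theorem glo_E {E : Type} [Field E] [NumberField E] (p : ℕ) (hp : p.Prime) (hp2 : p ≠ 2) {k D M : ℕ}
    (hDM : D ≤ M) (a : Bx k D → E) (ha : a ≠ 0) (y : Bx k M → Fin k → E)
    (hy : ∀ i, ∑ m, a m * mn m (y i) = 0)
    (hdet : Matrix.det (Matrix.of fun i m : Bx k M => mn m (y i) ^ p) ≠ 0) :
    (finrank ℚ E : ℝ) * ((M - D + 1) ^ k : ℕ) * Real.log p ≤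
      (finrank ℚ E : ℝ) * Real.log (((M + 1) ^ k).factorial : ℕ) +
        ((p * M : ℕ) : ℝ) * ∑ i, ∑ l, Height.logHeight₁ (y i l) := by
  classical
  obtain ⟨Z, hZ⟩ : ∃ Z : E, Z = Matrix.det (Matrix.of fun i m : Bx k M => mn m (y i) ^ p) := ⟨_, rfl⟩
  have hZ0 : Z ≠ 0 := by
    rw [hZ]
    exact hdet
  have hp0 : (p : E) ≠ 0 := by exact_mod_cast hp.ne_zero
  have hcard : Fintype.card (Bx k M) = (M + 1) ^ k := by
    rw [Fintype.card_fun, Fintype.card_fin, Fintype.card_fin]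
  have hre : ∀ v : AbsoluteValue E ℝ, ∏ i, ∏ l, (max 1 (v (y i l))) ^ (p * M) =
      ∏ j : Bx k M × Fin k, ((max 1 (v (y j.1 j.2))) ^ (p * M) *
        (max 1 (v ((fun _ : Bx k M × Fin k => (1 : E)) j))) ^ 0) := by
    intro v
    rw [Fintype.prod_prod_type]
    simp only [pow_zero, mul_one]
  have hinf : ∀ v : InfinitePlace E, v Z ≤ ((((M + 1) ^ k).factorial : ℕ) : ℝ) *
      ∏ j : Bx k M × Fin k, ((max 1 (v (y j.1 j.2))) ^ (p * M) *
        (max 1 (v ((fun _ : Bx k M × Fin k => (1 : E)) j))) ^ 0) := by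
    intro v
    have h1 := det_arch v.1 (Matrix.of fun i m : Bx k M => mn m (y i) ^ p)
      (fun i => ∏ l, (max 1 (v.1 (y i l))) ^ (p * M)) (fun i m => mn_le v.1 p m (y i))
    rw [hcard, ← hZ, hre] at h1
    exact h1
  have hfin : ∀ w : FinitePlace E, w Z ≤ w (p : E) ^ ((M - D + 1) ^ k) *
      ∏ j : Bx k M × Fin k, ((max 1 (w (y j.1 j.2))) ^ (p * M) *
        (max 1 (w ((fun _ : Bx k M × Fin k => (1 : E)) j))) ^ 0) := by
    intro w
    have hna : IsNonarchimedean (w.1 : E → ℝ) := fun a b => FinitePlace.add_le w a b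
    have h1 := loc_det w.1 hna p hp hp2 hDM a ha y hy
    rw [← hZ, hre] at h1
    exact h1
  have he0 : ∀ w : FinitePlace E, 0 < w (p : E) ^ ((M - D + 1) ^ k) :=
    fun w => pow_pos (FinitePlace.pos_iff.2 hp0) _
  have hes0 : (Function.mulSupport fun w : FinitePlace E => w (p : E)).Finite :=
    FinitePlace.hasFiniteMulSupport (K := E) hp0
  have hes : (Function.mulSupport fun w : FinitePlace E => w (p : E) ^ ((M - D + 1) ^ k)).Finite := by
    refine hes0.subset fun w hw => ?_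
    rw [Function.mem_mulSupport] at hw ⊢
    intro h
    exact hw (by rw [h, one_pow])
  have hC : (1 : ℝ) ≤ ((((M + 1) ^ k).factorial : ℕ) : ℝ) := by
    exact_mod_cast Nat.succ_le_iff.2 (Nat.factorial_pos _)
  have key := Pool.Agent.H72.PL.pf_ineq Z hZ0 (fun j : Bx k M × Fin k => y j.1 j.2)
    (fun _ : Bx k M × Fin k => (1 : E)) (fun _ => p * M) (fun _ => 0)
    ((((M + 1) ^ k).factorial : ℕ) : ℝ) hC (fun w => w (p : E) ^ ((M - D + 1) ^ k)) he0 hes hinf hfin
  -- the product formula for `p`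
  have hpp : (0 : ℝ) < p := by exact_mod_cast hp.pos
  have hpf := prod_abs_eq_one (K := E) hp0
  have h2 : ∏ v : InfinitePlace E, v (p : E) ^ v.mult = (p : ℝ) ^ finrank ℚ E := by
    rw [← InfinitePlace.sum_mult_eq (K := E), ← Finset.prod_pow_eq_pow_sum]
    refine Finset.prod_congr rfl fun v _ => ?_
    rw [InfinitePlace.map_natCast]
  rw [h2] at hpf
  have h3 : ∏ᶠ w : FinitePlace E, w (p : E) = ((p : ℝ) ^ finrank ℚ E)⁻¹ :=
    eq_inv_of_mul_eq_one_right hpf
  have h3' : ∏ᶠ w : FinitePlace E, w (p : E) ^ ((M - D + 1) ^ k) =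
      (((p : ℝ) ^ finrank ℚ E)⁻¹) ^ ((M - D + 1) ^ k) := by
    rw [← h3, finprod_pow hes0]
  rw [h3', Real.log_pow, Real.log_inv, Real.log_pow] at key
  have h4 : ∑ j : Bx k M × Fin k, (((p * M : ℕ) : ℝ) * Height.logHeight₁ (y j.1 j.2) +
      ((0 : ℕ) : ℝ) * Height.logHeight₁ (1 : E)) =
      ((p * M : ℕ) : ℝ) * ∑ i, ∑ l, Height.logHeight₁ (y i l) := by
    rw [Fintype.sum_prod_type, Finset.mul_sum]
    refine Finset.sum_congr rfl fun i _ => ?_
    rw [Finset.mul_sum]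
    refine Finset.sum_congr rfl fun l _ => ?_
    rw [Nat.cast_zero, zero_mul, add_zero]
  rw [h4] at key
  have h5 : (finrank ℚ E : ℝ) * ((M - D + 1) ^ k : ℕ) * Real.log p =
      ((M - D + 1) ^ k : ℕ) * ((finrank ℚ E : ℝ) * Real.log p) := by ring
  rw [h5]
  linarith

theorem glo {Ω : Type} [Field Ω] [CharZero Ω] (p : ℕ) (hp : p.Prime) (hp2 : p ≠ 2) {k D M : ℕ}
    (hDM : D ≤ M) (a : Bx k D → Ω) (ha : a ≠ 0) (haint : ∀ m, IsIntegral ℚ (a m))
    (y : Bx k M → Fin k → Ω) (hyint : ∀ i l, IsIntegral ℚ (y i l))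
    (hy : ∀ i, ∑ m, a m * mn m (y i) = 0) (θ : ℝ) (hθ : ∀ i, ∑ l, absLogHeight₁ (y i l) ≤ θ)
    (hnum : Real.log (((M + 1) ^ k).factorial : ℕ) + ((M + 1) ^ k : ℕ) * (((p * M : ℕ) : ℝ) * θ) <
      ((M - D + 1) ^ k : ℕ) * Real.log p) :
    Matrix.det (Matrix.of fun i m : Bx k M => mn m (y i) ^ p) = 0 := by
  classical
  by_contra hdet
  -- the number field
  set A : Set Ω := Set.range a ∪ Set.range (fun j : Bx k M × Fin k => y j.1 j.2) with hA
  have hAfin : A.Finite := (Set.finite_range a).union (Set.finite_range _)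
  have hAint : ∀ x ∈ A, IsIntegral ℚ x := by
    intro x hx
    rcases hx with ⟨i, rfl⟩ | ⟨j, rfl⟩
    · exact haint i
    · exact hyint _ _
  have hfd : FiniteDimensional ℚ (IntermediateField.adjoin ℚ A) := by
    have : Finite A := hAfin
    exact IntermediateField.finiteDimensional_adjoin hAint
  have hnf : NumberField (IntermediateField.adjoin ℚ A) := {}
  set E := IntermediateField.adjoin ℚ A with hE
  let a' : Bx k D → E := fun i => ⟨a i, IntermediateField.subset_adjoin ℚ _ (Or.inl ⟨i, rfl⟩)⟩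
  let y' : Bx k M → Fin k → E := fun i l =>
    ⟨y i l, IntermediateField.subset_adjoin ℚ _ (Or.inr ⟨(i, l), rfl⟩)⟩
  let ψ : E →+* Ω := (IntermediateField.val E).toRingHom
  have hψ : Function.Injective ψ := ψ.injective
  have hψa : ∀ i, ψ (a' i) = a i := fun i => rfl
  have hψy : ∀ i l, ψ (y' i l) = y i l := fun i l => rfl
  have hψmn : ∀ {B : ℕ} (m : Bx k B) (i : Bx k M), ψ (mn m (y' i)) = mn m (y i) := by
    intro B m i
    unfold mn
    rw [map_prod]
    refine Finset.prod_congr rfl fun l _ => ?_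
    rw [map_pow, hψy]
  have ha'0 : a' ≠ 0 := by
    intro h
    apply ha
    funext m
    have h1 := congrArg ψ (congrFun h m)
    rw [hψa] at h1
    rw [h1]
    exact map_zero ψ
  have hy'0 : ∀ i, ∑ m, a' m * mn m (y' i) = 0 := by
    intro i
    apply hψ
    rw [map_sum, map_zero, ← hy i]
    refine Finset.sum_congr rfl fun m _ => ?_
    rw [map_mul, hψa, hψmn]
  have hdet' : Matrix.det (Matrix.of fun i m : Bx k M => mn m (y' i) ^ p) ≠ 0 := by
    intro h
    apply hdet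
    have h1 := congrArg ψ h
    rw [map_zero, RingHom.map_det] at h1
    rw [← h1]
    congr 1
    ext i m
    rw [RingHom.mapMatrix_apply, Matrix.map_apply, Matrix.of_apply, Matrix.of_apply, map_pow, hψmn]
  have key := glo_E p hp hp2 hDM a' ha'0 y' hy'0 hdet'
  have hH : ∀ i l, Height.logHeight₁ (y' i l) = (finrank ℚ E : ℝ) * absLogHeight₁ (y i l) := by
    intro i l
    have h1 := Pool.Agent.H4.RR.absLogHeight_eq E Ω ψ (y' i l)
    rw [hψy] at h1
    have h2 : (finrank ℚ E : ℝ) ≠ 0 := by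
      exact_mod_cast (Module.finrank_pos (R := ℚ) (M := E)).ne'
    rw [h1]
    field_simp
  simp only [hH] at key
  have hfp : (0 : ℝ) < (finrank ℚ E : ℝ) := by
    exact_mod_cast Module.finrank_pos (R := ℚ) (M := E)
  have h1 : ∑ i : Bx k M, ∑ l, (finrank ℚ E : ℝ) * absLogHeight₁ (y i l) ≤
      (finrank ℚ E : ℝ) * (((M + 1) ^ k : ℕ) * θ) := by
    have h2 : ∀ i ∈ (Finset.univ : Finset (Bx k M)), ∑ l, (finrank ℚ E : ℝ) * absLogHeight₁ (y i l) ≤
        (finrank ℚ E : ℝ) * θ := by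
      intro i _
      rw [← Finset.mul_sum]
      exact mul_le_mul_of_nonneg_left (hθ i) hfp.le
    refine (Finset.sum_le_sum h2).trans (le_of_eq ?_)
    rw [Finset.sum_const, nsmul_eq_mul, Finset.card_univ, Fintype.card_fun, Fintype.card_fin, Fintype.card_fin]
    ring
  have h2 : (finrank ℚ E : ℝ) * (((M - D + 1) ^ k : ℕ) * Real.log p) ≤
      (finrank ℚ E : ℝ) * (Real.log (((M + 1) ^ k).factorial : ℕ) +
        ((M + 1) ^ k : ℕ) * (((p * M : ℕ) : ℝ) * θ)) := by
    calc (finrank ℚ E : ℝ) * (((M - D + 1) ^ k : ℕ) * Real.log p)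
        = (finrank ℚ E : ℝ) * ((M - D + 1) ^ k : ℕ) * Real.log p := by ring
      _ ≤ (finrank ℚ E : ℝ) * Real.log (((M + 1) ^ k).factorial : ℕ) +
          ((p * M : ℕ) : ℝ) * ∑ i, ∑ l, (finrank ℚ E : ℝ) * absLogHeight₁ (y i l) := key
      _ ≤ (finrank ℚ E : ℝ) * Real.log (((M + 1) ^ k).factorial : ℕ) +
          ((p * M : ℕ) : ℝ) * ((finrank ℚ E : ℝ) * (((M + 1) ^ k : ℕ) * θ)) := by
          have : (0 : ℝ) ≤ ((p * M : ℕ) : ℝ) := Nat.cast_nonneg _
          have := mul_le_mul_of_nonneg_left h1 this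
          linarith
      _ = _ := by ring
  have h3 := le_of_mul_le_mul_left h2 hfp
  linarith

end Pool.Agent.H33.TR
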