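import Pool.Agent.H33.TR.Twi
import Pool.Agent.H11.TH.Irr
import Pool.Agent.H72.PB.Defs

/-!
# TRANSFER THEOREM, Rk1: factors of rank one

`X` irreducible in the torus, `F₁` an irreducible factor over `Ω` of `F ≠ 0` with coefficients in `L`, `F₁ = 0` on `X`, the
differences of the exponents of `F₁` pairwise dependent. Then they are multiples `k_m e` of one primitive vector `e`,
`∑_m a_m (x^e)^(k_m) = 0` on `X`, so `x^e = γ` on `X` for a root `γ` of this Laurent polynomial. The conjugates of `F₁`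
(normalised by `a_(m₀) = 1`) over `L` are pairwise not associated divisors of `F`: at most `D`; each gives at most `2 D`
conjugates of `γ`.
-/

set_option autoImplicit false
set_option linter.unusedSectionVars false

open MvPolynomial

namespace Pool.Agent.H33.TR

open Pool.Agent.H72.PB Pool.Agent.H11.TH

/-- a nonzero integral vector is a multiple of a primitive one -/
theorem prim_vec {k : ℕ} (v : Fin k → ℤ) (hv : v ≠ 0) :
    ∃ (g : ℤ) (e u : Fin k → ℤ), g ≠ 0 ∧ (∀ l, v l = g * e l) ∧ ∑ l, u l * e l = 1 := by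
  classical
  obtain ⟨g, hg⟩ := (IsPrincipalIdealRing.principal (Ideal.span (Set.range v))).principal
  rw [Ideal.submodule_span_eq] at hg
  have h1 : ∀ l, ∃ c, v l = g * c := by
    intro l
    have h2 : v l ∈ Ideal.span {g} := by
      rw [← hg]
      exact Ideal.subset_span ⟨l, rfl⟩
    exact Ideal.mem_span_singleton.1 h2
  choose e he using h1
  have h3 : g ∈ Ideal.span (Set.range v) := by
    rw [hg]
    exact Ideal.mem_span_singleton_self g
  obtain ⟨u, hu⟩ := Ideal.mem_span_range_iff_exists_fun.1 h3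
  have hg0 : g ≠ 0 := by
    intro h0
    apply hv
    funext l
    rw [he, h0, zero_mul]
    rfl
  refine ⟨g, e, u, hg0, he, ?_⟩
  apply mul_left_cancel₀ hg0
  rw [Finset.mul_sum, mul_one]
  conv_rhs => rw [← hu]
  refine Finset.sum_congr rfl fun l _ => ?_
  rw [he l]
  ring

/-- the polynomial in one variable -/
private noncomputable def PP {Ω : Type} [Field Ω] {k : ℕ} (S : Finset (Fin k →₀ ℕ)) (n : (Fin k →₀ ℕ) → ℕ)
    (f : MvPolynomial (Fin k) Ω) : Polynomial Ω := ∑ m ∈ S, Polynomial.C (f.coeff m) * Polynomial.X ^ n m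

private theorem PP_coeff {Ω : Type} [Field Ω] {k : ℕ} (S : Finset (Fin k →₀ ℕ)) (n : (Fin k →₀ ℕ) → ℕ)
    (hn : ∀ m ∈ S, ∀ m' ∈ S, n m = n m' → m = m') (f : MvPolynomial (Fin k) Ω) (m₀ : Fin k →₀ ℕ)
    (h₀ : m₀ ∈ S) : (PP S n f).coeff (n m₀) = f.coeff m₀ := by
  classical
  unfold PP
  rw [Polynomial.finsetSum_coeff, Finset.sum_eq_single m₀]
  · rw [Polynomial.coeff_C_mul_X_pow, if_pos rfl]
  · intro m hm hne
    rw [Polynomial.coeff_C_mul_X_pow, if_neg]
    intro h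
    exact hne (hn m hm m₀ h₀ h.symm)
  · intro h
    exact absurd h₀ h

private theorem PP_deg {Ω : Type} [Field Ω] {k : ℕ} (S : Finset (Fin k →₀ ℕ)) (n : (Fin k →₀ ℕ) → ℕ)
    (D : ℕ) (hn : ∀ m ∈ S, n m ≤ D) (f : MvPolynomial (Fin k) Ω) : (PP S n f).natDegree ≤ D := by
  unfold PP
  refine Polynomial.natDegree_sum_le_of_forall_le _ _ fun m hm => ?_
  exact (Polynomial.natDegree_C_mul_X_pow_le _ _).trans (hn m hm)

private theorem PP_map {Ω : Type} [Field Ω] {k : ℕ} (S : Finset (Fin k →₀ ℕ)) (n : (Fin k →₀ ℕ) → ℕ)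
    (f : MvPolynomial (Fin k) Ω) (σ : Ω →+* Ω) : PP S n (map σ f) = (PP S n f).map σ := by
  unfold PP
  rw [Polynomial.map_sum]
  refine Finset.sum_congr rfl fun m _ => ?_
  rw [coeff_map, Polynomial.map_mul, Polynomial.map_C, Polynomial.map_pow, Polynomial.map_X]

variable {K Ω : Type} [Field K] [Field Ω] [Algebra K Ω] [Algebra.IsAlgebraic K Ω]

private theorem rank_one_aux (L : IntermediateField K Ω) {k : ℕ} (X : Set (Tor Ω k)) (hX : (idl X).IsPrime)
    (D : ℕ) (F : MvPolynomial (Fin k) L) (hF0 : F ≠ 0) (hFD : ∀ l, F.degreeOf l ≤ D)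
    (F₁ : MvPolynomial (Fin k) Ω) (hirr : Irreducible F₁) (hdiv : F₁ ∣ map (algebraMap L Ω) F)
    (hmem : F₁ ∈ idl X) (m₀ m₁ : Fin k →₀ ℕ) (h₀ : m₀ ∈ F₁.support) (h₁ : m₁ ∈ F₁.support) (h01 : m₀ ≠ m₁)
    (hone : F₁.coeff m₀ = 1)
    (hrk : ∀ m ∈ F₁.support, ∀ i j,
      ((m₁ i : ℤ) - m₀ i) * ((m j : ℤ) - m₀ j) = ((m₁ j : ℤ) - m₀ j) * ((m i : ℤ) - m₀ i)) :
    ∃ (e : Fin k → ℤ) (γ : Ωˣ), e ≠ 0 ∧ (∀ l, |e l| ≤ (D : ℤ)) ∧ (∀ x ∈ X, ch e x = γ) ∧
      dg L (γ : Ω) ≤ D * (2 * D) := by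
  classical
  obtain ⟨FΩ, hFΩ⟩ : ∃ FΩ, FΩ = map (algebraMap L Ω) F := ⟨_, rfl⟩
  have hinjL : Function.Injective (algebraMap L Ω) := (algebraMap L Ω).injective
  have hFΩ0 : FΩ ≠ 0 := by
    rw [hFΩ]
    intro h
    apply hF0
    exact map_injective _ hinjL (by rw [h, map_zero])
  have hFΩD : ∀ l, FΩ.degreeOf l ≤ D := by
    intro l
    rw [hFΩ, degreeOf_le_iff]
    intro m hm
    have h1 := support_map_subset (algebraMap L Ω) F hm
    exact (monomial_le_degreeOf l h1).trans (hFD l)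
  rw [← hFΩ] at hdiv
  have hF₁D : ∀ l, F₁.degreeOf l ≤ D := by
    intro l
    obtain ⟨q, hq⟩ := hdiv
    have hq0 : q ≠ 0 := by
      intro h
      apply hFΩ0
      rw [hq, h, mul_zero]
    have h1 := degreeOf_mul_eq (n := l) hirr.ne_zero hq0
    rw [← hq] at h1
    have := hFΩD l
    omega
  have hmD : ∀ m ∈ F₁.support, ∀ l, m l ≤ D := fun m hm l => (monomial_le_degreeOf l hm).trans (hF₁D l)
  -- the primitive vector
  have hv : (fun l => (m₁ l : ℤ) - m₀ l) ≠ 0 := by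
    intro h
    apply h01
    ext l
    have := congrFun h l
    simp only [Pi.zero_apply] at this
    omega
  obtain ⟨g, e, u, hg0, hge, hu⟩ := prim_vec _ hv
  have he0 : e ≠ 0 := by
    rintro rfl
    simp at hu
  obtain ⟨i₀, hi₀⟩ : ∃ i, e i ≠ 0 := by
    by_contra hcon
    push Not at hcon
    exact he0 (funext hcon)
  obtain ⟨kk, hkk⟩ : ∃ kk : (Fin k →₀ ℕ) → ℤ, kk = fun m => ∑ l, u l * ((m l : ℤ) - m₀ l) := ⟨_, rfl⟩
  have hke : ∀ m ∈ F₁.support, ∀ j, (m j : ℤ) - m₀ j = kk m * e j := by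
    intro m hm j
    have h1 : ∀ l, e l * ((m j : ℤ) - m₀ j) = e j * ((m l : ℤ) - m₀ l) := by
      intro l
      apply mul_left_cancel₀ hg0
      have h2 := hrk m hm l j
      rw [hge l, hge j] at h2
      linear_combination h2
    calc (m j : ℤ) - m₀ j = (∑ l, u l * e l) * ((m j : ℤ) - m₀ j) := by rw [hu, one_mul]
      _ = ∑ l, u l * (e l * ((m j : ℤ) - m₀ j)) := by
          rw [Finset.sum_mul]
          refine Finset.sum_congr rfl fun l _ => ?_
          ring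
      _ = ∑ l, u l * (e j * ((m l : ℤ) - m₀ l)) := by
          refine Finset.sum_congr rfl fun l _ => ?_
          rw [h1]
      _ = kk m * e j := by
          rw [hkk, Finset.sum_mul]
          refine Finset.sum_congr rfl fun l _ => ?_
          ring
  have hdiff : ∀ m ∈ F₁.support, ∀ l, |(m l : ℤ) - m₀ l| ≤ D := by
    intro m hm l
    have e1 := hmD m hm l
    have e2 := hmD m₀ h₀ l
    rw [abs_le]
    constructor <;> omega
  have hkD : ∀ m ∈ F₁.support, |kk m| ≤ D := by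
    intro m hm
    have h1 := hdiff m hm i₀
    rw [hke m hm i₀, abs_mul] at h1
    have h2 : 1 ≤ |e i₀| := Int.one_le_abs hi₀
    nlinarith [abs_nonneg (kk m)]
  have hk1 : kk m₁ ≠ 0 := by
    intro h
    apply hv
    funext l
    have h1 := hke m₁ h₁ l
    rw [h, zero_mul] at h1
    exact h1
  have heD : ∀ l, |e l| ≤ (D : ℤ) := by
    intro l
    have h1 := hdiff m₁ h₁ l
    rw [hke m₁ h₁ l, abs_mul] at h1
    have h2 : 1 ≤ |kk m₁| := Int.one_le_abs hk1
    nlinarith [abs_nonneg (e l)]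
  obtain ⟨n, hn⟩ : ∃ n : (Fin k →₀ ℕ) → ℕ, n = fun m => (kk m + D).toNat := ⟨_, rfl⟩
  have hnk : ∀ m ∈ F₁.support, ((n m : ℕ) : ℤ) = kk m + D := by
    intro m hm
    rw [hn]
    have h1 := (abs_le.1 (hkD m hm)).1
    simp only
    omega
  have hninj : ∀ m ∈ F₁.support, ∀ m' ∈ F₁.support, n m = n m' → m = m' := by
    intro m hm m' hm' h
    have h1 := hnk m hm
    have h2 := hnk m' hm'
    rw [h] at h1
    have h3 : kk m = kk m' := by linarith
    ext j
    have h4 := hke m hm j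
    have h5 := hke m' hm' j
    rw [h3] at h4
    omega
  have hnD : ∀ m ∈ F₁.support, n m ≤ 2 * D := by
    intro m hm
    have h1 := hnk m hm
    have h2 := (abs_le.1 (hkD m hm)).2
    omega
  obtain ⟨P, hP⟩ : ∃ P : MvPolynomial (Fin k) Ω → Polynomial Ω, P = PP F₁.support n := ⟨_, rfl⟩
  have hP0 : ∀ f, f.coeff m₀ = 1 → P f ≠ 0 := by
    intro f hf h
    have h1 := PP_coeff F₁.support n hninj f m₀ h₀
    rw [← hP, h, hf, Polynomial.coeff_zero] at h1
    exact zero_ne_one h1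
  -- `x^e` is a root
  have hroot : ∀ x ∈ X, (P F₁).eval ((ch e x : Ωˣ) : Ω) = 0 := by
    intro x hx
    have h1 : aeval (crd x) F₁ = 0 := by
      unfold idl at hmem
      rw [mem_vanishingIdeal_iff] at hmem
      exact hmem _ ⟨x, hx, rfl⟩
    have h2 : aeval (crd x) F₁ = ∑ m ∈ F₁.support, F₁.coeff m * ((∏ l, x l ^ m l : Ωˣ) : Ω) := by
      rw [aeval_def, eval₂_eq']
      refine Finset.sum_congr rfl fun m _ => ?_
      rw [Units.coe_prod]
      rfl
    have h3 : ∀ m ∈ F₁.support, (ch e x) ^ n m =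
        (∏ l, x l ^ m l) * ((∏ l, x l ^ m₀ l)⁻¹ * ch e x ^ D) := by
      intro m hm
      have h4 : (ch e x) ^ n m = (ch e x) ^ (kk m) * ch e x ^ D := by
        rw [← zpow_natCast, hnk m hm, zpow_add, zpow_natCast]
      have h5 : (ch e x) ^ (kk m) * ∏ l, x l ^ m₀ l = ∏ l, x l ^ m l := by
        unfold ch
        rw [← Finset.prod_zpow, ← Finset.prod_mul_distrib]
        refine Finset.prod_congr rfl fun l _ => ?_
        rw [← zpow_mul, ← zpow_natCast (x l) (m₀ l), ← zpow_natCast (x l) (m l), ← zpow_add]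
        congr 1
        have := hke m hm l
        linarith
      rw [h4, ← h5]
      rw [mul_assoc, mul_inv_cancel_left]
    rw [hP]
    unfold PP
    rw [Polynomial.eval_finsetSum]
    have h6 : ∀ m ∈ F₁.support, (Polynomial.C (F₁.coeff m) * Polynomial.X ^ n m).eval ((ch e x : Ωˣ) : Ω) =
        (F₁.coeff m * ((∏ l, x l ^ m l : Ωˣ) : Ω)) * (((∏ l, x l ^ m₀ l)⁻¹ * ch e x ^ D : Ωˣ) : Ω) := by
      intro m hm
      rw [Polynomial.eval_mul, Polynomial.eval_C, Polynomial.eval_pow, Polynomial.eval_X,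
        ← Units.val_pow_eq_pow_val, h3 m hm, Units.val_mul]
      ring
    rw [Finset.sum_congr rfl h6, ← Finset.sum_mul, ← h2, h1, zero_mul]
  -- it is constant
  obtain ⟨R, hR⟩ : ∃ R : Finset Ωˣ, R = (P F₁).roots.toFinset.preimage (fun y : Ωˣ => (y : Ω))
    (Units.val_injective.injOn) := ⟨_, rfl⟩
  obtain ⟨γ, hγR, hγ⟩ := irr_cover hX le_rfl R (fun _ => e) (fun y => y) (fun x hx => by
    refine ⟨ch e x, ?_, rfl⟩
    rw [hR, Finset.mem_preimage, Multiset.mem_toFinset, Polynomial.mem_roots (hP0 F₁ hone)]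
    exact hroot x hx)
  have hγroot : (P F₁).eval (γ : Ω) = 0 := by
    rw [hR, Finset.mem_preimage, Multiset.mem_toFinset, Polynomial.mem_roots (hP0 F₁ hone)] at hγR
    exact hγR
  refine ⟨e, γ, he0, heD, hγ, ?_⟩
  -- the conjugates of `F₁`
  obtain ⟨𝓕, h𝓕⟩ : ∃ 𝓕 : Set (MvPolynomial (Fin k) Ω), 𝓕 = {f | ∃ σ : Ω ≃ₐ[K] Ω, (∀ z ∈ L, σ z = z) ∧
    f = map (σ : Ω →+* Ω) F₁} := ⟨_, rfl⟩
  obtain ⟨i₁, m₂, h₂, h₂i⟩ : ∃ i, ∃ m ∈ F₁.support, m i ≠ 0 := by
    by_contra hcon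
    push Not at hcon
    apply h01
    ext l
    rw [hcon l m₀ h₀, hcon l m₁ h₁]
  have hfin : ∀ T : Finset (MvPolynomial (Fin k) Ω), (∀ f ∈ T, f ∈ 𝓕) → T.card ≤ D := by
    intro T hT
    have h1 := card_factors FΩ hFΩ0 T id ?_ ?_ ?_ i₁ ?_
    · exact h1.trans (hFΩD i₁)
    · intro f hf
      have h2 := hT f hf
      rw [h𝓕] at h2
      obtain ⟨σ, hσ, rfl⟩ := h2
      exact (MulEquiv.irreducible_iff (mapEquiv (Fin k) σ.toRingEquiv)).2 hirr
    · intro f hf f' hf' hne hass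
      have h2 := hT f hf
      have h2' := hT f' hf'
      rw [h𝓕] at h2 h2'
      obtain ⟨σ, hσ, rfl⟩ := h2
      obtain ⟨τ, hτ, rfl⟩ := h2'
      obtain ⟨w, hw⟩ := hass
      obtain ⟨r, -, hr⟩ := isUnit_iff_eq_C_of_isReduced.1 w.isUnit
      apply hne
      simp only [id] at hw
      rw [hr] at hw
      have h3 := congrArg (fun q => q.coeff m₀) hw
      rw [mul_comm, coeff_C_mul, coeff_map, coeff_map, hone, map_one, map_one, mul_one] at h3
      rw [h3, map_one, mul_one] at hw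
      exact hw
    · intro f hf
      have h2 := hT f hf
      rw [h𝓕] at h2
      obtain ⟨σ, hσ, rfl⟩ := h2
      have h3 : map (σ : Ω →+* Ω) FΩ = FΩ := by
        have h4 : (σ : Ω →+* Ω).comp (algebraMap L Ω) = algebraMap L Ω :=
          RingHom.ext fun z => hσ _ z.2
        rw [hFΩ, map_map, h4]
      obtain ⟨q, hq⟩ := hdiv
      rw [id, ← h3, hq, map_mul]
      exact Dvd.intro _ rfl
    · intro f hf
      have h2 := hT f hf
      rw [h𝓕] at h2
      obtain ⟨σ, hσ, rfl⟩ := h2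
      have h3 : m₂ ∈ (map (σ : Ω →+* Ω) F₁).support := by
        rw [mem_support_iff, coeff_map]
        intro h4
        exact (mem_support_iff.1 h₂) ((σ : Ω →+* Ω).injective (by rw [h4, map_zero]))
      have h4 := monomial_le_degreeOf i₁ h3
      simp only [id]
      omega
  have h𝓕fin : 𝓕.Finite := by
    by_contra hinf
    obtain ⟨T, hT, hTc⟩ := Set.Infinite.exists_subset_card_eq hinf (D + 1)
    have h1 := hfin T (fun f hf => hT hf)
    omega
  have h𝓕c : h𝓕fin.toFinset.card ≤ D := hfin _ fun f hf => (Set.Finite.mem_toFinset _).1 hf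
  have hsub : Orb L (γ : Ω) ⊆ ((h𝓕fin.toFinset.biUnion fun f => (P f).roots.toFinset : Finset Ω) : Set Ω) := by
    rintro z ⟨σ, hσ, rfl⟩
    rw [Finset.mem_coe, Finset.mem_biUnion]
    refine ⟨map (σ : Ω →+* Ω) F₁, ?_, ?_⟩
    · rw [Set.Finite.mem_toFinset, h𝓕]
      exact ⟨σ, hσ, rfl⟩
    · rw [Multiset.mem_toFinset, Polynomial.mem_roots]
      · have h1 := congrArg (σ : Ω →+* Ω) hγroot
        rw [map_zero, ← Polynomial.eval_map_apply] at h1
        rw [hP, PP_map, ← hP]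
        exact h1
      · apply hP0
        rw [coeff_map, hone, map_one]
  unfold dg
  have h1 := Set.ncard_le_ncard hsub (Finset.finite_toSet _)
  rw [Set.ncard_coe_finset] at h1
  refine h1.trans ?_
  refine (Finset.card_biUnion_le_card_mul _ _ (2 * D) fun f _ => ?_).trans (Nat.mul_le_mul_right _ h𝓕c)
  refine (Multiset.toFinset_card_le _).trans ((Polynomial.card_roots' _).trans ?_)
  rw [hP]
  exact PP_deg _ _ _ hnD _

theorem rank_one (L : IntermediateField K Ω) {k : ℕ} (X : Set (Tor Ω k)) (hX : (idl X).IsPrime)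
    (D : ℕ) (F : MvPolynomial (Fin k) L) (hF0 : F ≠ 0) (hFD : ∀ l, F.degreeOf l ≤ D)
    (F₁ : MvPolynomial (Fin k) Ω) (hirr : Irreducible F₁) (hdiv : F₁ ∣ map (algebraMap L Ω) F)
    (hmem : F₁ ∈ idl X)
    (hrk : ∀ m₀ ∈ F₁.support, ∀ m₁ ∈ F₁.support, ∀ m₂ ∈ F₁.support, ∀ i j,
      ((m₁ i : ℤ) - m₀ i) * ((m₂ j : ℤ) - m₀ j) = ((m₁ j : ℤ) - m₀ j) * ((m₂ i : ℤ) - m₀ i)) :
    ∃ (e : Fin k → ℤ) (γ : Ωˣ), e ≠ 0 ∧ (∀ l, |e l| ≤ (D : ℤ)) ∧ (∀ x ∈ X, ch e x = γ) ∧
      dg L (γ : Ω) ≤ D * (2 * D) := by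
  classical
  -- two exponents
  obtain ⟨m₀, h₀⟩ : F₁.support.Nonempty := support_nonempty.2 hirr.ne_zero
  obtain ⟨m₁, h₁, h01⟩ : ∃ m₁ ∈ F₁.support, m₀ ≠ m₁ := by
    by_contra hcon
    push Not at hcon
    obtain ⟨x, hx⟩ := prime_nonempty hX
    have h1 : aeval (crd x) F₁ = 0 := by
      unfold idl at hmem
      rw [mem_vanishingIdeal_iff] at hmem
      exact hmem _ ⟨x, hx, rfl⟩
    rw [aeval_def, eval₂_eq', Finset.sum_eq_single m₀] at h1
    · rcases mul_eq_zero.1 h1 with h2 | h2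
      · exact (mem_support_iff.1 h₀) h2
      · rw [Finset.prod_eq_zero_iff] at h2
        obtain ⟨l, -, h3⟩ := h2
        exact pow_ne_zero _ (Units.ne_zero (x l)) h3
    · intro m hm hne
      exact absurd (hcon m hm).symm hne
    · intro h
      exact absurd h₀ h
  obtain ⟨a, ha⟩ : ∃ a, a = F₁.coeff m₀ := ⟨_, rfl⟩
  have ha0 : a ≠ 0 := by
    rw [ha]
    exact mem_support_iff.1 h₀
  have hu : IsUnit (C a⁻¹ : MvPolynomial (Fin k) Ω) :=
    (isUnit_iff_ne_zero.2 (inv_ne_zero ha0)).map C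
  have hsupp : (C a⁻¹ * F₁).support = F₁.support := by
    ext m
    rw [mem_support_iff, mem_support_iff, coeff_C_mul]
    exact mul_ne_zero_iff_left (inv_ne_zero ha0) |>.trans Iff.rfl
  refine rank_one_aux L X hX D F hF0 hFD (C a⁻¹ * F₁) ((irreducible_isUnit_mul hu).2 hirr)
    ((hu.mul_left_dvd).2 hdiv) (Ideal.mul_mem_left _ _ hmem) m₀ m₁ (by rw [hsupp]; exact h₀)
    (by rw [hsupp]; exact h₁) h01 ?_ ?_
  · rw [coeff_C_mul, ← ha, inv_mul_cancel₀ ha0]
  · intro m hm i j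
    rw [hsupp] at hm
    exact hrk m₀ h₀ m₁ h₁ m hm i j

end Pool.Agent.H33.TR
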