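import Pool.Agent.H33.TR.Glo
import Pool.Agent.H33.TR.Ker
import Pool.Agent.H33.TR.Elm
import Pool.Agent.H33.TR.Rk1
import Pool.Agent.H33.TR.Ird
import Pool.Agent.H72.PB.HTwist

/-!
# TRANSFER THEOREM, Ind: the claim `P(k)` by induction on the number of variables

`X` irreducible in the torus `G_m^k(Ω)`, all its points of height at most `θ`, `F ≠ 0` with coefficients in `L` vanishing on
`X`, of degree at most `D` in each variable, `C D^C θ ≤ 1`. Then `x^e = γ` on `X` with `e ≠ 0`, `|e_l| ≤ C D^C`,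
`deg_L γ ≤ C D^C`.
Proof: `M + 1 = 4 k D`, `N = (M+1)^k`, `p` prime in `(N², 2 N²]`. By `glo`, `rel_of_det`, `rel_descent` there is `G ≠ 0` with
coefficients in `L`, of degree at most `M`, such that `G(x^p) = 0` on `X`. `F` irreducible over `L` (`irr_factor`). If
`F ∤ G(x^p)`: `elm` and `P(k-1)` for the projection. Otherwise `twist_bound` and `rank_one`.
-/

set_option autoImplicit false
set_option linter.unusedSectionVars false

open MvPolynomial NumberField

namespace Pool.Agent.H33.TR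

open Pool.Agent.H72.PB Pool.Agent.H11.TH

private theorem num_ineq (n D M p : ℕ) (hn : 1 ≤ n) (hD : 1 ≤ D) (hM : M + 1 = 4 * n * D)
    (hp : ((M + 1) ^ n) ^ 2 < p) (θ : ℝ) (hθ : 8 * ((p * M : ℕ) : ℝ) * θ ≤ 1) :
    Real.log (((M + 1) ^ n).factorial : ℕ) + ((M + 1) ^ n : ℕ) * (((p * M : ℕ) : ℝ) * θ) <
      ((M - D + 1) ^ n : ℕ) * Real.log p := by
  obtain ⟨N, hN⟩ : ∃ N : ℕ, N = (M + 1) ^ n := ⟨_, rfl⟩
  rw [← hN] at hp ⊢
  have hN1 : 1 ≤ N := by
    rw [hN]
    exact Nat.one_le_pow _ _ (Nat.succ_pos _)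
  have hNr : (1 : ℝ) ≤ N := by exact_mod_cast hN1
  have hp2 : 2 ≤ p := by nlinarith
  have hpr : (2 : ℝ) ≤ p := by exact_mod_cast hp2
  have hlogp : 0.69 < Real.log p := by
    have h1 := Real.log_two_gt_d9
    have h2 : Real.log 2 ≤ Real.log p := Real.log_le_log (by norm_num) hpr
    linarith
  -- the factorial
  have h1 : Real.log (N.factorial : ℕ) ≤ N * ((1 / 2) * Real.log p) := by
    have e1 : ((N.factorial : ℕ) : ℝ) ≤ (N : ℝ) ^ N := by exact_mod_cast Nat.factorial_le_pow N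
    have e2 : Real.log (N.factorial : ℕ) ≤ N * Real.log N := by
      have := Real.log_le_log (by exact_mod_cast Nat.factorial_pos N) e1
      rwa [Real.log_pow] at this
    have e3 : Real.log N ≤ (1 / 2) * Real.log p := by
      have e4 : ((N : ℝ)) ^ 2 ≤ p := by exact_mod_cast hp.le
      have e5 := Real.log_le_log (by positivity) e4
      rw [Real.log_pow] at e5
      push_cast at e5
      linarith
    exact e2.trans (mul_le_mul_of_nonneg_left e3 (by linarith))
  -- the number of relations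
  have h2 : (3 / 4 : ℝ) * N ≤ ((M - D + 1) ^ n : ℕ) := by
    have hn0 : (0 : ℝ) < n := by exact_mod_cast hn
    have e1 : ((M - D + 1 : ℕ) : ℝ) = (1 + (-(1 / (4 * n)))) * ((M + 1 : ℕ) : ℝ) := by
      have hDM : D ≤ M + 1 := by
        rw [hM]
        nlinarith
      have e2 : M - D + 1 + D = M + 1 := by
        have : D ≤ M := by
          have : 4 * D ≤ 4 * n * D := by nlinarith
          omega
        omega
      have e3 : ((M - D + 1 : ℕ) : ℝ) = ((M + 1 : ℕ) : ℝ) - D := by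
        rw [← e2]
        push_cast
        ring
      rw [e3, hM]
      push_cast
      field_simp
      ring
    have e2 : (-2 : ℝ) ≤ -(1 / (4 * n)) := by
      have : (1 : ℝ) / (4 * n) ≤ 1 := by
        rw [div_le_one (by positivity)]
        have : (1 : ℝ) ≤ n := by exact_mod_cast hn
        linarith
      linarith
    have e3 := one_add_mul_le_pow e2 n
    have e4 : (1 : ℝ) + n * (-(1 / (4 * n))) = 3 / 4 := by
      field_simp
      norm_num
    rw [e4] at e3
    rw [hN]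
    push_cast
    have e5 : ((M - D : ℕ) : ℝ) + 1 = ((M - D + 1 : ℕ) : ℝ) := by push_cast; ring
    rw [e5, e1, mul_pow]
    push_cast
    exact mul_le_mul_of_nonneg_right e3 (by positivity)
  have h3 : (N : ℝ) * (((p * M : ℕ) : ℝ) * θ) ≤ N * (1 / 8) :=
    mul_le_mul_of_nonneg_left (by linarith) (by linarith)
  have h4 : (3 / 4 : ℝ) * N * Real.log p ≤ ((M - D + 1) ^ n : ℕ) * Real.log p :=
    mul_le_mul_of_nonneg_right h2 (by linarith)
  nlinarith

variable (K Ω : Type) [Field K] [NumberField K] [Field Ω] [CharZero Ω] [IsAlgClosed Ω]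
  [Algebra K Ω] [IsGalois K Ω]

/-- the statement `P(k)` with the constant `C` -/
def PT (k C : ℕ) : Prop := ∀ (L : IntermediateField K Ω) (X : Set (Tor Ω k)), (idl X).IsPrime →
  ∀ D : ℕ, 1 ≤ D → ∀ F : MvPolynomial (Fin k) L, F ≠ 0 → (∀ i, F.degreeOf i ≤ D) →
  map (algebraMap L Ω) F ∈ idl X → ∀ θ : ℝ, (∀ x ∈ X, ht x ≤ θ) → ((C * D ^ C : ℕ) : ℝ) * θ ≤ 1 →
  ∃ (e : Fin k → ℤ) (γ : Ωˣ), e ≠ 0 ∧ (∀ l, |e l| ≤ ((C * D ^ C : ℕ) : ℤ)) ∧ (∀ x ∈ X, ch e x = γ) ∧
    dg L (γ : Ω) ≤ C * D ^ C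

theorem pt_zero : PT K Ω 0 1 := by
  intro L X hX D hD F hF0 hFD hF
  exfalso
  obtain ⟨x, hx⟩ := prime_nonempty hX
  rw [mem_idl] at hF
  have h1 := hF x hx
  have h2 : F = C (F.coeff 0) := MvPolynomial.eq_C_of_isEmpty F
  rw [h2, map_C, aeval_C] at h1
  apply hF0
  rw [h2]
  have h3 : F.coeff 0 = 0 := (algebraMap L Ω).injective (by rw [map_zero]; exact h1)
  rw [h3, map_zero]

variable {K Ω}

/-- the auxiliary polynomial -/
theorem aux_poly (L : IntermediateField K Ω) (n D M p : ℕ) (hn : 1 ≤ n) (hD : 1 ≤ D)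
    (hM : M + 1 = 4 * n * D) (hp : p.Prime) (hpN : ((M + 1) ^ n) ^ 2 < p) (X : Set (Tor Ω n))
    (F : MvPolynomial (Fin n) L) (hF0 : F ≠ 0) (hFD : ∀ i, F.degreeOf i ≤ D)
    (hF : map (algebraMap L Ω) F ∈ idl X) (θ : ℝ) (hθ : ∀ x ∈ X, ht x ≤ θ)
    (hθ8 : 8 * ((p * M : ℕ) : ℝ) * θ ≤ 1) :
    ∃ G : MvPolynomial (Fin n) L, G ≠ 0 ∧ (∀ i, G.degreeOf i ≤ M) ∧
      map (algebraMap L Ω) (expand p G) ∈ idl X := by
  classical
  have hDM : D ≤ M := by
    have : 4 * D ≤ 4 * n * D := by nlinarith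
    omega
  have hp2 : p ≠ 2 := by
    have h1 : 4 ≤ M + 1 := by
      rw [hM]
      nlinarith
    have h2 : 4 ≤ (M + 1) ^ n := h1.trans (Nat.le_self_pow (by omega) _)
    nlinarith
  obtain ⟨S, hS⟩ : ∃ S : Set (Bx n M → Ω), S = {s | ∃ (σ : Ω ≃ₐ[K] Ω) (x : Tor Ω n),
    (∀ z ∈ L, σ z = z) ∧ x ∈ X ∧ s = fun m => mn m (crd (mv σ x)) ^ p} := ⟨_, rfl⟩
  have hFX : ∀ (σ : Ω ≃ₐ[K] Ω) (x : Tor Ω n), (∀ z ∈ L, σ z = z) → x ∈ X →
      aeval (crd (mv σ x)) F = 0 := by
    intro σ x hσ hx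
    have h1 := mem_idl.1 hF x hx
    rw [aeval_map_algebraMap] at h1
    have h2 : aeval (crd (mv σ x)) F = σ (aeval (crd x) F) := by
      let τ : Ω →ₐ[L] Ω :=
        { toRingHom := (σ : Ω →+* Ω)
          commutes' := fun z => hσ _ z.2 }
      have h3 : (aeval (crd (mv σ x)) : MvPolynomial (Fin n) L →ₐ[L] Ω) = τ.comp (aeval (crd x)) := by
        apply algHom_ext
        intro l
        rw [aeval_X, AlgHom.comp_apply, aeval_X]
        rfl
      exact congrArg (fun φ => φ F) h3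
    rw [h2, h1, map_zero]
  have hdet : ∀ y : Bx n M → Bx n M → Ω, (∀ i, y i ∈ S) → Matrix.det (Matrix.of y) = 0 := by
    intro y hy
    rw [hS] at hy
    choose σ x hσ hx hyx using hy
    have h1 := glo p hp hp2 hDM (fun m : Bx n D => algebraMap L Ω (F.coeff (bxf m))) ?_
      (fun m => int_all K _) (fun i => crd (mv (σ i) (x i))) (fun i l => int_all K _) ?_ θ ?_
      (num_ineq n D M p hn hD hM hpN θ hθ8)
    · rw [← h1]
      congr 1
      ext i m
      rw [Matrix.of_apply, Matrix.of_apply, hyx i]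
    · intro h
      apply hF0
      refine MvPolynomial.ext _ _ fun m => ?_
      rw [coeff_zero]
      by_contra hne
      obtain ⟨m', hm'⟩ := bxf_surj m fun l =>
        (monomial_le_degreeOf l (mem_support_iff.2 hne)).trans (hFD l)
      have h2 := congrFun h m'
      simp only [Pi.zero_apply] at h2
      rw [hm'] at h2
      exact hne ((algebraMap L Ω).injective (by rw [h2, map_zero]))
    · intro i
      have h2 := hFX (σ i) (x i) (hσ i) (hx i)
      rw [aeval_box F hFD] at h2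
      exact h2
    · intro i
      have h2 : ∑ l, absLogHeight₁ (crd (mv (σ i) (x i)) l) = ht (x i) := by
        unfold ht
        refine Finset.sum_congr rfl fun l _ => ?_
        exact height_map (σ i) _
      rw [h2]
      exact hθ _ (hx i)
  obtain ⟨g, hg0, hg⟩ := rel_descent L S (by
    intro τ hτ s hs
    rw [hS] at hs ⊢
    obtain ⟨σ, x, hσ, hx, rfl⟩ := hs
    refine ⟨σ.trans τ, x, fun z hz => ?_, hx, ?_⟩
    · rw [AlgEquiv.trans_apply, hσ z hz, hτ z hz]
    · funext m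
      rw [map_pow]
      congr 1
      unfold mn
      rw [map_prod]
      refine Finset.prod_congr rfl fun l _ => ?_
      rw [map_pow]
      rfl) (rel_of_det S hdet)
  refine ⟨bxp g, bxp_ne_zero g hg0, bxp_deg g, ?_⟩
  rw [mem_idl]
  intro x hx
  rw [aeval_map_algebraMap, aeval_bxp]
  have h1 := hg (fun m => mn m (crd x) ^ p) (by
    rw [hS]
    refine ⟨AlgEquiv.refl, x, fun z _ => rfl, hx, ?_⟩
    funext m
    rfl)
  exact h1

/-- the step of the recursion for the constants -/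
def nx (k C₀ : ℕ) : ℕ :=
  C₀ * (16 * (4 * (k + 1)) ^ (2 * (k + 1) + 1)) ^ (2 * C₀) + 2 * (2 * (k + 1) + 1) * C₀ +
    16 * (4 * (k + 1)) ^ (2 * (k + 1) + 1) + (2 * (k + 1) + 1) + 2

/-- the constants -/
def cst : ℕ → ℕ
  | 0 => 1
  | k + 1 => nx k (cst k)

theorem pt_succ (k C₀ : ℕ) (h : PT K Ω k C₀) : PT K Ω (k + 1) (nx k C₀) := by
  classical
  obtain ⟨b, hb⟩ : ∃ b : ℕ, b = 2 * (k + 1) + 1 := ⟨_, rfl⟩
  obtain ⟨B, hB⟩ : ∃ B : ℕ, B = 16 * (4 * (k + 1)) ^ b := ⟨_, rfl⟩
  obtain ⟨C, hC⟩ : ∃ C : ℕ, C = C₀ * B ^ (2 * C₀) + 2 * b * C₀ + B + b + 2 := ⟨_, rfl⟩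
  have hnx : nx k C₀ = C := by
    rw [hC, hB, hb]
    rfl
  rw [hnx]
  intro L X hX D hD F hF0 hFD hF θ hθ hCθ
  obtain ⟨x₀, hx₀⟩ := prime_nonempty hX
  have hθ0 : 0 ≤ θ := by
    refine le_trans ?_ (hθ x₀ hx₀)
    unfold ht
    exact Finset.sum_nonneg fun l _ => ht_nonneg _
  -- the size of the constants
  have hmono : ∀ a c : ℕ, a ≤ C → c ≤ C → a * D ^ c ≤ C * D ^ C := by
    intro a c ha hc
    exact Nat.mul_le_mul ha (Nat.pow_le_pow_right hD hc)
  obtain ⟨M, hM⟩ : ∃ M : ℕ, M + 1 = 4 * (k + 1) * D := ⟨4 * (k + 1) * D - 1, by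
    have : 1 ≤ 4 * (k + 1) * D := by nlinarith
    omega⟩
  have hN1 : ((M + 1) ^ (k + 1)) ^ 2 ≠ 0 := by positivity
  obtain ⟨p, hp, hp1, hp2⟩ := Nat.exists_prime_lt_and_le_two_mul _ hN1
  have hMp : M < p := by
    have h1 : M + 1 ≤ (M + 1) ^ (k + 1) := Nat.le_self_pow (by omega) _
    have h2 : 1 ≤ (M + 1) ^ (k + 1) := Nat.one_le_pow _ _ (Nat.succ_pos _)
    nlinarith
  have hDM : D ≤ M := by
    have : 4 * D ≤ 4 * (k + 1) * D := by nlinarith
    omega
  have hpM : 8 * (p * M) ≤ B * D ^ b := by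
    have h1 : p * M ≤ 2 * ((M + 1) ^ (k + 1)) ^ 2 * (M + 1) := Nat.mul_le_mul hp2 (Nat.le_succ M)
    have h2 : 2 * ((M + 1) ^ (k + 1)) ^ 2 * (M + 1) = 2 * ((4 * (k + 1)) ^ b * D ^ b) := by
      rw [hM, hb, mul_assoc, ← pow_mul, ← pow_succ, ← mul_pow]
      congr 2
      ring
    calc 8 * (p * M) ≤ 8 * (2 * ((4 * (k + 1)) ^ b * D ^ b)) := by
          rw [← h2]
          exact Nat.mul_le_mul_left _ h1
      _ = B * D ^ b := by
          rw [hB]
          ring
  have hθ8 : 8 * ((p * M : ℕ) : ℝ) * θ ≤ 1 := by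
    have h1 : 8 * (p * M) ≤ C * D ^ C := hpM.trans (hmono B b (by rw [hC]; omega) (by rw [hC]; omega))
    have h2 : 8 * ((p * M : ℕ) : ℝ) ≤ ((C * D ^ C : ℕ) : ℝ) := by exact_mod_cast h1
    exact (mul_le_mul_of_nonneg_right h2 hθ0).trans hCθ
  -- irreducible over `L`
  have hJ : ((idl X).comap (map (algebraMap L Ω) : MvPolynomial (Fin (k + 1)) L →+* _)).IsPrime :=
    Ideal.comap_isPrime _ _
  obtain ⟨F', hirr, hdvd, hF'⟩ := irr_factor _ hJ F hF0 hF
  have hF'D : ∀ i, F'.degreeOf i ≤ D := fun i => (degreeOf_le_of_dvd hF0 hdvd i).trans (hFD i)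
  rw [Ideal.mem_comap] at hF'
  obtain ⟨G, hG0, hGM, hGX⟩ := aux_poly L (k + 1) D M p (by omega) hD hM hp hp1 X F' hirr.ne_zero hF'D
    hF' θ hθ hθ8
  by_cases hdiv : F' ∣ expand p G
  · -- the case of divisibility
    obtain ⟨F₁, hirr₁, hdvd₁, hF₁⟩ := irr_factor (idl X) hX (map (algebraMap L Ω) F') (by
      intro h0
      exact hirr.ne_zero (map_injective _ (algebraMap L Ω).injective (by rw [h0, map_zero]))) hF'
    have hmap0 : map (algebraMap L Ω) F' ≠ 0 := by
      intro h0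
      exact hirr.ne_zero (map_injective _ (algebraMap L Ω).injective (by rw [h0, map_zero]))
    have hmapD : ∀ (H : MvPolynomial (Fin (k + 1)) L) (l : Fin (k + 1)) (A : ℕ), H.degreeOf l ≤ A →
        (map (algebraMap L Ω) H).degreeOf l ≤ A := by
      intro H l A hA
      rw [degreeOf_le_iff]
      intro m hm
      exact (monomial_le_degreeOf l (support_map_subset (algebraMap L Ω) H hm)).trans hA
    have hF₁D : ∀ l, F₁.degreeOf l ≤ D := fun l =>
      (degreeOf_le_of_dvd hmap0 hdvd₁ l).trans (hmapD F' l D (hF'D l))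
    have hDp : 2 * D ^ 2 < p := by
      have h1 : 4 * D ≤ M + 1 := by
        rw [hM]
        nlinarith
      have h2 : M + 1 ≤ (M + 1) ^ (k + 1) := Nat.le_self_pow (by omega) _
      have h3 : 4 * D ≤ (M + 1) ^ (k + 1) := h1.trans h2
      have h4 : (4 * D) ^ 2 ≤ ((M + 1) ^ (k + 1)) ^ 2 := Nat.pow_le_pow_left h3 2
      nlinarith
    have hrk := rank_one L X hX D F' hirr.ne_zero hF'D F₁ hirr₁ hdvd₁ hF₁
      (fun m₀ h₀ m₁ h₁ m₂ h₂ i j => twist_bound p hp F₁ (map (algebraMap L Ω) G) hirr₁ (by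
        intro h0
        exact hG0 (map_injective _ (algebraMap L Ω).injective (by rw [h0, map_zero]))) (by
        rw [← map_expand]
        exact hdvd₁.trans (map_dvd (map (algebraMap L Ω)) hdiv)) M (fun l => hmapD G l M (hGM l)) hMp D hF₁D hDp
        m₀ m₁ m₂ h₀ h₁ h₂ i j)
    obtain ⟨e, γ, he0, heD, heX, heL⟩ := hrk
    refine ⟨e, γ, he0, fun l => (heD l).trans ?_, heX, heL.trans ?_⟩
    · have h1 := hmono 1 1 (by rw [hC]; omega) (by rw [hC]; omega)
      rw [one_mul, pow_one] at h1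
      exact_mod_cast h1
    · have h1 := hmono 2 2 (by rw [hC]; omega) (by rw [hC]; omega)
      calc D * (2 * D) = 2 * D ^ 2 := by ring
        _ ≤ _ := h1
  · -- elimination
    obtain ⟨i, hi⟩ : ∃ i, F'.degreeOf i ≠ 0 := by
      by_contra hcon
      push Not at hcon
      have h1 : F' = MvPolynomial.C (F'.coeff 0) := by
        refine MvPolynomial.ext _ _ fun m => ?_
        by_cases hm : m = 0
        · rw [hm, coeff_C, if_pos rfl]
        · rw [coeff_C, if_neg (Ne.symm hm)]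
          by_contra hne
          apply hm
          ext l
          have h2 := monomial_le_degreeOf l (mem_support_iff.2 hne)
          rw [hcon l] at h2
          exact Nat.le_zero.1 h2
      have h2 : F'.coeff 0 ≠ 0 := by
        intro h3
        apply hirr.ne_zero
        rw [h1, h3, map_zero]
      apply hirr.not_isUnit
      rw [h1]
      exact (isUnit_iff_ne_zero.2 h2).map MvPolynomial.C
    have hApos : D ≤ p * M := hDM.trans (Nat.le_mul_of_pos_left _ hp.pos)
    obtain ⟨r, hr0, hrD, u, v, huv⟩ := elm F' (expand p G) hirr i hi hdiv (p * M)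
      (fun l => (hF'D l).trans hApos) (fun l => by
        rw [degreeOf_le_iff]
        intro m hm
        rw [support_expand G hp.ne_zero, Finset.mem_image] at hm
        obtain ⟨m', hm', rfl⟩ := hm
        rw [Finsupp.smul_apply, smul_eq_mul]
        exact Nat.mul_le_mul_left _ ((monomial_le_degreeOf l hm').trans (hGM l)))
    obtain ⟨D', hD'⟩ : ∃ D' : ℕ, D' = (B * D ^ b) ^ 2 := ⟨_, rfl⟩
    have hB1 : 1 ≤ B := by
      rw [hB]
      have : 1 ≤ (4 * (k + 1)) ^ b := Nat.one_le_pow _ _ (by omega)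
      omega
    have hD'1 : 1 ≤ D' := by
      rw [hD']
      exact Nat.one_le_pow _ _ (Nat.mul_pos hB1 (pow_pos hD _))
    have hrX : map (algebraMap L Ω) r ∈ idl (prj i '' X) := by
      rw [prj_idl, Ideal.mem_comap]
      change rename i.succAbove (map (algebraMap L Ω) r) ∈ idl X
      rw [← map_rename, huv, map_add, map_mul, map_mul]
      exact (idl X).add_mem (Ideal.mul_mem_right _ _ hF') (Ideal.mul_mem_right _ _ hGX)
    have hkey : C₀ * D' ^ C₀ ≤ C * D ^ C := by
      have h1 : C₀ * D' ^ C₀ = (C₀ * B ^ (2 * C₀)) * D ^ (2 * b * C₀) := by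
        rw [hD', ← pow_mul, mul_pow, ← pow_mul, mul_assoc]
        congr 3
        ring
      rw [h1]
      exact hmono _ _ (by rw [hC]; omega) (by rw [hC]; omega)
    obtain ⟨e, γ, he0, heD, heX, heL⟩ := h L (prj i '' X) (prj_prime i X hX) D' hD'1 r hr0 (fun l => by
      refine (hrD l).trans ?_
      rw [hD']
      have h1 : 2 * (p * M) * (p * M) ≤ (8 * (p * M)) ^ 2 := by nlinarith [Nat.zero_le (p * M)]
      exact h1.trans (Nat.pow_le_pow_left hpM 2)) hrX θ (by
      rintro _ ⟨x, hx, rfl⟩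
      exact (prj_ht i x).trans (hθ x hx)) (by
      have h1 : ((C₀ * D' ^ C₀ : ℕ) : ℝ) ≤ ((C * D ^ C : ℕ) : ℝ) := by exact_mod_cast hkey
      exact (mul_le_mul_of_nonneg_right h1 hθ0).trans hCθ)
    refine ⟨i.insertNth (α := fun _ => ℤ) 0 e, γ, ?_, ?_, ?_, heL.trans hkey⟩
    · intro h0
      apply he0
      funext l
      have h1 := congrFun h0 (i.succAbove l)
      rw [Fin.insertNth_apply_succAbove] at h1
      exact h1
    · intro l
      refine Fin.succAboveCases i ?_ (fun j => ?_) l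
      · rw [Fin.insertNth_apply_same, abs_zero]
        exact Int.natCast_nonneg _
      · rw [Fin.insertNth_apply_succAbove]
        refine (heD j).trans ?_
        exact_mod_cast hkey
    · intro x hx
      rw [prj_ch]
      exact heX _ ⟨x, hx, rfl⟩

variable (K Ω) in
theorem prop_T (k : ℕ) : PT K Ω k (cst k) := by
  induction k with
  | zero => exact pt_zero K Ω
  | succ k ih => exact pt_succ k (cst k) ih

end Pool.Agent.H33.TR
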