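import Pool.Agent.H33.TR.Fin
import Pool.Agent.H36.LE.FinD
import Pool.Agent.H72.PB.OrbB

/-!
# THEOREM L over families of fields, and the transfer to subvarieties of tori

`InRad b s P ι L`: every finite subset of `L` lies in a field `K(x, y)`, `x^m = b`, `[ℚ(x) : ℚ] = m`, at most `s` primes divide `m`,
`log [𝓞_(ℚ(x)) : ℤ[x]] ≤ ι m`, `y` of degree at most `P` over `K(x)`.
`pts`: the bound for points over such `L` (THEOREM L, `Pool.Agent.H36.LE.thmL_adjoin`). `rad_A`, `rad_B`: the bounds for subvarieties.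
-/

set_option autoImplicit false
set_option linter.unusedSectionVars false

open NumberField IntermediateField

namespace Pool.Agent.H33.TR

open Pool.Agent.H72.PB Pool.Agent.H11.TH

/-- Every finite subset of `L` lies in a field `K(x, y)`, `x ^ m = b`, `[ℚ(x) : ℚ] = m`, at most `s` primes divide `m`,
`log (idxZ x) ≤ ι m`, `y` of degree at most `P` over `K(x)`. -/
def InRad {K Ω : Type} [Field K] [Field Ω] [CharZero Ω] [Algebra K Ω] (b s P : ℕ) (ι : ℝ)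
    (L : IntermediateField K Ω) : Prop :=
  ∀ S : Finset Ω, (∀ z ∈ S, z ∈ L) → ∃ (m : ℕ) (x y : Ω), 1 ≤ m ∧ x ^ m = (b : Ω) ∧
    Module.finrank ℚ ℚ⟮x⟯ = m ∧ m.primeFactors.card ≤ s ∧
    Real.log (Pool.Agent.H69.BD.idxZ x) ≤ ι * m ∧
    (∃ p : Polynomial (IntermediateField.adjoin K ({x} : Set Ω)), p ≠ 0 ∧ p.natDegree ≤ P ∧
      Polynomial.aeval y p = 0) ∧
    ∀ z ∈ S, z ∈ IntermediateField.adjoin K ({x, y} : Set Ω)

private theorem deg_range (L M Ω : Type) [Field L] [Field M] [Field Ω] [Algebra L Ω] [Algebra M Ω]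
    (a : Ω) (ha : IsIntegral L a)
    (h : ∀ i, ∃ z : M, algebraMap M Ω z = algebraMap L Ω ((minpoly L a).coeff i)) :
    (minpoly M a).natDegree ≤ (minpoly L a).natDegree := by
  have hl : (minpoly L a).map (algebraMap L Ω) ∈ Polynomial.lifts (algebraMap M Ω) := by
    rw [Polynomial.lifts_iff_coeff_lifts]
    intro i
    rw [Polynomial.coeff_map]
    exact h i
  obtain ⟨q, hq, hqd⟩ := Polynomial.exists_natDegree_eq_of_mem_lifts hl
  rw [Polynomial.natDegree_map] at hqd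
  rw [← hqd]
  have hq0 : q ≠ 0 := by
    rintro rfl
    rw [Polynomial.map_zero] at hq
    exact Polynomial.map_ne_zero (f := algebraMap L Ω) (minpoly.ne_zero ha) hq.symm
  have hev : Polynomial.aeval a q = 0 := by
    rw [Polynomial.aeval_def, ← Polynomial.eval_map, hq, Polynomial.eval_map,
      ← Polynomial.aeval_def]
    exact minpoly.aeval L a
  exact Polynomial.natDegree_le_natDegree (minpoly.degree_le_of_ne_zero M a hq0 hev)

private theorem deg_mul (N Ω : Type) [Field N] [Field Ω] [Algebra N Ω] (y a : Ω)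
    (hy : IsIntegral N y) (ha : IsIntegral N a) :
    (minpoly N a).natDegree ≤ (minpoly N y).natDegree * (minpoly N⟮y⟯ a).natDegree := by
  have : FiniteDimensional N N⟮y⟯ := adjoin.finiteDimensional hy
  have haK : IsIntegral N⟮y⟯ a := ha.tower_top
  have : FiniteDimensional N⟮y⟯ N⟮y⟯⟮a⟯ := adjoin.finiteDimensional haK
  have : FiniteDimensional N N⟮y⟯⟮a⟯ := FiniteDimensional.trans N N⟮y⟯ N⟮y⟯⟮a⟯
  have htow : IsScalarTower N N⟮y⟯⟮a⟯ Ω := IsScalarTower.of_algebraMap_eq fun z => rfl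
  have h2 : minpoly N (AdjoinSimple.gen N⟮y⟯ a) = minpoly N a := by
    have h6 := minpoly.algebraMap_eq (A := N) (B := N⟮y⟯⟮a⟯) (B' := Ω)
      (algebraMap N⟮y⟯⟮a⟯ Ω).injective (AdjoinSimple.gen N⟮y⟯ a)
    rw [← h6]
    rfl
  rw [← h2, ← adjoin.finrank hy, ← adjoin.finrank haK, Module.finrank_mul_finrank]
  exact minpoly.natDegree_le _

/-- the bound for points -/
theorem pts (b : ℕ) (hb : 2 ≤ b) (ι : ℝ) (hι : 0 ≤ ι) : ∃ c : ℝ, 0 < c ∧
    ∀ (K Ω : Type) [Field K] [NumberField K] [Field Ω] [CharZero Ω] [Algebra K Ω]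
      [Algebra.IsAlgebraic K Ω] (s P : ℕ) (L : IntermediateField K Ω), InRad b s P ι L →
      ∀ a : Ω, a ≠ 0 → (∀ k : ℕ, 1 ≤ k → ∀ j : ℤ, a ^ k ≠ (b : Ω) ^ j) →
      c ≤ ((Module.finrank ℚ K * (minpoly L a).natDegree * P + s : ℕ) : ℝ) ^ 400 *
        absLogHeight₁ a := by
  classical
  obtain ⟨c, hc, h⟩ := Pool.Agent.H36.LE.thmL_adjoin b hb ι hι
  refine ⟨c, hc, ?_⟩
  intro K Ω _ _ _ _ _ _ s P L hL a ha0 ha
  have : Algebra.IsAlgebraic ℚ Ω := Algebra.IsAlgebraic.trans ℚ K Ω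
  have haQ : IsIntegral ℚ a := Algebra.IsIntegral.isIntegral a
  have haL : IsIntegral L a := (Algebra.IsIntegral.isIntegral (R := K) a).tower_top
  obtain ⟨m, x, y, hm, hx, hdeg, hs, hidx, ⟨p, hp0, hpP, hpy⟩, hmem⟩ := hL
    ((minpoly L a).coeffs.image fun z : L => (z : Ω)) (by
      intro s hs
      rw [Finset.mem_image] at hs
      obtain ⟨z, -, rfl⟩ := hs
      exact z.2)
  have hyN : IsIntegral K⟮x⟯ y := (Algebra.IsIntegral.isIntegral (R := K) y).tower_top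
  have haN : IsIntegral K⟮x⟯ a := (Algebra.IsIntegral.isIntegral (R := K) a).tower_top
  have hle : ∀ s ∈ IntermediateField.adjoin K ({x, y} : Set Ω), s ∈ K⟮x⟯⟮y⟯ := by
    intro s hs
    have h1 : IntermediateField.adjoin K ({x, y} : Set Ω) ≤ K⟮x⟯⟮y⟯.restrictScalars K := by
      rw [IntermediateField.adjoin_le_iff]
      rintro z (hz | hz)
      · rw [hz]
        exact K⟮x⟯⟮y⟯.algebraMap_mem (AdjoinSimple.gen K x)
      · rw [Set.mem_singleton_iff] at hz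
        rw [hz]
        exact mem_adjoin_simple_self K⟮x⟯ y
    exact h1 hs
  have h1 : (minpoly K⟮x⟯⟮y⟯ a).natDegree ≤ (minpoly L a).natDegree := by
    refine deg_range L K⟮x⟯⟮y⟯ Ω a haL fun i => ?_
    by_cases h0 : (minpoly L a).coeff i = 0
    · exact ⟨0, by rw [h0, map_zero, map_zero]⟩
    · exact ⟨⟨_, hle _ (hmem _ (Finset.mem_image_of_mem _ (Polynomial.coeff_mem_coeffs h0)))⟩, rfl⟩
  have h2 : (minpoly K⟮x⟯ y).natDegree ≤ P :=
    (Polynomial.natDegree_le_natDegree (minpoly.degree_le_of_ne_zero K⟮x⟯ y hp0 hpy)).trans hpP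
  have h3 := deg_mul K⟮x⟯ Ω y a hyN haN
  refine h Ω m (Module.finrank ℚ K * (minpoly L a).natDegree * P) s x a hm hx hdeg hidx hs haQ ?_
    ha0 ha
  refine (Pool.Agent.H69.BD.degQ_le K Ω x a (Pool.Agent.H69.BD.integral_rad b m hm x hx)
    haQ).trans ?_
  rw [mul_assoc]
  refine Nat.mul_le_mul_left _ ?_
  rw [mul_comm (minpoly L a).natDegree]
  exact h3.trans (Nat.mul_le_mul h2 h1)

/-- the degree of `y` is at least one -/
theorem InRad.pos {K Ω : Type} [Field K] [Field Ω] [CharZero Ω] [Algebra K Ω] {b s P : ℕ} {ι : ℝ}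
    {L : IntermediateField K Ω} (h : InRad b s P ι L) : 1 ≤ P := by
  obtain ⟨m, x, y, -, -, -, -, -, ⟨p, hp0, hpP, hpy⟩, -⟩ := h ∅ (by simp)
  by_contra hcon
  have h1 : p.natDegree = 0 := by omega
  rw [Polynomial.eq_C_of_natDegree_eq_zero h1, Polynomial.aeval_C] at hpy
  apply hp0
  rw [Polynomial.eq_C_of_natDegree_eq_zero h1]
  have h2 : p.coeff 0 = 0 := (FaithfulSMul.algebraMap_injective _ Ω) (by rw [hpy, map_zero])
  rw [h2, Polynomial.C_0]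

/-- the bound for points in the form needed for the transfer -/
theorem pts_dg (b : ℕ) (hb : 2 ≤ b) (ι : ℝ) (hι : 0 ≤ ι) : ∃ c : ℝ, 0 < c ∧ c ≤ 1 ∧
    ∀ (K Ω : Type) [Field K] [NumberField K] [Field Ω] [CharZero Ω] [Algebra K Ω]
      [IsGalois K Ω] (s P : ℕ) (L : IntermediateField K Ω), InRad b s P ι L →
      ∀ a : Ω, a ≠ 0 → (∀ k : ℕ, 1 ≤ k → ∀ j : ℤ, a ^ k ≠ (b : Ω) ^ j) →
      c / ((Module.finrank ℚ K * P + s : ℕ) : ℝ) ^ 400 ≤ (dg L a : ℝ) ^ 400 *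
        absLogHeight₁ a := by
  obtain ⟨c, hc, h⟩ := pts b hb ι hι
  refine ⟨min c 1, lt_min hc one_pos, min_le_right _ _, ?_⟩
  intro K Ω _ _ _ _ _ _ s P L hL a ha0 ha
  have hP := hL.pos
  have hK : 1 ≤ Module.finrank ℚ K := Module.finrank_pos
  have h1 := h K Ω s P L hL a ha0 ha
  have haL : IsIntegral L a := (Algebra.IsIntegral.isIntegral (R := K) a).tower_top
  have hd1 : 1 ≤ dg L a := (minpoly.natDegree_pos haL).trans_le (natDegree_le_dg L a)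
  have hpos : (0 : ℝ) < ((Module.finrank ℚ K * P + s : ℕ) : ℝ) := by
    have : 1 ≤ Module.finrank ℚ K * P + s := by nlinarith
    exact_mod_cast this
  rw [div_le_iff₀ (by positivity)]
  have hle : Module.finrank ℚ K * (minpoly L a).natDegree * P + s ≤
      (Module.finrank ℚ K * P + s) * dg L a := by
    have h2 := natDegree_le_dg L a
    calc Module.finrank ℚ K * (minpoly L a).natDegree * P + s
        ≤ Module.finrank ℚ K * dg L a * P + s * dg L a := by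
          refine Nat.add_le_add (Nat.mul_le_mul_right _ (Nat.mul_le_mul_left _ h2)) ?_
          exact Nat.le_mul_of_pos_right _ hd1
      _ = _ := by ring
  have hle' : ((Module.finrank ℚ K * (minpoly L a).natDegree * P + s : ℕ) : ℝ) ^ 400 ≤
      (dg L a : ℝ) ^ 400 * ((Module.finrank ℚ K * P + s : ℕ) : ℝ) ^ 400 := by
    rw [← mul_pow]
    refine pow_le_pow_left₀ (Nat.cast_nonneg _) ?_ _
    rw [← Nat.cast_mul, mul_comm (dg L a)]
    exact Nat.cast_le.2 hle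
  have hh : 0 ≤ absLogHeight₁ a := ht_nonneg a
  calc min c 1 ≤ c := min_le_left _ _
    _ ≤ _ := h1
    _ ≤ ((dg L a : ℝ) ^ 400 * ((Module.finrank ℚ K * P + s : ℕ) : ℝ) ^ 400) *
        absLogHeight₁ a := mul_le_mul_of_nonneg_right hle' hh
    _ = _ := by ring

section

variable {Ω : Type} [Field Ω] [CharZero Ω]

/-- the group generated by `b` -/
def pw (b : ℕ) (hb : 2 ≤ b) : Subgroup Ωˣ :=
  Subgroup.zpowers (Units.mk0 (b : Ω) (by exact_mod_cast (by omega : b ≠ 0)))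

theorem mem_pw (b : ℕ) (hb : 2 ≤ b) (u : Ωˣ) : u ∈ pw b hb ↔ ∃ j : ℤ, (u : Ω) = (b : Ω) ^ j := by
  unfold pw
  rw [Subgroup.mem_zpowers_iff]
  refine exists_congr fun j => ?_
  rw [← Units.val_inj, Units.val_zpow_eq_zpow_val, Units.val_mk0, eq_comm]

end

/-- the constants of the transfer -/
private theorem const_le (n s P : ℕ) (k : ℕ) (c ω θ : ℝ) (hc1 : c ≤ 1)
    (hk : 1 ≤ k * P + s) (hθ : 0 ≤ θ) (hω : 1 ≤ ω) (e : ℕ) (he : 400 ≤ e) (f : ℕ) (hf : f ≤ e)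
    (h : min 1 (c / ((k * P + s : ℕ) : ℝ) ^ 400) / ((cst n : ℝ) + 1) ^ 401 ≤ ω ^ f * θ) :
    c / ((cst n : ℝ) + 1) ^ 401 ≤ (((k * P + s : ℕ) : ℝ) * ω) ^ e * θ := by
  have hq : (1 : ℝ) ≤ ((k * P + s : ℕ) : ℝ) := by exact_mod_cast hk
  obtain ⟨q, hqq⟩ : ∃ q : ℝ, q = ((k * P + s : ℕ) : ℝ) := ⟨_, rfl⟩
  rw [← hqq] at hq h ⊢
  have hq400 : 1 ≤ q ^ 400 := one_le_pow₀ hq
  have h1 : min 1 (c / q ^ 400) = c / q ^ 400 :=
    min_eq_right ((div_le_one (by linarith)).2 (hc1.trans hq400))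
  rw [h1, div_div, mul_comm (q ^ 400), ← div_div, div_le_iff₀ (by linarith)] at h
  refine h.trans ?_
  have h2 : ω ^ f ≤ ω ^ e := pow_le_pow_right₀ hω hf
  have h3 : q ^ 400 ≤ q ^ e := pow_le_pow_right₀ hq he
  calc ω ^ f * θ * q ^ 400 = (q ^ 400 * ω ^ f) * θ := by ring
    _ ≤ (q ^ e * ω ^ e) * θ := by
        refine mul_le_mul_of_nonneg_right ?_ hθ
        exact mul_le_mul h3 h2 (by positivity) (by positivity)
    _ = (q * ω) ^ e * θ := by rw [mul_pow]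

private theorem theta_nonneg {Ω : Type} [Field Ω] [CharZero Ω] {n : ℕ} (V : Set (Tor Ω n))
    (hV : (idl V).IsPrime) (θ : ℝ) (hθ : idl {x | x ∈ V ∧ ht x ≤ θ} ≤ idl V) : 0 ≤ θ := by
  obtain ⟨x, hx⟩ : {x | x ∈ V ∧ ht x ≤ θ}.Nonempty := by
    by_contra hcon
    rw [Set.not_nonempty_iff_eq_empty] at hcon
    rw [hcon] at hθ
    apply hV.ne_top
    rw [eq_top_iff]
    refine le_trans ?_ hθ
    intro f _
    rw [mem_idl]
    intro x hx
    exact absurd hx (Set.notMem_empty x)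
  refine le_trans ?_ hx.2
  unfold ht
  exact Finset.sum_nonneg fun l _ => ht_nonneg _

/-- the exponent of the final bounds -/
def expo (n : ℕ) : ℕ := 401 * ((n + 1) * (cst n + 1))

private theorem expo_ge (n : ℕ) : 400 ≤ expo n := by
  unfold expo
  have h1 : 1 ≤ (n + 1) * (cst n + 1) := Nat.mul_pos (Nat.succ_pos _) (Nat.succ_pos _)
  have h2 : 401 * 1 ≤ 401 * ((n + 1) * (cst n + 1)) := Nat.mul_le_mul_left _ h1
  exact le_trans (by norm_num) h2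

private theorem expo_A (n : ℕ) : cst n * (400 + 1) ≤ expo n := by
  unfold expo
  obtain ⟨q, hq⟩ : ∃ q : ℕ, q = cst n := ⟨_, rfl⟩
  rw [← hq, mul_comm]
  refine Nat.mul_le_mul_left _ ?_
  calc q ≤ q + 1 := Nat.le_succ q
    _ ≤ (n + 1) * (q + 1) := Nat.le_mul_of_pos_left _ (Nat.succ_pos n)

private theorem expo_B (n : ℕ) : n * (cst n * (400 + 1)) ≤ expo n := by
  unfold expo
  obtain ⟨q, hq⟩ : ∃ q : ℕ, q = cst n := ⟨_, rfl⟩
  rw [← hq]
  calc n * (q * (400 + 1)) = 401 * (n * q) := by ring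
    _ ≤ 401 * ((n + 1) * (q + 1)) :=
      Nat.mul_le_mul_left _ (Nat.mul_le_mul (Nat.le_succ n) (Nat.le_succ q))

/-- subvarieties with an equation over `L` -/
theorem rad_A (n b : ℕ) (hb : 2 ≤ b) (ι : ℝ) (hι : 0 ≤ ι) : ∃ c : ℝ, 0 < c ∧
    ∀ (K Ω : Type) [Field K] [NumberField K] [Field Ω] [CharZero Ω] [IsAlgClosed Ω] [Algebra K Ω]
      [IsGalois K Ω] (s P : ℕ) (L : IntermediateField K Ω), InRad b s P ι L →
      ∀ Γ : Subgroup (Tor Ω n), (∀ x : Tor Ω n, (∀ l, ∃ j : ℤ, (x l : Ω) = (b : Ω) ^ j) → x ∈ Γ) →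
      ∀ V : Set (Tor Ω n), (idl V).IsPrime → Transv K Γ V → ∀ D : ℕ, 1 ≤ D →
      ∀ F : MvPolynomial (Fin n) L, F ≠ 0 → (∀ i, F.degreeOf i ≤ D) →
      MvPolynomial.map (algebraMap L Ω) F ∈ idl V →
      ∀ θ : ℝ, idl {x | x ∈ V ∧ ht x ≤ θ} ≤ idl V →
      c ≤ (((Module.finrank ℚ K * P + s : ℕ) : ℝ) * D) ^ expo n * θ := by
  obtain ⟨c, hc, hc1, h⟩ := pts_dg b hb ι hι
  refine ⟨c / ((cst n : ℝ) + 1) ^ 401, by positivity, ?_⟩
  intro K Ω _ _ _ _ _ _ _ s P L hL Γ hΓ V hV htr D hD F hF0 hFD hF θ hθ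
  have h1 := tr_A K n 400 (c / ((Module.finrank ℚ K * P + s : ℕ) : ℝ) ^ 400) (pw b hb) L
    (fun γ hγ => h K Ω s P L hL (γ : Ω) γ.ne_zero fun k hk j hj => hγ k hk
      ((mem_pw b hb _).2 ⟨j, (Units.val_pow_eq_pow_val γ k).trans hj⟩)) Γ
    (fun x hx => hΓ x fun l => (mem_pw b hb _).1 (hx l)) V hV htr D hD F hF0 hFD hF θ hθ
  have hP := hL.pos
  have hK : 1 ≤ Module.finrank ℚ K := Module.finrank_pos
  exact const_le n s P (Module.finrank ℚ K) c D θ hc1 (by nlinarith)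
    (theta_nonneg V hV θ hθ) (by exact_mod_cast hD) (expo n) (expo_ge n) _ (expo_A n) h1

/-- all subvarieties -/
theorem rad_B (n b : ℕ) (hb : 2 ≤ b) (ι : ℝ) (hι : 0 ≤ ι) : ∃ c : ℝ, 0 < c ∧
    ∀ (K Ω : Type) [Field K] [NumberField K] [Field Ω] [CharZero Ω] [IsAlgClosed Ω] [Algebra K Ω]
      [IsGalois K Ω] (s P : ℕ) (L : IntermediateField K Ω), InRad b s P ι L →
      ∀ Γ : Subgroup (Tor Ω n), (∀ x : Tor Ω n, (∀ l, ∃ j : ℤ, (x l : Ω) = (b : Ω) ^ j) → x ∈ Γ) →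
      ∀ V : Set (Tor Ω n), (idl V).IsPrime → Transv K Γ V →
      ∀ (Z : Set (Tor Ω n)) (d' : ℕ) (δ ω : ℝ), ClosedOver L Z → Z ≠ Set.univ →
        Equidim Z d' → HasDeg Z d' δ → V ⊆ Z → δ ^ (1 / ((n : ℝ) - d')) ≤ ω →
      ∀ θ : ℝ, idl {x | x ∈ V ∧ ht x ≤ θ} ≤ idl V →
      c ≤ (((Module.finrank ℚ K * P + s : ℕ) : ℝ) * ω) ^ expo n * θ := by
  obtain ⟨c, hc, hc1, h⟩ := pts_dg b hb ι hι
  refine ⟨c / ((cst n : ℝ) + 1) ^ 401, by positivity, ?_⟩
  intro K Ω _ _ _ _ _ _ _ s P L hL Γ hΓ V hV htr Z d' δ ω hZ hZne hZd hZδ hVZ hω θ hθ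
  obtain ⟨hω1, h1⟩ := tr_B K n 400 (c / ((Module.finrank ℚ K * P + s : ℕ) : ℝ) ^ 400) (pw b hb)
    L (fun γ hγ => h K Ω s P L hL (γ : Ω) γ.ne_zero fun k hk j hj => hγ k hk
      ((mem_pw b hb _).2 ⟨j, (Units.val_pow_eq_pow_val γ k).trans hj⟩)) Γ
    (fun x hx => hΓ x fun l => (mem_pw b hb _).1 (hx l)) V hV htr Z d' δ ω hZ hZne hZd
    hZδ hVZ hω θ hθ
  have hP := hL.pos
  have hK : 1 ≤ Module.finrank ℚ K := Module.finrank_pos
  exact const_le n s P (Module.finrank ℚ K) c ω θ hc1 (by nlinarith)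
    (theta_nonneg V hV θ hθ) hω1 (expo n) (expo_ge n) _ (expo_B n) h1

end Pool.Agent.H33.TR
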