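import Pool.Agent.H33.TR.Rad
import Pool.Agent.H36.LF.FdA
import Pool.Agent.H11.BE.FamY

/-!
# THEOREM L with roots of unity over families of fields, and the transfer to subvarieties of tori

`InRadF b s P ι L`: every finite subset of `L` lies in a field `K(ξ, x, y)`, `ξ^n = 1`, `x^m = b`, `[ℚ(x) : ℚ] = m`, at most `s` primes
divide `m`, `log [𝓞_(ℚ(x)) : ℤ[x]] ≤ ι m`, `y` of degree at most `P` over `K(ξ, x)`, and `n = 1` or `b` is squarefree and `n` prime to `m b`.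
`ptsF`: the bound for points over such `L` (THEOREM L: `Pool.Agent.H36.LE.thmL_adjoin`, `Pool.Agent.H36.LF.thmL_roots`).
`rad_AF`, `rad_BF`: the bounds for subvarieties.
-/

set_option autoImplicit false
set_option linter.unusedSectionVars false

open NumberField IntermediateField

namespace Pool.Agent.H33.TR

open Pool.Agent.H72.PB Pool.Agent.H11.TH

/-- Every finite subset of `L` lies in a field `K(ξ, x, y)`, `ξ ^ n = 1`, `x ^ m = b`, `[ℚ(x) : ℚ] = m`, at most `s` primes divide `m`,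
`log (idxZ x) ≤ ι m`, `n = 1` or `b` is squarefree and `n` prime to `m b`, `y` of degree at most `P` over `K(ξ, x)`. -/
def InRadF {K Ω : Type} [Field K] [Field Ω] [CharZero Ω] [Algebra K Ω] (b s P : ℕ) (ι : ℝ)
    (L : IntermediateField K Ω) : Prop :=
  ∀ S : Finset Ω, (∀ z ∈ S, z ∈ L) → ∃ (m n : ℕ) (ξ x y : Ω), 1 ≤ m ∧ 1 ≤ n ∧ ξ ^ n = 1 ∧
    x ^ m = (b : Ω) ∧ Module.finrank ℚ ℚ⟮x⟯ = m ∧ m.primeFactors.card ≤ s ∧
    Real.log (Pool.Agent.H69.BD.idxZ x) ≤ ι * m ∧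
    (n = 1 ∨ Squarefree b ∧ Nat.Coprime n (m * b)) ∧
    (∃ p : Polynomial (IntermediateField.adjoin K ({ξ, x} : Set Ω)), p ≠ 0 ∧ p.natDegree ≤ P ∧
      Polynomial.aeval y p = 0) ∧
    ∀ z ∈ S, z ∈ IntermediateField.adjoin K ({ξ, x, y} : Set Ω)

private theorem pair_eq {Ω : Type} (ξ x : Ω) : ({ξ} ∪ Set.range ![x] : Set Ω) = {ξ, x} := by
  ext z
  constructor
  · rintro (h | ⟨i, rfl⟩)
    · exact Or.inl h
    · obtain rfl : i = 0 := Subsingleton.elim _ _
      exact Or.inr rfl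
  · rintro (h | h)
    · exact Or.inl h
    · exact Or.inr ⟨0, h.symm⟩

/-- the bound for points -/
theorem ptsF (b : ℕ) (hb : 2 ≤ b) (ι : ℝ) (hι : 0 ≤ ι) : ∃ c : ℝ, 0 < c ∧
    ∀ (K Ω : Type) [Field K] [NumberField K] [Field Ω] [CharZero Ω] [IsAlgClosed Ω] [Algebra K Ω]
      [Algebra.IsAlgebraic K Ω] (s P : ℕ) (L : IntermediateField K Ω), InRadF b s P ι L →
      ∀ a : Ω, a ≠ 0 → (∀ k : ℕ, 1 ≤ k → ∀ j : ℤ, a ^ k ≠ (b : Ω) ^ j) →
      c ≤ ((Module.finrank ℚ K * (minpoly L a).natDegree * P + s : ℕ) : ℝ) ^ 400 *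
        absLogHeight₁ a := by
  classical
  obtain ⟨c, hc, h⟩ := Pool.Agent.H36.LE.thmL_adjoin b hb ι hι
  obtain ⟨c', hc', h'⟩ := Pool.Agent.H36.LF.thmL_roots b hb ι hι
  refine ⟨min c c', lt_min hc hc', ?_⟩
  intro K Ω _ _ _ _ _ _ _ s P L hL a ha0 ha
  have : Algebra.IsAlgebraic ℚ Ω := Algebra.IsAlgebraic.trans ℚ K Ω
  have haQ : IsIntegral ℚ a := Algebra.IsIntegral.isIntegral a
  have haL : IsIntegral L a := (Algebra.IsIntegral.isIntegral (R := K) a).tower_top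
  obtain ⟨m, n, ξ, x, y, hm, hn, hξ, hx, hdeg, hs, hidx, halt, ⟨p, hp0, hpP, hpy⟩, hmem⟩ := hL
    ((minpoly L a).coeffs.image fun z : L => (z : Ω)) (by
      intro s hs
      rw [Finset.mem_image] at hs
      obtain ⟨z, -, rfl⟩ := hs
      exact z.2)
  have hhn : 0 ≤ absLogHeight₁ a := ht_nonneg a
  have hfin : FiniteDimensional ℚ (Pool.Agent.H11.BE.fld ξ ![x]) := by
    unfold Pool.Agent.H11.BE.fld
    have hf : Finite (({ξ} ∪ Set.range ![x] : Set Ω)) :=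
      ((Set.finite_singleton ξ).union (Set.finite_range ![x])).to_subtype
    refine IntermediateField.finiteDimensional_adjoin (S := {ξ} ∪ Set.range ![x]) ?_
    intro y _
    exact Algebra.IsIntegral.isIntegral y
  set N : IntermediateField K Ω := IntermediateField.adjoin K ({ξ, x} : Set Ω) with hN
  have hyN : IsIntegral N y := (Algebra.IsIntegral.isIntegral (R := K) y).tower_top
  have haN : IsIntegral N a := (Algebra.IsIntegral.isIntegral (R := K) a).tower_top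
  have hle : ∀ s ∈ IntermediateField.adjoin K ({ξ, x, y} : Set Ω), s ∈ N⟮y⟯ := by
    intro s hs
    have h1 : IntermediateField.adjoin K ({ξ, x, y} : Set Ω) ≤ N⟮y⟯.restrictScalars K := by
      rw [IntermediateField.adjoin_le_iff]
      rintro z (hz | hz | hz)
      · exact N⟮y⟯.algebraMap_mem ⟨z, subset_adjoin K _ (Or.inl hz)⟩
      · exact N⟮y⟯.algebraMap_mem ⟨z, subset_adjoin K _ (Or.inr hz)⟩
      · rw [Set.mem_singleton_iff] at hz
        rw [hz]
        exact mem_adjoin_simple_self N y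
    exact h1 hs
  have h1 : (minpoly N⟮y⟯ a).natDegree ≤ (minpoly L a).natDegree := by
    refine Pool.Agent.H11.BE.deg_le_range L N⟮y⟯ Ω a haL fun i => ?_
    by_cases h0 : (minpoly L a).coeff i = 0
    · exact ⟨0, by rw [h0, map_zero, map_zero]⟩
    · exact ⟨⟨_, hle _ (hmem _ (Finset.mem_image_of_mem _ (Polynomial.coeff_mem_coeffs h0)))⟩, rfl⟩
  have h2 : (minpoly N y).natDegree ≤ P :=
    (Polynomial.natDegree_le_natDegree (minpoly.degree_le_of_ne_zero N y hp0 hpy)).trans hpP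
  have h3 := Pool.Agent.H11.BE.deg_mul_le N Ω y a hyN haN
  have hlev := Pool.Agent.H11.BE.deg_lev K Ω ξ ![x] hfin a
  have hNN : (minpoly (IntermediateField.adjoin K ({ξ} ∪ Set.range ![x])) a).natDegree =
      (minpoly N a).natDegree := by
    rw [hN, pair_eq]
  rw [hNN] at hlev
  have hd : Pool.Agent.H11.BE.dgr ξ ![x] a ≤
      Module.finrank ℚ K * (minpoly L a).natDegree * P := by
    refine hlev.trans ?_
    rw [mul_assoc]
    refine Nat.mul_le_mul_left _ ?_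
    rw [mul_comm (minpoly L a).natDegree]
    exact h3.trans (Nat.mul_le_mul h2 h1)
  rcases halt with rfl | ⟨hsq, hcop⟩
  · rw [pow_one] at hξ
    subst hξ
    have hfl : Pool.Agent.H11.BE.fld (1 : Ω) ![x] = ℚ⟮x⟯ := by
      unfold Pool.Agent.H11.BE.fld
      rw [pair_eq]
      apply le_antisymm
      · rw [adjoin_le_iff]
        rintro z (hz | hz)
        · rw [hz]
          exact one_mem _
        · rw [Set.mem_singleton_iff] at hz
          rw [hz]
          exact mem_adjoin_simple_self ℚ x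
      · rw [adjoin_simple_le_iff]
        exact subset_adjoin ℚ _ (Or.inr rfl)
    have hd' : (minpoly ℚ⟮x⟯ a).natDegree ≤ Module.finrank ℚ K * (minpoly L a).natDegree * P := by
      have h5 : Pool.Agent.H11.BE.dgr (1 : Ω) ![x] a = (minpoly ℚ⟮x⟯ a).natDegree := by
        unfold Pool.Agent.H11.BE.dgr
        rw [hfl]
      rw [← h5]
      exact hd
    exact (min_le_left _ _).trans (h Ω m (Module.finrank ℚ K * (minpoly L a).natDegree * P) s x a
      hm hx hdeg hidx hs haQ hd' ha0 ha)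
  · have hfo : IsOfFinOrder ξ := isOfFinOrder_iff_pow_eq_one.2 ⟨n, by omega, hξ⟩
    have hdvd : orderOf ξ ∣ n := orderOf_dvd_of_pow_eq_one hξ
    have hD : Pool.Agent.H72.BE.Dat ![b] ![m] (orderOf ξ) ξ ![x] :=
      { two := fun i => by
          obtain rfl : i = 0 := Subsingleton.elim _ _
          exact hb
        sqf := fun i => by
          obtain rfl : i = 0 := Subsingleton.elim _ _
          exact hsq
        cb := fun i j hij => absurd (Subsingleton.elim i j) hij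
        cn := fun i => by
          obtain rfl : i = 0 := Subsingleton.elim _ _
          exact Nat.Coprime.coprime_dvd_left hdvd hcop
        hn := hfo.orderOf_pos
        hm := fun i => by
          obtain rfl : i = 0 := Subsingleton.elim _ _
          exact hm
        prim := IsPrimitiveRoot.orderOf ξ
        pow := fun i => by
          obtain rfl : i = 0 := Subsingleton.elim _ _
          exact hx }
    exact (min_le_right _ _).trans (h' Ω m (orderOf ξ)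
      (Module.finrank ℚ K * (minpoly L a).natDegree * P) s ξ x a hD hidx hs hd ha0 ha)

/-- the degree of `y` is at least one -/
theorem InRadF.pos {K Ω : Type} [Field K] [Field Ω] [CharZero Ω] [Algebra K Ω] {b s P : ℕ} {ι : ℝ}
    {L : IntermediateField K Ω} (h : InRadF b s P ι L) : 1 ≤ P := by
  obtain ⟨m, n, ξ, x, y, -, -, -, -, -, -, -, -, ⟨p, hp0, hpP, hpy⟩, -⟩ := h ∅ (by simp)
  by_contra hcon
  have h1 : p.natDegree = 0 := by omega
  rw [Polynomial.eq_C_of_natDegree_eq_zero h1, Polynomial.aeval_C] at hpy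
  apply hp0
  rw [Polynomial.eq_C_of_natDegree_eq_zero h1]
  have h2 : p.coeff 0 = 0 := (FaithfulSMul.algebraMap_injective _ Ω) (by rw [hpy, map_zero])
  rw [h2, Polynomial.C_0]

/-- the bound for points in the form needed for the transfer -/
theorem pts_dgF (b : ℕ) (hb : 2 ≤ b) (ι : ℝ) (hι : 0 ≤ ι) : ∃ c : ℝ, 0 < c ∧ c ≤ 1 ∧
    ∀ (K Ω : Type) [Field K] [NumberField K] [Field Ω] [CharZero Ω] [IsAlgClosed Ω] [Algebra K Ω]
      [IsGalois K Ω] (s P : ℕ) (L : IntermediateField K Ω), InRadF b s P ι L →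
      ∀ a : Ω, a ≠ 0 → (∀ k : ℕ, 1 ≤ k → ∀ j : ℤ, a ^ k ≠ (b : Ω) ^ j) →
      c / ((Module.finrank ℚ K * P + s : ℕ) : ℝ) ^ 400 ≤ (dg L a : ℝ) ^ 400 *
        absLogHeight₁ a := by
  obtain ⟨c, hc, h⟩ := ptsF b hb ι hι
  refine ⟨min c 1, lt_min hc one_pos, min_le_right _ _, ?_⟩
  intro K Ω _ _ _ _ _ _ _ s P L hL a ha0 ha
  have hP := hL.pos
  have hK : 1 ≤ Module.finrank ℚ K := Module.finrank_pos
  have h1 := h K Ω s P L hL a ha0 ha
  have haL : IsIntegral L a := (Algebra.IsIntegral.isIntegral (R := K) a).tower_top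
  have hd1 : 1 ≤ dg L a := (minpoly.natDegree_pos haL).trans_le (natDegree_le_dg L a)
  have hpos : (0 : ℝ) < ((Module.finrank ℚ K * P + s : ℕ) : ℝ) := by
    have : 1 ≤ Module.finrank ℚ K * P + s := by nlinarith
    exact_mod_cast this
  rw [div_le_iff₀ (by positivity)]
  have hle : Module.finrank ℚ K * (minpoly L a).natDegree * P + s ≤
      (Module.finrank ℚ K * P + s) * dg L a := by
    have h2 := natDegree_le_dg L a
    calc Module.finrank ℚ K * (minpoly L a).natDegree * P + s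
        ≤ Module.finrank ℚ K * dg L a * P + s * dg L a := by
          refine Nat.add_le_add (Nat.mul_le_mul_right _ (Nat.mul_le_mul_left _ h2)) ?_
          exact Nat.le_mul_of_pos_right _ hd1
      _ = _ := by ring
  have hle' : ((Module.finrank ℚ K * (minpoly L a).natDegree * P + s : ℕ) : ℝ) ^ 400 ≤
      (dg L a : ℝ) ^ 400 * ((Module.finrank ℚ K * P + s : ℕ) : ℝ) ^ 400 := by
    rw [← mul_pow]
    refine pow_le_pow_left₀ (Nat.cast_nonneg _) ?_ _
    rw [← Nat.cast_mul, mul_comm (dg L a)]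
    exact Nat.cast_le.2 hle
  have hh : 0 ≤ absLogHeight₁ a := ht_nonneg a
  calc min c 1 ≤ c := min_le_left _ _
    _ ≤ _ := h1
    _ ≤ ((dg L a : ℝ) ^ 400 * ((Module.finrank ℚ K * P + s : ℕ) : ℝ) ^ 400) *
        absLogHeight₁ a := mul_le_mul_of_nonneg_right hle' hh
    _ = _ := by ring

/-- the constants of the transfer -/
private theorem const_le (n s P : ℕ) (k : ℕ) (c ω θ : ℝ) (hc1 : c ≤ 1)
    (hk : 1 ≤ k * P + s) (hθ : 0 ≤ θ) (hω : 1 ≤ ω) (e : ℕ) (he : 400 ≤ e) (f : ℕ) (hf : f ≤ e)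
    (h : min 1 (c / ((k * P + s : ℕ) : ℝ) ^ 400) / ((cst n : ℝ) + 1) ^ 401 ≤ ω ^ f * θ) :
    c / ((cst n : ℝ) + 1) ^ 401 ≤ (((k * P + s : ℕ) : ℝ) * ω) ^ e * θ := by
  have hq : (1 : ℝ) ≤ ((k * P + s : ℕ) : ℝ) := by exact_mod_cast hk
  obtain ⟨q, hqq⟩ : ∃ q : ℝ, q = ((k * P + s : ℕ) : ℝ) := ⟨_, rfl⟩
  rw [← hqq] at hq h ⊢
  have hq400 : 1 ≤ q ^ 400 := one_le_pow₀ hq
  have h1 : min 1 (c / q ^ 400) = c / q ^ 400 :=
    min_eq_right ((div_le_one (by linarith)).2 (hc1.trans hq400))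
  rw [h1, div_div, mul_comm (q ^ 400), ← div_div, div_le_iff₀ (by linarith)] at h
  refine h.trans ?_
  have h2 : ω ^ f ≤ ω ^ e := pow_le_pow_right₀ hω hf
  have h3 : q ^ 400 ≤ q ^ e := pow_le_pow_right₀ hq he
  calc ω ^ f * θ * q ^ 400 = (q ^ 400 * ω ^ f) * θ := by ring
    _ ≤ (q ^ e * ω ^ e) * θ := by
        refine mul_le_mul_of_nonneg_right ?_ hθ
        exact mul_le_mul h3 h2 (by positivity) (by positivity)
    _ = (q * ω) ^ e * θ := by rw [mul_pow]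

private theorem theta_nonneg {Ω : Type} [Field Ω] [CharZero Ω] {n : ℕ} (V : Set (Tor Ω n))
    (hV : (idl V).IsPrime) (θ : ℝ) (hθ : idl {x | x ∈ V ∧ ht x ≤ θ} ≤ idl V) : 0 ≤ θ := by
  obtain ⟨x, hx⟩ : {x | x ∈ V ∧ ht x ≤ θ}.Nonempty := by
    by_contra hcon
    rw [Set.not_nonempty_iff_eq_empty] at hcon
    rw [hcon] at hθ
    apply hV.ne_top
    rw [eq_top_iff]
    refine le_trans ?_ hθ
    intro f _
    rw [mem_idl]
    intro x hx
    exact absurd hx (Set.notMem_empty x)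
  refine le_trans ?_ hx.2
  unfold ht
  exact Finset.sum_nonneg fun l _ => ht_nonneg _

private theorem expo_ge (n : ℕ) : 400 ≤ expo n := by
  unfold expo
  have h1 : 1 ≤ (n + 1) * (cst n + 1) := Nat.mul_pos (Nat.succ_pos _) (Nat.succ_pos _)
  have h2 : 401 * 1 ≤ 401 * ((n + 1) * (cst n + 1)) := Nat.mul_le_mul_left _ h1
  exact le_trans (by norm_num) h2

private theorem expo_A (n : ℕ) : cst n * (400 + 1) ≤ expo n := by
  unfold expo
  obtain ⟨q, hq⟩ : ∃ q : ℕ, q = cst n := ⟨_, rfl⟩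
  rw [← hq, mul_comm]
  refine Nat.mul_le_mul_left _ ?_
  calc q ≤ q + 1 := Nat.le_succ q
    _ ≤ (n + 1) * (q + 1) := Nat.le_mul_of_pos_left _ (Nat.succ_pos n)

private theorem expo_B (n : ℕ) : n * (cst n * (400 + 1)) ≤ expo n := by
  unfold expo
  obtain ⟨q, hq⟩ : ∃ q : ℕ, q = cst n := ⟨_, rfl⟩
  rw [← hq]
  calc n * (q * (400 + 1)) = 401 * (n * q) := by ring
    _ ≤ 401 * ((n + 1) * (q + 1)) :=
      Nat.mul_le_mul_left _ (Nat.mul_le_mul (Nat.le_succ n) (Nat.le_succ q))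

/-- subvarieties with an equation over `L` -/
theorem rad_AF (n b : ℕ) (hb : 2 ≤ b) (ι : ℝ) (hι : 0 ≤ ι) : ∃ c : ℝ, 0 < c ∧
    ∀ (K Ω : Type) [Field K] [NumberField K] [Field Ω] [CharZero Ω] [IsAlgClosed Ω] [Algebra K Ω]
      [IsGalois K Ω] (s P : ℕ) (L : IntermediateField K Ω), InRadF b s P ι L →
      ∀ Γ : Subgroup (Tor Ω n), (∀ x : Tor Ω n, (∀ l, ∃ j : ℤ, (x l : Ω) = (b : Ω) ^ j) → x ∈ Γ) →
      ∀ V : Set (Tor Ω n), (idl V).IsPrime → Transv K Γ V → ∀ D : ℕ, 1 ≤ D →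
      ∀ F : MvPolynomial (Fin n) L, F ≠ 0 → (∀ i, F.degreeOf i ≤ D) →
      MvPolynomial.map (algebraMap L Ω) F ∈ idl V →
      ∀ θ : ℝ, idl {x | x ∈ V ∧ ht x ≤ θ} ≤ idl V →
      c ≤ (((Module.finrank ℚ K * P + s : ℕ) : ℝ) * D) ^ expo n * θ := by
  obtain ⟨c, hc, hc1, h⟩ := pts_dgF b hb ι hι
  refine ⟨c / ((cst n : ℝ) + 1) ^ 401, by positivity, ?_⟩
  intro K Ω _ _ _ _ _ _ _ s P L hL Γ hΓ V hV htr D hD F hF0 hFD hF θ hθ
  have h1 := tr_A K n 400 (c / ((Module.finrank ℚ K * P + s : ℕ) : ℝ) ^ 400) (pw b hb) L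
    (fun γ hγ => h K Ω s P L hL (γ : Ω) γ.ne_zero fun k hk j hj => hγ k hk
      ((mem_pw b hb _).2 ⟨j, (Units.val_pow_eq_pow_val γ k).trans hj⟩)) Γ
    (fun x hx => hΓ x fun l => (mem_pw b hb _).1 (hx l)) V hV htr D hD F hF0 hFD hF θ hθ
  have hP := hL.pos
  have hK : 1 ≤ Module.finrank ℚ K := Module.finrank_pos
  exact const_le n s P (Module.finrank ℚ K) c D θ hc1 (by nlinarith)
    (theta_nonneg V hV θ hθ) (by exact_mod_cast hD) (expo n) (expo_ge n) _ (expo_A n) h1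

/-- all subvarieties -/
theorem rad_BF (n b : ℕ) (hb : 2 ≤ b) (ι : ℝ) (hι : 0 ≤ ι) : ∃ c : ℝ, 0 < c ∧
    ∀ (K Ω : Type) [Field K] [NumberField K] [Field Ω] [CharZero Ω] [IsAlgClosed Ω] [Algebra K Ω]
      [IsGalois K Ω] (s P : ℕ) (L : IntermediateField K Ω), InRadF b s P ι L →
      ∀ Γ : Subgroup (Tor Ω n), (∀ x : Tor Ω n, (∀ l, ∃ j : ℤ, (x l : Ω) = (b : Ω) ^ j) → x ∈ Γ) →
      ∀ V : Set (Tor Ω n), (idl V).IsPrime → Transv K Γ V →
      ∀ (Z : Set (Tor Ω n)) (d' : ℕ) (δ ω : ℝ), ClosedOver L Z → Z ≠ Set.univ →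
        Equidim Z d' → HasDeg Z d' δ → V ⊆ Z → δ ^ (1 / ((n : ℝ) - d')) ≤ ω →
      ∀ θ : ℝ, idl {x | x ∈ V ∧ ht x ≤ θ} ≤ idl V →
      c ≤ (((Module.finrank ℚ K * P + s : ℕ) : ℝ) * ω) ^ expo n * θ := by
  obtain ⟨c, hc, hc1, h⟩ := pts_dgF b hb ι hι
  refine ⟨c / ((cst n : ℝ) + 1) ^ 401, by positivity, ?_⟩
  intro K Ω _ _ _ _ _ _ _ s P L hL Γ hΓ V hV htr Z d' δ ω hZ hZne hZd hZδ hVZ hω θ hθ
  obtain ⟨hω1, h1⟩ := tr_B K n 400 (c / ((Module.finrank ℚ K * P + s : ℕ) : ℝ) ^ 400) (pw b hb)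
    L (fun γ hγ => h K Ω s P L hL (γ : Ω) γ.ne_zero fun k hk j hj => hγ k hk
      ((mem_pw b hb _).2 ⟨j, (Units.val_pow_eq_pow_val γ k).trans hj⟩)) Γ
    (fun x hx => hΓ x fun l => (mem_pw b hb _).1 (hx l)) V hV htr Z d' δ ω hZ hZne hZd
    hZδ hVZ hω θ hθ
  have hP := hL.pos
  have hK : 1 ≤ Module.finrank ℚ K := Module.finrank_pos
  exact const_le n s P (Module.finrank ℚ K) c ω θ hc1 (by nlinarith)
    (theta_nonneg V hV θ hθ) hω1 (expo n) (expo_ge n) _ (expo_B n) h1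

end Pool.Agent.H33.TR
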