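import Mathlib

/-!
# TRANSFER THEOREM, Twi: twists of a factor by roots of unity

* `card_factors`: pairwise not associated irreducible divisors of `H ≠ 0`, all of positive degree in `x_l`, are at most
  `deg_l H` in number.
* `twist_bound`: `F` irreducible of degree at most `D` in each variable, `F ∣ G(x^p)`, `deg_l G ≤ M < p`, `2 D² < p`: the
  differences of the exponents of `F` are pairwise linearly dependent. Otherwise a minor `(i, j)` is not divisible by `p`, the `p²`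
  polynomials `F(z x)`, `z ∈ μ_p²` in the coordinates `i, j`, are pairwise not associated divisors of `G(x^p)`, so
  `p² ≤ deg_l G(x^p) ≤ p M`.
-/

set_option autoImplicit false
set_option linter.unusedSectionVars false

open MvPolynomial

namespace Pool.Agent.H33.TR

theorem card_factors {Ω : Type} [Field Ω] {k : ℕ} (H : MvPolynomial (Fin k) Ω) (hH : H ≠ 0) {I : Type}
    (s : Finset I) (f : I → MvPolynomial (Fin k) Ω) (hirr : ∀ a ∈ s, Irreducible (f a))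
    (hna : ∀ a ∈ s, ∀ b ∈ s, a ≠ b → ¬ Associated (f a) (f b)) (hdiv : ∀ a ∈ s, f a ∣ H)
    (l : Fin k) (hl : ∀ a ∈ s, 1 ≤ (f a).degreeOf l) : s.card ≤ H.degreeOf l := by
  classical
  have h1 : (∏ a ∈ s, f a) ∣ H := by
    refine Finset.prod_dvd_of_isRelPrime ?_ hdiv
    intro a ha b hb hab
    change IsRelPrime (f a) (f b)
    rw [(hirr a ha).isRelPrime_iff_not_dvd]
    intro h
    exact hna a ha b hb hab ((hirr a ha).associated_of_dvd (hirr b hb) h)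
  obtain ⟨q, hq⟩ := h1
  have hP : ∏ a ∈ s, f a ≠ 0 := by
    intro h
    apply hH
    rw [hq, h, zero_mul]
  have hq0 : q ≠ 0 := by
    intro h
    apply hH
    rw [hq, h, mul_zero]
  rw [hq, degreeOf_mul_eq hP hq0, degreeOf_prod_eq s f fun a ha => (hirr a ha).ne_zero]
  calc s.card = ∑ _a ∈ s, 1 := by rw [Finset.sum_const, smul_eq_mul, mul_one]
    _ ≤ ∑ a ∈ s, (f a).degreeOf l := Finset.sum_le_sum hl
    _ ≤ _ := Nat.le_add_right _ _

/-- the twist `F(c x)` -/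
noncomputable def tw {Ω : Type} [Field Ω] {k : ℕ} (c : Fin k → Ω) :
    MvPolynomial (Fin k) Ω →ₐ[Ω] MvPolynomial (Fin k) Ω := aeval fun l => C (c l) * X l

theorem coeff_tw {Ω : Type} [Field Ω] {k : ℕ} (c : Fin k → Ω) (F : MvPolynomial (Fin k) Ω) (m : Fin k →₀ ℕ) :
    (tw c F).coeff m = (∏ l, c l ^ m l) * F.coeff m := by
  classical
  induction F using MvPolynomial.induction_on' with
  | monomial u a =>
    have h1 : tw c (monomial u a) = monomial u ((∏ l, c l ^ u l) * a) := by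
      unfold tw
      rw [aeval_monomial, Finsupp.prod_fintype _ _ (fun i => pow_zero _)]
      simp only [mul_pow]
      rw [Finset.prod_mul_distrib]
      have h2 : (monomial u) ((∏ l, c l ^ u l) * a) =
          C ((∏ l, c l ^ u l) * a) * ∏ l, (X l : MvPolynomial (Fin k) Ω) ^ u l := by
        rw [monomial_eq, Finsupp.prod_fintype _ _ (fun i => pow_zero _)]
      rw [h2, MvPolynomial.algebraMap_eq, map_mul, map_prod]
      simp only [map_pow]
      ring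
    rw [h1, coeff_monomial, coeff_monomial]
    split_ifs with h
    · rw [h]
    · rw [mul_zero]
  | add p q hp hq => rw [map_add, coeff_add, coeff_add, hp, hq, mul_add]

theorem tw_tw {Ω : Type} [Field Ω] {k : ℕ} (c d : Fin k → Ω) (h : ∀ l, c l * d l = 1)
    (F : MvPolynomial (Fin k) Ω) : tw c (tw d F) = F := by
  ext m
  rw [coeff_tw, coeff_tw, ← mul_assoc, ← Finset.prod_mul_distrib]
  have h1 : ∏ l, c l ^ m l * d l ^ m l = 1 := by
    refine Finset.prod_eq_one fun l _ => ?_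
    rw [← mul_pow, h, one_pow]
  rw [h1, one_mul]

theorem tw_irr {Ω : Type} [Field Ω] {k : ℕ} (c : Fin k → Ω) (hc : ∀ l, c l ≠ 0)
    (F : MvPolynomial (Fin k) Ω) (hF : Irreducible F) : Irreducible (tw c F) := by
  let e : MvPolynomial (Fin k) Ω ≃* MvPolynomial (Fin k) Ω :=
    { toFun := tw c
      invFun := tw fun l => (c l)⁻¹
      left_inv := fun G => tw_tw _ _ (fun l => inv_mul_cancel₀ (hc l)) G
      right_inv := fun G => tw_tw _ _ (fun l => mul_inv_cancel₀ (hc l)) G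
      map_mul' := fun a b => map_mul _ a b }
  exact (MulEquiv.irreducible_iff e).2 hF

theorem tw_expand {Ω : Type} [Field Ω] {k : ℕ} (p : ℕ) (c : Fin k → Ω) (hc : ∀ l, c l ^ p = 1)
    (G : MvPolynomial (Fin k) Ω) : tw c (expand p G) = expand p G := by
  have h1 : (tw c).comp (expand p) = expand p := by
    apply algHom_ext
    intro l
    rw [AlgHom.comp_apply, expand_X, map_pow]
    unfold tw
    rw [aeval_X, mul_pow, ← map_pow, hc, map_one, one_mul]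
  exact congrArg (fun φ => φ G) h1

private theorem assoc_coeff {Ω : Type} [Field Ω] {k : ℕ} {F G : MvPolynomial (Fin k) Ω} (h : Associated F G) :
    ∃ u : Ω, ∀ m, G.coeff m = u * F.coeff m := by
  obtain ⟨u, hu⟩ := h
  obtain ⟨r, -, hr⟩ := isUnit_iff_eq_C_of_isReduced.1 u.isUnit
  refine ⟨r, fun m => ?_⟩
  rw [← hu, hr, mul_comm, coeff_C_mul]

theorem degreeOf_expand_le {Ω : Type} [Field Ω] {k : ℕ} (p : ℕ) (hp : p ≠ 0) (G : MvPolynomial (Fin k) Ω)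
    (l : Fin k) (M : ℕ) (hM : G.degreeOf l ≤ M) : (expand p G).degreeOf l ≤ p * M := by
  classical
  rw [degreeOf_le_iff]
  intro m hm
  rw [support_expand G hp, Finset.mem_image] at hm
  obtain ⟨m', hm', rfl⟩ := hm
  rw [Finsupp.smul_apply, smul_eq_mul]
  exact Nat.mul_le_mul_left _ ((monomial_le_degreeOf l hm').trans hM)

theorem twist_bound {Ω : Type} [Field Ω] [IsAlgClosed Ω] [CharZero Ω] {k : ℕ} (p : ℕ) (hp : p.Prime)
    (F G : MvPolynomial (Fin k) Ω) (hF : Irreducible F) (hG : G ≠ 0) (hdiv : F ∣ expand p G)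
    (M : ℕ) (hM : ∀ l, G.degreeOf l ≤ M) (hMp : M < p) (D : ℕ) (hD : ∀ l, F.degreeOf l ≤ D)
    (hDp : 2 * D ^ 2 < p) (m₀ m₁ m₂ : Fin k →₀ ℕ) (h₀ : m₀ ∈ F.support) (h₁ : m₁ ∈ F.support)
    (h₂ : m₂ ∈ F.support) (i j : Fin k) :
    ((m₁ i : ℤ) - m₀ i) * ((m₂ j : ℤ) - m₀ j) = ((m₁ j : ℤ) - m₀ j) * ((m₂ i : ℤ) - m₀ i) := by
  classical
  by_contra hcon
  have hij : i ≠ j := by
    rintro rfl
    exact hcon rfl
  obtain ⟨Δ, hΔ⟩ : ∃ Δ : ℤ, Δ = ((m₁ i : ℤ) - m₀ i) * ((m₂ j : ℤ) - m₀ j) -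
    ((m₁ j : ℤ) - m₀ j) * ((m₂ i : ℤ) - m₀ i) := ⟨_, rfl⟩
  have hΔ0 : Δ ≠ 0 := by
    rw [hΔ]
    exact sub_ne_zero.2 hcon
  have hm : ∀ m ∈ F.support, ∀ l, m l ≤ D := fun m hm l => (monomial_le_degreeOf l hm).trans (hD l)
  have habs : |Δ| < p := by
    have hd : ∀ a b : ℕ, a ≤ D → b ≤ D → |(a : ℤ) - b| ≤ D := by
      intro a b ha hb
      rw [abs_le]
      constructor <;> omega
    have e1 := hd _ _ (hm m₁ h₁ i) (hm m₀ h₀ i)
    have e2 := hd _ _ (hm m₂ h₂ j) (hm m₀ h₀ j)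
    have e3 := hd _ _ (hm m₁ h₁ j) (hm m₀ h₀ j)
    have e4 := hd _ _ (hm m₂ h₂ i) (hm m₀ h₀ i)
    have hD0 : (0 : ℤ) ≤ D := Int.natCast_nonneg D
    calc |Δ| ≤ |((m₁ i : ℤ) - m₀ i) * ((m₂ j : ℤ) - m₀ j)| +
          |((m₁ j : ℤ) - m₀ j) * ((m₂ i : ℤ) - m₀ i)| := by
          rw [hΔ]
          exact abs_sub _ _
      _ ≤ D * D + D * D := by
          rw [abs_mul, abs_mul]
          exact add_le_add (mul_le_mul e1 e2 (abs_nonneg _) hD0) (mul_le_mul e3 e4 (abs_nonneg _) hD0)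
      _ = ((2 * D ^ 2 : ℕ) : ℤ) := by push_cast; ring
      _ < p := by exact_mod_cast hDp
  have hpΔ : ¬ (p : ℤ) ∣ Δ := by
    intro h
    have h1 := Int.le_of_dvd (abs_pos.2 hΔ0) ((dvd_abs _ _).2 h)
    omega
  -- the variable
  obtain ⟨m₃, h₃, h₃i⟩ : ∃ m₃ ∈ F.support, m₃ i ≠ 0 := by
    by_contra hc
    push Not at hc
    have e0 := hc m₀ h₀
    have e1 := hc m₁ h₁
    have e2 := hc m₂ h₂
    apply hΔ0
    rw [hΔ, e0, e1, e2]
    simp
  have hpΩ : (p : Ω) ≠ 0 := by exact_mod_cast hp.ne_zero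
  have : NeZero (p : Ω) := ⟨hpΩ⟩
  obtain ⟨ζ, hζ⟩ := HasEnoughRootsOfUnity.exists_primitiveRoot Ω p
  have hζ0 : ζ ≠ 0 := hζ.ne_zero hp.ne_zero
  let c : Fin p × Fin p → Fin k → Ω := fun a l =>
    if l = i then ζ ^ (a.1 : ℕ) else if l = j then ζ ^ (a.2 : ℕ) else 1
  have hc0 : ∀ a l, c a l ≠ 0 := by
    intro a l
    simp only [c]
    split_ifs
    · exact pow_ne_zero _ hζ0
    · exact pow_ne_zero _ hζ0
    · exact one_ne_zero
  have hcp : ∀ a l, c a l ^ p = 1 := by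
    intro a l
    simp only [c]
    split_ifs
    · rw [← pow_mul, mul_comm, pow_mul, hζ.pow_eq_one, one_pow]
    · rw [← pow_mul, mul_comm, pow_mul, hζ.pow_eq_one, one_pow]
    · rw [one_pow]
  have hcprod : ∀ a (m : Fin k →₀ ℕ), ∏ l, c a l ^ m l = ζ ^ ((a.1 : ℕ) * m i + (a.2 : ℕ) * m j) := by
    intro a m
    rw [← Finset.mul_prod_erase Finset.univ _ (Finset.mem_univ i),
      ← Finset.mul_prod_erase (Finset.univ.erase i) _ (Finset.mem_erase.2 ⟨hij.symm, Finset.mem_univ j⟩)]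
    have e1 : c a i = ζ ^ (a.1 : ℕ) := if_pos rfl
    have e2 : c a j = ζ ^ (a.2 : ℕ) := by
      simp [c, hij.symm]
    have e3 : ∏ l ∈ (Finset.univ.erase i).erase j, c a l ^ m l = 1 := by
      refine Finset.prod_eq_one fun l hl => ?_
      rw [Finset.mem_erase, Finset.mem_erase] at hl
      simp only [c]
      rw [if_neg hl.2.1, if_neg hl.1, one_pow]
    rw [e1, e2, e3, mul_one, ← pow_mul, ← pow_mul, ← pow_add]
  have hcount := card_factors (expand p G) ((expand_ne_zero hp.pos).2 hG)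
    (Finset.univ : Finset (Fin p × Fin p)) (fun a => tw (c a) F)
    (fun a _ => tw_irr _ (hc0 a) F hF) ?_ ?_ i ?_
  · have h1 := degreeOf_expand_le p hp.ne_zero G i M (hM i)
    rw [Finset.card_univ, Fintype.card_prod, Fintype.card_fin] at hcount
    have h2 := hcount.trans h1
    have h3 := Nat.le_of_mul_le_mul_left h2 hp.pos
    omega
  · -- not associated
    intro a _ b _ hab hass
    obtain ⟨u, hu⟩ := assoc_coeff hass
    have key : ∀ m ∈ F.support, ζ ^ ((b.1 : ℕ) * m i + (b.2 : ℕ) * m j) =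
        u * ζ ^ ((a.1 : ℕ) * m i + (a.2 : ℕ) * m j) := by
      intro m hm
      have h1 := hu m
      rw [coeff_tw, coeff_tw, hcprod, hcprod, ← mul_assoc] at h1
      exact mul_right_cancel₀ (mem_support_iff.1 hm) h1
    have hu0 : u ≠ 0 := by
      intro h0
      have h1 := key m₀ h₀
      rw [h0, zero_mul] at h1
      exact pow_ne_zero _ hζ0 h1
    have hz : ∀ m ∈ F.support, ζ ^ ((((b.1 : ℕ) : ℤ) - (a.1 : ℕ)) * m i + (((b.2 : ℕ) : ℤ) - (a.2 : ℕ)) * m j) = u := by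
      intro m hm
      have h1 := key m hm
      have h2 : ((((b.1 : ℕ) : ℤ) - (a.1 : ℕ)) * m i + (((b.2 : ℕ) : ℤ) - (a.2 : ℕ)) * m j) =
          (((b.1 : ℕ) * m i + (b.2 : ℕ) * m j : ℕ) : ℤ) - (((a.1 : ℕ) * m i + (a.2 : ℕ) * m j : ℕ) : ℤ) := by
        push_cast
        ring
      rw [h2, zpow_sub₀ hζ0, zpow_natCast, zpow_natCast, h1, mul_div_assoc,
        div_self (pow_ne_zero _ hζ0), mul_one]
    have hd : ∀ m ∈ F.support, (p : ℤ) ∣ (((b.1 : ℕ) : ℤ) - (a.1 : ℕ)) * ((m i : ℤ) - m₀ i) +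
        (((b.2 : ℕ) : ℤ) - (a.2 : ℕ)) * ((m j : ℤ) - m₀ j) := by
      intro m hm
      rw [← hζ.zpow_eq_one_iff_dvd]
      have h2 : (((b.1 : ℕ) : ℤ) - (a.1 : ℕ)) * ((m i : ℤ) - m₀ i) +
          (((b.2 : ℕ) : ℤ) - (a.2 : ℕ)) * ((m j : ℤ) - m₀ j) =
          ((((b.1 : ℕ) : ℤ) - (a.1 : ℕ)) * m i + (((b.2 : ℕ) : ℤ) - (a.2 : ℕ)) * m j) -
          ((((b.1 : ℕ) : ℤ) - (a.1 : ℕ)) * m₀ i + (((b.2 : ℕ) : ℤ) - (a.2 : ℕ)) * m₀ j) := by ring
      rw [h2, zpow_sub₀ hζ0, hz m hm, hz m₀ h₀, div_self hu0]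
    have d1 := hd m₁ h₁
    have d2 := hd m₂ h₂
    have hpp : Prime (p : ℤ) := Nat.prime_iff_prime_int.1 hp
    have a1 : (p : ℤ) ∣ (((b.1 : ℕ) : ℤ) - (a.1 : ℕ)) * Δ := by
      have h1 := (d1.mul_right ((m₂ j : ℤ) - m₀ j)).sub (d2.mul_right ((m₁ j : ℤ) - m₀ j))
      have h2 : (((b.1 : ℕ) : ℤ) - (a.1 : ℕ)) * Δ =
          ((((b.1 : ℕ) : ℤ) - (a.1 : ℕ)) * ((m₁ i : ℤ) - m₀ i) +
          (((b.2 : ℕ) : ℤ) - (a.2 : ℕ)) * ((m₁ j : ℤ) - m₀ j)) * ((m₂ j : ℤ) - m₀ j) -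
          ((((b.1 : ℕ) : ℤ) - (a.1 : ℕ)) * ((m₂ i : ℤ) - m₀ i) +
          (((b.2 : ℕ) : ℤ) - (a.2 : ℕ)) * ((m₂ j : ℤ) - m₀ j)) * ((m₁ j : ℤ) - m₀ j) := by
        rw [hΔ]
        ring
      rw [h2]
      exact h1
    have a2 : (p : ℤ) ∣ (((b.2 : ℕ) : ℤ) - (a.2 : ℕ)) * Δ := by
      have h1 := (d2.mul_right ((m₁ i : ℤ) - m₀ i)).sub (d1.mul_right ((m₂ i : ℤ) - m₀ i))
      have h2 : (((b.2 : ℕ) : ℤ) - (a.2 : ℕ)) * Δ =
          ((((b.1 : ℕ) : ℤ) - (a.1 : ℕ)) * ((m₂ i : ℤ) - m₀ i) +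
          (((b.2 : ℕ) : ℤ) - (a.2 : ℕ)) * ((m₂ j : ℤ) - m₀ j)) * ((m₁ i : ℤ) - m₀ i) -
          ((((b.1 : ℕ) : ℤ) - (a.1 : ℕ)) * ((m₁ i : ℤ) - m₀ i) +
          (((b.2 : ℕ) : ℤ) - (a.2 : ℕ)) * ((m₁ j : ℤ) - m₀ j)) * ((m₂ i : ℤ) - m₀ i) := by
        rw [hΔ]
        ring
      rw [h2]
      exact h1
    have hzero : ∀ x y : Fin p, (p : ℤ) ∣ (((y : ℕ) : ℤ) - (x : ℕ)) → x = y := by
      intro x y h
      have hx := x.2
      have hy := y.2
      have h1 : ((y : ℕ) : ℤ) - (x : ℕ) = 0 := by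
        by_contra hne
        have h2 := Int.le_of_dvd (abs_pos.2 hne) ((dvd_abs _ _).2 h)
        have h3 : |((y : ℕ) : ℤ) - (x : ℕ)| < p := by
          rw [abs_lt]
          constructor <;> omega
        omega
      apply Fin.ext
      omega
    apply hab
    exact Prod.ext (hzero _ _ ((hpp.dvd_or_dvd a1).resolve_right hpΔ))
      (hzero _ _ ((hpp.dvd_or_dvd a2).resolve_right hpΔ))
  · intro a _
    rw [← tw_expand p (c a) (hcp a) G]
    obtain ⟨q, hq⟩ := hdiv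
    exact ⟨tw (c a) q, by rw [hq, map_mul]⟩
  · intro a _
    have h1 : m₃ ∈ (tw (c a) F).support := by
      rw [mem_support_iff, coeff_tw]
      exact mul_ne_zero (Finset.prod_ne_zero_iff.2 fun l _ => pow_ne_zero _ (hc0 a l)) (mem_support_iff.1 h₃)
    have h2 := monomial_le_degreeOf i h1
    omega

end Pool.Agent.H33.TR
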